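import Pool.Agent.Y167.Alg

/-!
# Bases of a real vector space consisting of lattice vectors
-/

set_option autoImplicit false

namespace Pool.Agent.R189.SY

open Pool.Agent.Y167

variable {E : Type*} [NormedAddCommGroup E] [NormedSpace ℝ E] [FiniteDimensional ℝ E]

/-- The coordinates of lattice vectors with respect to a basis consisting of lattice vectors have
bounded denominators. -/
theorem bounded_den (S : AddSubgroup E) (hd : DiscreteTopology S)
    (hs : Submodule.span ℝ (S : Set E) = ⊤) {ι : Type*} [Fintype ι] (b : Module.Basis ι ℝ E)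
    (hb : ∀ i, b i ∈ S) :
    ∃ N : ℕ, 0 < N ∧ ∀ x ∈ S, ∀ i, ∃ n : ℤ, (N : ℝ) * b.repr x i = n := by
  obtain ⟨r, bas, hbas⟩ := basis_of_discrete S hd hs
  let e : ι ≃ Fin r := b.indexEquiv bas
  let J : Matrix (Fin r) (Fin r) ℝ := fun i j => bas.repr (b (e.symm j)) i
  have hJ : ∀ i j, ∃ n : ℤ, J i j = n := fun i j => (hbas _).1 (hb _) i
  have hmul : ∀ (v : Fin r → ℝ) (i : Fin r),
      (J.mulVec v) i = bas.repr (∑ j, v j • b (e.symm j)) i := by
    intro v i
    rw [map_sum, Finsupp.finsetSum_apply]
    change ∑ j, J i j * v j = _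
    refine Finset.sum_congr rfl fun j _ => ?_
    rw [map_smul, Finsupp.smul_apply, smul_eq_mul]
    exact mul_comm _ _
  have hinj : ∀ v, J.mulVec v = 0 → v = 0 := by
    intro v hv
    have h1 : ∑ j, v j • b (e.symm j) = 0 := by
      rw [← bas.repr.map_eq_zero_iff]
      ext i
      rw [← hmul, hv]
      rfl
    have h2 : ∑ j, v j • (b.reindex e) j = 0 := by
      rw [← h1]
      exact Finset.sum_congr rfl fun j _ => by rw [Module.Basis.reindex_apply]
    have h3 := Fintype.linearIndependent_iff.1 (b.reindex e).linearIndependent v h2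
    funext j
    exact h3 j
  obtain ⟨N, hN, h⟩ := int_adj J hJ hinj
  refine ⟨N, hN, fun x hx i => ?_⟩
  have h1 : ∀ k, ∃ n : ℤ, (J.mulVec fun j => b.repr x (e.symm j)) k = n := by
    intro k
    rw [hmul]
    have h2 : ∑ j, b.repr x (e.symm j) • b (e.symm j) = x := by
      rw [Equiv.sum_comp e.symm (fun i => b.repr x i • b i)]
      exact b.sum_repr x
    rw [h2]
    exact (hbas x).1 hx k
  have h3 := h _ h1 (e i)
  rwa [Equiv.symm_apply_apply] at h3

/-- A basis adapted to a subset. -/
theorem exists_adapted (t u : Set E) (ht : Submodule.span ℝ t = ⊤) (hu : u ⊆ t) :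
    ∃ (I s : Set E) (_ : Fintype s) (b : Module.Basis s ℝ E), (∀ i, b i = i.1) ∧ s ⊆ t ∧
      I ⊆ u ∧ ∀ x ∈ Submodule.span ℝ u, ∀ i : s, i.1 ∉ I → b.repr x i = 0 := by
  classical
  have h0 := linearIndepOn_empty ℝ (id : E → E)
  set I := h0.extend (Set.empty_subset u) with hI
  have hIi : LinearIndepOn ℝ id I := h0.linearIndepOn_extend _
  have hIu : I ⊆ u := h0.extend_subset _
  have hIs : Submodule.span ℝ I = Submodule.span ℝ u := h0.span_extend_eq_span _
  set s := hIi.extend (hIu.trans hu) with hs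
  have hsi : LinearIndepOn ℝ id s := hIi.linearIndepOn_extend _
  have hst : s ⊆ t := hIi.extend_subset _
  have hIs' : I ⊆ s := hIi.subset_extend _
  have hss : Submodule.span ℝ s = ⊤ := (hIi.span_extend_eq_span _).trans ht
  have hli : LinearIndependent ℝ (fun i : s => i.1) := hsi
  let b : Module.Basis s ℝ E := Module.Basis.mk hli (by rw [Subtype.range_coe, hss])
  have hb : ∀ i, b i = i.1 := fun i => Module.Basis.mk_apply _ _ i
  have hfin : Finite s := Module.Finite.finite_basis b
  refine ⟨I, s, Fintype.ofFinite _, b, hb, hst, hIu, ?_⟩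
  intro x hx i hi
  rw [← hIs] at hx
  induction hx using Submodule.span_induction with
  | mem y hy =>
    have h1 : b ⟨y, hIs' hy⟩ = y := hb _
    rw [← h1, Module.Basis.repr_self, Finsupp.single_apply, if_neg]
    rintro rfl
    exact hi hy
  | zero => simp
  | add y z _ _ h1 h2 => rw [map_add, Finsupp.add_apply, h1, h2, add_zero]
  | smul c y _ h1 => rw [map_smul, Finsupp.smul_apply, h1, smul_zero]

end Pool.Agent.R189.SY
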