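import Pool.Agent.R189.SY.BBFDefs
import Pool.Agent.W594.SYZ.TQ4
import Pool.Agent.TH735.AQ.Uniq

/-!
# The Beauville–Bogomolov–Fujiki form of a primitive symplectic torus quotient
-/

set_option autoImplicit false

namespace Pool.Agent.R189.SY

open Pool.Agent.W594.SYZ2 Pool.Agent.W594.SYZ2.TQ Pool.Agent.TH735.AQ

variable {V : Type*} [NormedAddCommGroup V] [NormedSpace ℂ V] [FiniteDimensional ℂ V]
  {Γ : Subgroup (V ≃ᵃ[ℂ] V)} {s : V →ₗ[ℂ] V →ₗ[ℂ] ℂ}

/-- The properties of the symplectic form. -/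
structure Symp (Γ : Subgroup (V ≃ᵃ[ℂ] V)) (s : V →ₗ[ℂ] V →ₗ[ℂ] ℂ) : Prop where
  swap : ∀ x y, s x y = - s y x
  nd : ∀ x, (∀ y, s x y = 0) → x = 0
  inv : ∀ γ ∈ Γ, ∀ x y, s (γ.linear x) (γ.linear y) = s x y
  pull : ∀ P : V →ₗ[ℂ] V, (∀ γ ∈ Γ, ∀ v, P (γ.linear v) = γ.linear (P v)) →
    ∃ c : ℂ, ∀ y z, s (P y) (P z) = c * s y z

theorem exists_symp (hΓ : IsPrimitiveSymplectic Γ) : ∃ s : V →ₗ[ℂ] V →ₗ[ℂ] ℂ, Symp Γ s := by
  obtain ⟨σ, hσ, hnd, huniq⟩ := hΓ.symp
  refine ⟨bil (σ 0), fun x y => bil_swap _ x y, fun x hx => hnd 0 x hx, fun γ hγ x y => ?_,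
    fun P hP => ?_⟩
  · have h1 := form_inv hΓ.torus hσ γ hγ ![x, y]
    have h2 : (fun i => γ.linear (![x, y] i)) = ![γ.linear x, γ.linear y] := by
      funext i
      fin_cases i <;> rfl
    rw [h2] at h1
    exact h1
  · let ω : V → V [⋀^Fin 2]→L[ℂ] ℂ := fun _ =>
      (σ 0).compContinuousLinearMap (LinearMap.toContinuousLinearMap P)
    have hω : ∀ v w, ω v w = σ 0 (fun i => P (w i)) := fun v w => rfl
    have hω2 : ∀ v x y, ω v ![x, y] = bil (σ 0) (P x) (P y) := by
      intro v x y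
      rw [hω v, bil_apply]
      congr 1
      funext i
      fin_cases i <;> rfl
    have hf : IsForm Γ 2 ω := by
      refine ⟨differentiable_const _, ?_⟩
      intro γ hγ v w
      rw [hω v, hω (γ v)]
      have h1 : (fun i => P (γ.linear (w i))) = fun i => γ.linear (P (w i)) := by
        funext i
        exact hP γ hγ _
      rw [h1]
      exact form_inv hΓ.torus hσ γ hγ (fun i => P (w i))
    obtain ⟨c, hc⟩ := huniq ω hf
    refine ⟨c, fun y z => ?_⟩
    rw [← hω2 0 y z, hc]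
    rfl

section Symp

variable (S : Symp Γ s)

omit [FiniteDimensional ℂ V] in
include S in
theorem Symp.ext {x y : V} (h : ∀ w, s w x = s w y) : x = y := by
  rw [← sub_eq_zero]
  apply S.nd
  intro w
  rw [S.swap, map_sub, h w, sub_self, neg_zero]

/-- The isomorphism with the dual space. -/
noncomputable def Symp.fl : V ≃ₗ[ℂ] Module.Dual ℂ V :=
  LinearMap.linearEquivOfInjective s.flip (by
    intro x y h
    apply S.ext
    intro w
    exact LinearMap.congr_fun h w) (Subspace.dual_finrank_eq).symm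

/-- The conjugate linear operator given by a hermitian form and the symplectic form. -/
noncomputable def Symp.J (H : H11 Γ) (v : V) : V := S.fl.symm (hl H.2.1 v)

theorem Symp.J_spec (H : H11 Γ) (w v : V) : s w (S.J H v) = H.1 w v := by
  have h1 : S.fl (S.J H v) = hl H.2.1 v := LinearEquiv.apply_symm_apply _ _
  have h2 := LinearMap.congr_fun h1 w
  exact h2

theorem Symp.J_add (H : H11 Γ) (u v : V) : S.J H (u + v) = S.J H u + S.J H v := by
  apply S.ext
  intro w
  rw [map_add, S.J_spec, S.J_spec, S.J_spec, h_add_right H.2.1]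

theorem Symp.J_smul (H : H11 Γ) (c : ℂ) (v : V) :
    S.J H (c • v) = (starRingEnd ℂ c) • S.J H v := by
  apply S.ext
  intro w
  rw [map_smul, S.J_spec, S.J_spec, h_smul_right H.2.1, smul_eq_mul]

theorem Symp.J_zero (H : H11 Γ) : S.J H 0 = 0 := by
  have := S.J_smul H 0 0
  rwa [map_zero, zero_smul, zero_smul] at this

theorem Symp.J_add_left (H K : H11 Γ) (v : V) : S.J (H + K) v = S.J H v + S.J K v := by
  apply S.ext
  intro w
  rw [map_add, S.J_spec, S.J_spec, S.J_spec]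
  rfl

theorem Symp.J_smul_left (c : ℝ) (H : H11 Γ) (v : V) : S.J (c • H) v = (c : ℂ) • S.J H v := by
  apply S.ext
  intro w
  rw [map_smul, S.J_spec, S.J_spec]
  change c • H.1 w v = _
  rw [Complex.real_smul, smul_eq_mul]

theorem Symp.J_equiv (H : H11 Γ) (γ : V ≃ᵃ[ℂ] V) (hγ : γ ∈ Γ) (v : V) :
    S.J H (γ.linear v) = γ.linear (S.J H v) := by
  apply S.ext
  intro w
  obtain ⟨u, rfl⟩ := γ.linear.surjective w
  rw [S.J_spec, S.inv γ hγ, S.J_spec]
  exact H.2.2 γ hγ u v

theorem Symp.J_swap (H : H11 Γ) (w v : V) :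
    s w (S.J H v) = - starRingEnd ℂ (s (S.J H w) v) := by
  rw [S.J_spec, S.swap (S.J H w) v, S.J_spec, map_neg, neg_neg]
  exact H.2.1.symm v w

/-- The square of the operator is a real scalar. -/
theorem Symp.J_sq (H : H11 Γ) : ∃ c : ℝ, ∀ v, S.J H (S.J H v) = (c : ℂ) • v := by
  let T : V →ₗ[ℂ] V :=
    { toFun := fun v => S.J H (S.J H v)
      map_add' := fun u v => by rw [S.J_add, S.J_add]
      map_smul' := fun c v => by
        rw [S.J_smul, S.J_smul, Complex.conj_conj, RingHom.id_apply] }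
  have hT : ∀ v, T v = S.J H (S.J H v) := fun _ => rfl
  have hTe : ∀ γ ∈ Γ, ∀ v, T (γ.linear v) = γ.linear (T v) := by
    intro γ hγ v
    rw [hT, hT, S.J_equiv H γ hγ, S.J_equiv H γ hγ]
  have hTs : ∀ w v, s w (T v) = s (T w) v := by
    intro w v
    rw [hT, S.J_swap, S.J_swap, map_neg, Complex.conj_conj, neg_neg]
    rfl
  obtain ⟨c1, hc1⟩ := S.pull (LinearMap.id + T) (by
    intro γ hγ v
    rw [LinearMap.add_apply, LinearMap.add_apply, hTe γ hγ, LinearMap.id_apply,
      LinearMap.id_apply, map_add])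
  obtain ⟨c2, hc2⟩ := S.pull (LinearMap.id - T) (by
    intro γ hγ v
    rw [LinearMap.sub_apply, LinearMap.sub_apply, hTe γ hγ, LinearMap.id_apply,
      LinearMap.id_apply, map_sub])
  have h1 : ∀ v, T v = ((c1 - c2) / 4) • v := by
    intro v
    apply S.ext
    intro w
    have e1 := hc1 w v
    have e2 := hc2 w v
    simp only [LinearMap.add_apply, LinearMap.sub_apply, LinearMap.id_apply, map_add, map_sub,
      LinearMap.add_apply, LinearMap.sub_apply] at e1 e2
    rw [← hTs w v] at e1 e2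
    rw [map_smul, smul_eq_mul]
    linear_combination (e1 - e2) / 4
  set c := (c1 - c2) / 4 with hc
  by_cases hJ : ∃ v, S.J H v ≠ 0
  · obtain ⟨v, hv⟩ := hJ
    have h2 : (starRingEnd ℂ c) • S.J H v = c • S.J H v := by
      rw [← S.J_smul, ← h1 v, ← h1 (S.J H v)]
      rfl
    have h3 : starRingEnd ℂ c = c := by
      have h4 : (starRingEnd ℂ c - c) • S.J H v = 0 := by rw [sub_smul, h2, sub_self]
      exact sub_eq_zero.1 ((smul_eq_zero.1 h4).resolve_right hv)
    refine ⟨c.re, fun v => ?_⟩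
    rw [← hT, h1, Complex.conj_eq_iff_re.1 h3]
  · push Not at hJ
    refine ⟨0, fun v => ?_⟩
    rw [hJ, Complex.ofReal_zero, zero_smul]

/-- The bilinear form. -/
noncomputable def Symp.B (x₀ y₀ : V) : H11 Γ →ₗ[ℝ] H11 Γ →ₗ[ℝ] ℝ :=
  LinearMap.mk₂ ℝ (fun H K => - (s x₀ (S.J H (S.J K y₀))).re)
    (fun H H' K => by
      rw [S.J_add_left, map_add, Complex.add_re]
      ring)
    (fun c H K => by
      rw [S.J_smul_left, map_smul, smul_eq_mul, Complex.re_ofReal_mul, smul_eq_mul]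
      ring)
    (fun H K K' => by
      rw [S.J_add_left, S.J_add, map_add, Complex.add_re]
      ring)
    (fun c H K => by
      rw [S.J_smul_left, S.J_smul, Complex.conj_ofReal, map_smul, smul_eq_mul,
        Complex.re_ofReal_mul, smul_eq_mul]
      ring)

/-- The Beauville–Bogomolov–Fujiki form. -/
noncomputable def Symp.q (x₀ y₀ : V) : QuadraticForm ℝ (H11 Γ) :=
  LinearMap.BilinMap.toQuadraticMap (S.B x₀ y₀)

theorem Symp.J_q {x₀ y₀ : V} (h : s x₀ y₀ = 1) (H : H11 Γ) (v : V) :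
    S.J H (S.J H v) = ((-(S.q x₀ y₀ H) : ℝ) : ℂ) • v := by
  obtain ⟨c, hc⟩ := S.J_sq H
  have h1 : S.q x₀ y₀ H = -c := by
    change - (s x₀ (S.J H (S.J H y₀))).re = -c
    rw [hc, map_smul, h, smul_eq_mul, mul_one, Complex.ofReal_re]
  rw [hc, h1, neg_neg]

theorem Symp.H_J {x₀ y₀ : V} (h : s x₀ y₀ = 1) (H : H11 Γ) (v w : V) :
    H.1 (S.J H v) (S.J H w) = (S.q x₀ y₀ H : ℂ) * H.1 w v := by
  rw [← S.J_spec, S.J_q h, map_smul, S.swap, S.J_spec, smul_eq_mul]
  push_cast
  ring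

end Symp

/-- Existence of an invariant positive definite form. -/
theorem exists_kahler (hΓ : IsTorusQuotient Γ) : ∃ K : H11 Γ, IsPositiveForm K.1 := by
  classical
  have := finite_Lin hΓ
  have : Fintype (Lin Γ) := Fintype.ofFinite _
  let b := Module.finBasis ℂ V
  let h : V → V → ℂ := fun v w => ∑ i, b.coord i v * starRingEnd ℂ (b.coord i w)
  have hh : ∀ v w, h v w = ∑ i, b.coord i v * starRingEnd ℂ (b.coord i w) := fun _ _ => rfl
  let K : V → V → ℂ := fun v w => ∑ g : Lin Γ, h (g.1 v) (g.1 w)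
  have hK : ∀ v w, K v w = ∑ g : Lin Γ, h (g.1 v) (g.1 w) := fun _ _ => rfl
  have hre : ∀ v, (h v v).re = ∑ i, ‖b.coord i v‖ ^ 2 := by
    intro v
    rw [hh, Complex.re_sum]
    refine Finset.sum_congr rfl fun i _ => ?_
    rw [Complex.mul_conj, Complex.ofReal_re, Complex.normSq_eq_norm_sq]
  refine ⟨⟨K, ⟨fun u v w => ?_, fun a v w => ?_, fun v w => ?_⟩, fun γ hγ v w => ?_⟩, ?_⟩
  · simp only [hK, hh, map_add, add_mul, Finset.sum_add_distrib]
  · simp only [hK, hh, map_smul, smul_eq_mul, Finset.mul_sum, mul_assoc]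
  · simp only [hK, hh, map_sum, map_mul, Complex.conj_conj]
    refine Finset.sum_congr rfl fun g _ => Finset.sum_congr rfl fun i _ => mul_comm _ _
  · rw [hK, hK]
    let g₀ : Lin Γ := ⟨γ.linear, γ, hγ, rfl⟩
    exact Fintype.sum_equiv (Equiv.mulRight g₀) _ _ fun g => rfl
  · intro v hv
    change 0 < (K v v).re
    rw [hK, Complex.re_sum]
    refine Finset.sum_pos' (fun g _ => ?_) ⟨1, Finset.mem_univ _, ?_⟩
    · rw [hre]
      positivity
    · change 0 < (h v v).re
      rw [hre]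
      have h1 : b.repr v ≠ 0 := by
        intro h0
        exact hv (b.repr.map_eq_zero_iff.1 h0)
      obtain ⟨i, hi⟩ := Finsupp.ne_iff.1 h1
      refine Finset.sum_pos' (fun i _ => by positivity) ⟨i, Finset.mem_univ _, ?_⟩
      have : b.coord i v ≠ 0 := hi
      positivity

omit [FiniteDimensional ℂ V] in
theorem nef_of_pos' {H : V → V → ℂ} (hH : IsHermitian H) (hp : IsPositiveForm H) :
    IsNefForm H := by
  intro v
  by_cases hv : v = 0
  · rw [hv, h_zero_left hH]
    simp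
  · exact (hp v hv).le

/-- The smallest multiple of a Kähler class which dominates a class. -/
theorem exists_max [Nontrivial V] (K H : H11 Γ) (hK : IsPositiveForm K.1) :
    ∃ t : ℝ, (∀ v, (H.1 v v).re ≤ t * (K.1 v v).re) ∧
      ∃ u, u ≠ 0 ∧ (H.1 u u).re = t * (K.1 u u).re := by
  have : ProperSpace V := FiniteDimensional.proper ℂ V
  have hS : IsCompact (Metric.sphere (0 : V) 1) := isCompact_sphere _ _
  have hne : (Metric.sphere (0 : V) 1).Nonempty := by
    obtain ⟨x, hx⟩ := exists_ne (0 : V)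
    refine ⟨((‖x‖⁻¹ : ℝ) : ℂ) • x, ?_⟩
    rw [mem_sphere_zero_iff_norm, norm_smul, Complex.norm_real, norm_inv, norm_norm,
      inv_mul_cancel₀ (norm_ne_zero_iff.2 hx)]
  have hne0 : ∀ x ∈ Metric.sphere (0 : V) 1, x ≠ 0 := by
    rintro x hx rfl
    rw [mem_sphere_zero_iff_norm, norm_zero] at hx
    exact zero_ne_one hx
  have hcont : ContinuousOn (fun v => (H.1 v v).re / (K.1 v v).re) (Metric.sphere (0 : V) 1) := by
    apply ContinuousOn.div (diag_continuous H.2.1).continuousOn (diag_continuous K.2.1).continuousOn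
    intro x hx
    exact (hK x (hne0 x hx)).ne'
  obtain ⟨u, hu, hmax⟩ := hS.exists_isMaxOn hne hcont
  refine ⟨(H.1 u u).re / (K.1 u u).re, fun v => ?_, u, hne0 u hu, ?_⟩
  · by_cases hv : v = 0
    · rw [hv, h_zero_left H.2.1, h_zero_left K.2.1]
      simp
    · have hn : ‖v‖ ≠ 0 := norm_ne_zero_iff.2 hv
      have h1 : ((‖v‖⁻¹ : ℝ) : ℂ) • v ∈ Metric.sphere (0 : V) 1 := by
        rw [mem_sphere_zero_iff_norm, norm_smul, Complex.norm_real, norm_inv, norm_norm,
          inv_mul_cancel₀ hn]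
      have h2 := hmax h1
      simp only [Set.mem_ofPred_eq] at h2
      rw [h_diag_smul H.2.1, h_diag_smul K.2.1, mul_div_mul_left] at h2
      · rwa [div_le_iff₀ (hK v hv)] at h2
      · have : (0 : ℝ) < ‖((‖v‖⁻¹ : ℝ) : ℂ)‖ ^ 2 := by
          rw [Complex.norm_real]
          have : ‖v‖⁻¹ ≠ 0 := inv_ne_zero hn
          positivity
        exact this.ne'
  · rw [div_mul_cancel₀ _ (hK u (hne0 u hu)).ne']

omit [FiniteDimensional ℂ V] in
theorem kernel_of_max {H : H11 Γ} (hn : IsNefForm H.1) {u : V} (hu : u ≠ 0)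
    (h : (H.1 u u).re = 0) : IsDegenerateForm H.1 :=
  ⟨u, hu, fun w => h_isotropic H.2.1 hn u h w⟩

omit [FiniteDimensional ℂ V] in
theorem pos_of_nef {H : H11 Γ} (hn : IsNefForm H.1) (hd : ¬ IsDegenerateForm H.1) :
    IsPositiveForm H.1 := by
  intro v hv
  refine lt_of_le_of_ne (hn v) fun h => hd ?_
  exact kernel_of_max hn hv h.symm

section Main

variable (S : Symp Γ s) {x₀ y₀ : V} (h1 : s x₀ y₀ = 1)

include h1 in
theorem Symp.degenerate_iff [Nontrivial V] (H : H11 Γ) :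
    IsDegenerateForm H.1 ↔ S.q x₀ y₀ H = 0 := by
  constructor
  · rintro ⟨v, hv, hvw⟩
    have h2 : S.J H v = 0 := by
      apply S.ext
      intro w
      rw [S.J_spec, H.2.1.symm v w, hvw, map_zero, map_zero]
    have h3 := S.J_q h1 H v
    rw [h2, S.J_zero] at h3
    have h4 := (smul_eq_zero.1 h3.symm).resolve_right hv
    have h5 : -(S.q x₀ y₀ H) = 0 := by exact_mod_cast h4
    linarith
  · intro h0
    have h2 : ∀ v, S.J H (S.J H v) = 0 := by
      intro v
      rw [S.J_q h1, h0]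
      simp
    have h3 : ∃ u, u ≠ 0 ∧ S.J H u = 0 := by
      obtain ⟨v, hv⟩ := exists_ne (0 : V)
      by_cases hJ : S.J H v = 0
      · exact ⟨v, hv, hJ⟩
      · exact ⟨_, hJ, h2 v⟩
    obtain ⟨u, hu, hJu⟩ := h3
    refine ⟨u, hu, fun w => ?_⟩
    rw [H.2.1.symm w u, ← S.J_spec, hJu, map_zero, map_zero]

include h1 in
theorem Symp.q_pos [Nontrivial V] (H : H11 Γ) (hp : IsPositiveForm H.1) :
    0 < S.q x₀ y₀ H := by
  obtain ⟨v, hv⟩ := exists_ne (0 : V)
  have h2 := hp v hv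
  have h3 : S.J H v ≠ 0 := by
    intro h
    rw [← S.J_spec, h, map_zero, Complex.zero_re] at h2
    exact lt_irrefl _ h2
  have h4 := hp _ h3
  rw [S.H_J h1, Complex.re_ofReal_mul] at h4
  by_contra hle
  push Not at hle
  nlinarith


include h1 in
theorem Symp.q_nonneg [Nontrivial V] (H : H11 Γ) (hn : IsNefForm H.1) :
    0 ≤ S.q x₀ y₀ H := by
  by_cases hd : IsDegenerateForm H.1
  · rw [(S.degenerate_iff h1 H).1 hd]
  · exact (S.q_pos h1 H (pos_of_nef hn hd)).le

/-- The extremal multiple gives a degenerate form. -/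
theorem Symp.exists_root [Nontrivial V] (K H : H11 Γ) (hK : IsPositiveForm K.1)
    (h1 : s x₀ y₀ = 1) :
    ∃ t : ℝ, (∀ v, (H.1 v v).re ≤ t * (K.1 v v).re) ∧ S.q x₀ y₀ (t • K - H) = 0 := by
  obtain ⟨t, ht, u, hu, hut⟩ := exists_max K H hK
  refine ⟨t, ht, (S.degenerate_iff h1 _).1 ?_⟩
  have h2 : ∀ v, ((t • K - H : H11 Γ).1 v v).re = t * (K.1 v v).re - (H.1 v v).re := by
    intro v
    change ((t • K.1 v v) - H.1 v v).re = _
    rw [Complex.sub_re, Complex.real_smul, Complex.re_ofReal_mul]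
  refine kernel_of_max (fun v => ?_) hu ?_
  · rw [h2]
    linarith [ht v]
  · rw [h2, hut, sub_self]

/-- The polar form. -/
theorem Symp.q_expand (K H : H11 Γ) (t : ℝ) : S.q x₀ y₀ (t • K - H) =
    t ^ 2 * S.q x₀ y₀ K - t * QuadraticMap.polar (S.q x₀ y₀) K H + S.q x₀ y₀ H := by
  have e1 : t • K - H = t • K + (-1 : ℝ) • H := by module
  have e2 : S.q x₀ y₀ (t • K + (-1 : ℝ) • H) = QuadraticMap.polar (S.q x₀ y₀) (t • K) ((-1 : ℝ) • H)
      + S.q x₀ y₀ (t • K) + S.q x₀ y₀ ((-1 : ℝ) • H) := by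
    rw [QuadraticMap.polar]
    ring
  rw [e1, e2, QuadraticMap.polar_smul_left, QuadraticMap.polar_smul_right, QuadraticMap.map_smul,
    QuadraticMap.map_smul]
  simp only [smul_eq_mul]
  ring

/-- The classes of nonnegative square are nef up to sign. -/
theorem Symp.pm_nef [Nontrivial V] (h1 : s x₀ y₀ = 1) (hΓ : IsTorusQuotient Γ) (H : H11 Γ)
    (h : 0 ≤ S.q x₀ y₀ H) : IsNefForm H.1 ∨ IsNefForm (-H).1 := by
  obtain ⟨K, hK⟩ := exists_kahler hΓ
  obtain ⟨t, ht, hqt⟩ := S.exists_root K H hK h1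
  obtain ⟨t', ht', hqt'⟩ := S.exists_root K (-H) hK h1
  have hneg : ∀ v, ((-H : H11 Γ).1 v v).re = -(H.1 v v).re := by
    intro v
    change (-(H.1 v v)).re = _
    rw [Complex.neg_re]
  have hKn : ∀ v, 0 ≤ (K.1 v v).re := nef_of_pos' K.2.1 hK
  rcases le_or_gt t 0 with h2 | h2
  · right
    intro v
    rw [hneg]
    nlinarith [ht v, hKn v]
  · rcases le_or_gt t' 0 with h3 | h3
    · left
      intro v
      have := ht' v
      rw [hneg] at this
      nlinarith [hKn v]
    · exfalso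
      rw [S.q_expand] at hqt hqt'
      rw [QuadraticMap.polar_neg_right, QuadraticMap.map_neg] at hqt'
      have hk := S.q_pos h1 K hK
      set β := QuadraticMap.polar (S.q x₀ y₀) K H
      set k := S.q x₀ y₀ K
      set q := S.q x₀ y₀ H
      have h4 : t * t' * k + q = 0 := by
        have h5 : (t + t') * (t * t' * k + q) = 0 := by
          linear_combination t' * hqt + t * hqt'
        exact (mul_eq_zero.1 h5).resolve_left (by positivity)
      have : 0 < t * t' * k := by positivity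
      linarith

/-- The Hodge index theorem. -/
theorem Symp.hodge_index [Nontrivial V] (h1 : s x₀ y₀ = 1) (K H : H11 Γ)
    (hK : IsPositiveForm K.1) (hpol : QuadraticMap.polar (S.q x₀ y₀) K H = 0) (h0 : H ≠ 0) :
    S.q x₀ y₀ H < 0 := by
  obtain ⟨t, ht, hqt⟩ := S.exists_root K H hK h1
  obtain ⟨t', ht', hqt'⟩ := S.exists_root K (-H) hK h1
  rw [S.q_expand, hpol] at hqt
  rw [S.q_expand, QuadraticMap.polar_neg_right, QuadraticMap.map_neg, hpol] at hqt'
  have hk := S.q_pos h1 K hK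
  by_contra hge
  push Not at hge
  have h2 : t = 0 := by
    by_contra hne
    have : 0 < t ^ 2 * S.q x₀ y₀ K := by positivity
    linarith
  have h3 : t' = 0 := by
    by_contra hne
    have : 0 < t' ^ 2 * S.q x₀ y₀ K := by positivity
    linarith
  apply h0
  have hneg : ∀ v, ((-H : H11 Γ).1 v v).re = -(H.1 v v).re := by
    intro v
    change (-(H.1 v v)).re = _
    rw [Complex.neg_re]
  have h4 : ∀ v, (H.1 v v).re = 0 := by
    intro v
    have e1 := ht v
    have e2 := ht' v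
    rw [h2, zero_mul] at e1
    rw [h3, zero_mul, hneg] at e2
    linarith
  apply Subtype.ext
  funext v w
  exact h_isotropic H.2.1 (fun v => (h4 v).ge) v (h4 v) w

end Main

end Pool.Agent.R189.SY
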