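import Pool.Agent.W594.SYZ.TQDefs

/-!
# The Beauville–Bogomolov–Fujiki form of a primitive symplectic torus quotient: definitions
-/

set_option autoImplicit false

namespace Pool.Agent.R189.SY

open Pool.Agent.W594.SYZ2

variable {V : Type*} [NormedAddCommGroup V] [NormedSpace ℂ V]

/-- The real vector space `H^{1,1}(X, ℝ)` of `X = V / Γ`: the hermitian forms on `V` which are
invariant under the linear parts of `Γ`. -/
def H11 (Γ : Subgroup (V ≃ᵃ[ℂ] V)) : Submodule ℝ (V → V → ℂ) where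
  carrier := {H | IsHermitian H ∧ ∀ γ ∈ Γ, ∀ v w, H (γ.linear v) (γ.linear w) = H v w}
  zero_mem' := ⟨⟨fun _ _ _ => by simp, fun _ _ _ => by simp, fun _ _ => by simp⟩,
    fun _ _ _ _ => rfl⟩
  add_mem' := by
    rintro H K ⟨⟨h1, h2, h3⟩, h4⟩ ⟨⟨k1, k2, k3⟩, k4⟩
    refine ⟨⟨fun u v w => ?_, fun a v w => ?_, fun v w => ?_⟩, fun γ hγ v w => ?_⟩
    · simp only [Pi.add_apply, h1, k1]; ring
    · simp only [Pi.add_apply, h2, k2]; ring
    · simp only [Pi.add_apply, h3 v w, k3 v w, map_add]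
    · simp only [Pi.add_apply, h4 γ hγ, k4 γ hγ]
  smul_mem' := by
    rintro c H ⟨⟨h1, h2, h3⟩, h4⟩
    refine ⟨⟨fun u v w => ?_, fun a v w => ?_, fun v w => ?_⟩, fun γ hγ v w => ?_⟩
    · simp only [Pi.smul_apply, h1, smul_add]
    · simp only [Pi.smul_apply, h2, Complex.real_smul]; ring
    · simp only [Pi.smul_apply, h3 v w, Complex.real_smul, map_mul, Complex.conj_ofReal]
    · simp only [Pi.smul_apply, h4 γ hγ]

/-- `q` is the Beauville–Bogomolov–Fujiki form on `H^{1,1}(X, ℝ)`, up to a positive factor: it is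
positive on Kähler classes and satisfies the Fujiki relation: up to a positive factor `q(H)^n`,
`2 n = dim X`, is the determinant of the hermitian form `H` (which is a positive multiple of the
integral of `H^{2 n}` over `X`). -/
structure IsBBF (Γ : Subgroup (V ≃ᵃ[ℂ] V)) (q : QuadraticForm ℝ (H11 Γ)) : Prop where
  pos : ∀ H : H11 Γ, IsPositiveForm H.1 → 0 < q H
  fujiki : ∀ (n : ℕ) (b : Module.Basis (Fin (2 * n)) ℂ V), ∃ κ : ℝ, 0 < κ ∧ ∀ H : H11 Γ,
    Matrix.det (fun i j => H.1 (b i) (b j)) = ((κ * q H ^ n : ℝ) : ℂ)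

end Pool.Agent.R189.SY
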