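import Pool.Agent.R189.SY.Lat

/-!
# The number of fibrations of a primitive symplectic torus quotient
-/

set_option autoImplicit false

namespace Pool.Agent.R189.SY

open Pool.Agent.W594.SYZ2 Pool.Agent.W594.SYZ2.TQ Pool.Agent.TH735.AQ
open Pool.Agent.R893.TQ (IsRatClass Solves exists_solution ample_of_pos latt_base)

variable {V : Type*} [NormedAddCommGroup V] [NormedSpace ℂ V] [FiniteDimensional ℂ V]
  {Γ : Subgroup (V ≃ᵃ[ℂ] V)}

/-- The class of a fibration. -/
theorem class_of (hΓ : IsPrimitiveSymplectic Γ) {K : Submodule ℂ V} (hK : K ∈ fibrations Γ) :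
    ∃ H : H11 Γ, IsRatClass Γ H.1 ∧ IsNefForm H.1 ∧ ∀ v, v ∈ K ↔ ∀ w, H.1 v w = 0 := by
  obtain ⟨h0, h1, h2, h3⟩ := (mem_fib hΓ K).1 hK
  obtain ⟨H, hr, hn, hk⟩ := exists_pol hΓ K h2 h0 h3
  exact ⟨⟨H, hr.herm, hr.inv⟩, hr, hn, hk⟩

omit [FiniteDimensional ℂ V] in
theorem pos_off {H : H11 Γ} (hn : IsNefForm H.1) {K : Submodule ℂ V}
    (hk : ∀ v, v ∈ K ↔ ∀ w, H.1 v w = 0) {v : V} (hv : v ∉ K) : 0 < (H.1 v v).re := by
  refine lt_of_le_of_ne (hn v) fun h => hv ?_
  rw [hk]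
  exact h_isotropic H.2.1 hn v h.symm

theorem rank_one (hΓ : IsPrimitiveSymplectic Γ) [Nontrivial V]
    (h : Module.finrank ℝ (H11 Γ) = 1) : fibrations Γ = ∅ := by
  rw [Set.eq_empty_iff_forall_notMem]
  intro K hK
  obtain ⟨H, -, hn, hk⟩ := class_of hΓ hK
  obtain ⟨K0, hK0⟩ := exists_kahler hΓ.torus
  have hne : K0 ≠ 0 := by
    rintro rfl
    obtain ⟨v, hv⟩ := exists_ne (0 : V)
    have := hK0 v hv
    exact lt_irrefl _ this
  obtain ⟨c, hc⟩ := (finrank_eq_one_iff_of_nonzero' K0 hne).1 h H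
  obtain ⟨x, hx, hx0⟩ := (Submodule.ne_bot_iff K).1 hK.1
  have h1 : (c : ℂ) * K0.1 x x = 0 := by
    have h2 := (hk x).1 hx x
    rw [← hc] at h2
    change c • K0.1 x x = 0 at h2
    rwa [Complex.real_smul] at h2
  have h3 : K0.1 x x ≠ 0 := by
    intro e
    have := hK0 x hx0
    rw [e, Complex.zero_re] at this
    exact lt_irrefl _ this
  have h4 : c = 0 := by exact_mod_cast (mul_eq_zero.1 h1).resolve_right h3
  apply hK.2.1
  rw [eq_top_iff]
  intro v _
  rw [hk]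
  intro w
  rw [← hc, h4, zero_smul]
  rfl

omit [FiniteDimensional ℂ V] in
theorem notMem_of_inter {K K' : Submodule ℂ V} (h : K ⊓ K' = ⊥) {v : V} (hv : v ∈ K)
    (hv0 : v ≠ 0) : v ∉ K' := fun hv' => hv0 (by
  have : v ∈ K ⊓ K' := ⟨hv, hv'⟩
  rwa [h, Submodule.mem_bot] at this)

theorem rank_two (hΓ : IsPrimitiveSymplectic Γ) (h : Module.finrank ℝ (H11 Γ) = 2)
    {K₁ K₂ K₃ : Submodule ℂ V} (h₁ : K₁ ∈ fibrations Γ) (h₂ : K₂ ∈ fibrations Γ)
    (h₃ : K₃ ∈ fibrations Γ) (h12 : K₁ ≠ K₂) (h13 : K₁ ≠ K₃) (h23 : K₂ ≠ K₃) : False := by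
  obtain ⟨A, -, An, Ak⟩ := class_of hΓ h₁
  obtain ⟨B, -, Bn, Bk⟩ := class_of hΓ h₂
  obtain ⟨C, -, Cn, Ck⟩ := class_of hΓ h₃
  obtain ⟨x, hx, hx0⟩ := (Submodule.ne_bot_iff K₁).1 h₁.1
  obtain ⟨y, hy, hy0⟩ := (Submodule.ne_bot_iff K₂).1 h₂.1
  obtain ⟨z, hz, hz0⟩ := (Submodule.ne_bot_iff K₃).1 h₃.1
  have i12 := inter_bot hΓ h₁ h₂ h12
  have i13 := inter_bot hΓ h₁ h₃ h13
  have i23 := inter_bot hΓ h₂ h₃ h23
  have Ax : (A.1 x x).re = 0 := by rw [(Ak x).1 hx, Complex.zero_re]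
  have By : (B.1 y y).re = 0 := by rw [(Bk y).1 hy, Complex.zero_re]
  have Cz : (C.1 z z).re = 0 := by rw [(Ck z).1 hz, Complex.zero_re]
  have Bx := pos_off Bn Bk (notMem_of_inter i12 hx hx0)
  have Ay := pos_off An Ak (notMem_of_inter (inf_comm K₁ K₂ ▸ i12) hy hy0)
  have Az := pos_off An Ak (notMem_of_inter (inf_comm K₁ K₃ ▸ i13) hz hz0)
  have Bz := pos_off Bn Bk (notMem_of_inter (inf_comm K₂ K₃ ▸ i23) hz hz0)
  have hre : ∀ (a b : ℝ) (v : V), (((a • A + b • B : H11 Γ)).1 v v).re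
      = a * (A.1 v v).re + b * (B.1 v v).re := by
    intro a b v
    change ((a • A.1 v v) + (b • B.1 v v)).re = _
    rw [Complex.add_re, Complex.real_smul, Complex.real_smul, Complex.re_ofReal_mul,
      Complex.re_ofReal_mul]
  have hli : LinearIndependent ℝ ![A, B] := by
    rw [LinearIndependent.pair_iff]
    intro a b hab
    have e1 := hre a b x
    have e2 := hre a b y
    rw [hab] at e1 e2
    change (0 : ℝ) = _ at e1
    change (0 : ℝ) = _ at e2
    rw [Ax] at e1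
    rw [By] at e2
    constructor
    · have : a * (A.1 y y).re = 0 := by linarith
      exact (mul_eq_zero.1 this).resolve_right Ay.ne'
    · have : b * (B.1 x x).re = 0 := by linarith
      exact (mul_eq_zero.1 this).resolve_right Bx.ne'
  have : FiniteDimensional ℝ (H11 Γ) := Module.finite_of_finrank_pos (by omega)
  have hsp := hli.span_eq_top_of_card_eq_finrank' (by rw [Fintype.card_fin, h])
  have hC : C ∈ Submodule.span ℝ (Set.range ![A, B]) := by
    rw [hsp]
    exact Submodule.mem_top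
  rw [Matrix.range_cons, Matrix.range_cons, Matrix.range_empty, Set.union_empty,
    Set.singleton_union, Submodule.mem_span_pair] at hC
  obtain ⟨a, b, hab⟩ := hC
  have e1 := hre a b x
  have e2 := hre a b y
  have e3 := hre a b z
  rw [hab] at e1 e2 e3
  rw [Ax] at e1
  rw [By] at e2
  rw [Cz] at e3
  have hb : 0 ≤ b := by
    have := Cn x
    rw [e1] at this
    by_contra hneg
    push Not at hneg
    nlinarith
  have ha : 0 ≤ a := by
    have := Cn y
    rw [e2] at this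
    by_contra hneg
    push Not at hneg
    nlinarith
  have ha0 : a = 0 := by
    by_contra hne
    have : 0 < a := lt_of_le_of_ne ha (Ne.symm hne)
    nlinarith [mul_pos this Az, mul_nonneg hb Bz.le]
  have hb0 : b = 0 := by
    by_contra hne
    have : 0 < b := lt_of_le_of_ne hb (Ne.symm hne)
    nlinarith [mul_pos this Bz, mul_nonneg ha Az.le]
  apply h₃.2.1
  rw [eq_top_iff]
  intro v _
  rw [Ck]
  intro w
  rw [← hab, ha0, hb0, zero_smul, zero_smul, add_zero]
  rfl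

omit [FiniteDimensional ℂ V] in
theorem rat_add {A B : V → V → ℂ} (hA : IsRatClass Γ A) (hB : IsRatClass Γ B) :
    IsRatClass Γ (fun v w => A v w + B v w) := by
  obtain ⟨p, hp, h1⟩ := hA.rat
  obtain ⟨q, hq, h2⟩ := hB.rat
  refine ⟨⟨fun u v w => ?_, fun a v w => ?_, fun v w => ?_⟩, fun γ hγ v w => ?_,
    ⟨p * q, by positivity, fun b hb c hc => ?_⟩⟩
  · rw [hA.herm.add_left, hB.herm.add_left]
    ring
  · rw [hA.herm.smul_left, hB.herm.smul_left]
    ring
  · rw [map_add, ← hA.herm.symm, ← hB.herm.symm]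
  · rw [hA.inv γ hγ, hB.inv γ hγ]
  · obtain ⟨x, hx⟩ := h1 b hb c hc
    obtain ⟨y, hy⟩ := h2 b hb c hc
    refine ⟨q * x + p * y, ?_⟩
    rw [Complex.add_im]
    push_cast
    rw [← hx, ← hy]
    ring

/-- Data of two different fibrations. -/
theorem two_data (hΓ : IsPrimitiveSymplectic Γ) {K₁ K₂ : Submodule ℂ V}
    (h₁ : K₁ ∈ fibrations Γ) (h₂ : K₂ ∈ fibrations Γ) (h12 : K₁ ≠ K₂) :
    ∃ A : V → V → ℂ, IsRatClass Γ A ∧ IsPositiveForm A ∧
      ∃ (R : V →ₗ[ℂ] V) (N : ℕ), 0 < N ∧ (∀ v, R v ∈ K₂) ∧ (∀ v, v - R v ∈ K₁) ∧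
        (∀ v ∈ K₂, R v = v) ∧ (∀ γ ∈ Γ, ∀ v, R (γ.linear v) = γ.linear (R v)) ∧
        ∀ x ∈ latt Γ, (N : ℝ) • R x ∈ latt Γ := by
  obtain ⟨A, Ar, An, Ak⟩ := class_of hΓ h₁
  obtain ⟨B, Br, Bn, Bk⟩ := class_of hΓ h₂
  have i12 := inter_bot hΓ h₁ h₂ h12
  have hr := rat_add Ar Br
  have hp : IsPositiveForm (fun v w => A.1 v w + B.1 v w) := by
    intro v hv
    change 0 < (A.1 v v + B.1 v v).re
    rw [Complex.add_re]
    by_cases h : v ∈ K₁
    · have := pos_off Bn Bk (notMem_of_inter i12 h hv)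
      linarith [An v]
    · have := pos_off An Ak h
      linarith [Bn v]
  obtain ⟨R, N, hN, hR, hRe, hRl⟩ := exists_oper hΓ.torus hr hp Ar
  have hext : ∀ v w : V, (∀ u, A.1 v u + B.1 v u = A.1 w u + B.1 w u) → v = w := by
    intro v w h
    rw [← sub_eq_zero]
    by_contra hne
    have h1 := hp _ hne
    change 0 < (A.1 (v - w) (v - w) + B.1 (v - w) (v - w)).re at h1
    have e : A.1 (v - w) (v - w) + B.1 (v - w) (v - w) = 0 := by
      rw [h_sub_left Ar.herm, h_sub_left Br.herm]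
      linear_combination h (v - w)
    rw [e, Complex.zero_re] at h1
    exact lt_irrefl _ h1
  have hR1 : ∀ v ∈ K₁, R v = 0 := by
    intro v hv
    apply hext
    intro u
    rw [hR, (Ak v).1 hv, h_zero_left Ar.herm, h_zero_left Br.herm, add_zero]
  have hR2 : ∀ v ∈ K₂, R v = v := by
    intro v hv
    apply hext
    intro u
    rw [hR, (Bk v).1 hv, add_zero]
  obtain ⟨a0, a1, a2, -⟩ := (mem_fib hΓ _).1 h₁
  obtain ⟨b0, b1, b2, -⟩ := (mem_fib hΓ _).1 h₂
  have dK := (lagr hΓ _ a2 a0 a1).2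
  have dK' := (lagr hΓ _ b2 b0 b1).2
  have hsup : K₁ ⊔ K₂ = ⊤ := by
    apply Submodule.eq_top_of_finrank_eq
    have h1 := Submodule.finrank_sup_add_finrank_inf_eq K₁ K₂
    rw [i12, finrank_bot] at h1
    omega
  have hdec : ∀ v, ∃ a ∈ K₁, ∃ b ∈ K₂, a + b = v := by
    intro v
    have : v ∈ K₁ ⊔ K₂ := by
      rw [hsup]
      exact Submodule.mem_top
    exact Submodule.mem_sup.1 this
  refine ⟨_, hr, hp, R, N, hN, ?_, ?_, hR2, hRe, hRl⟩
  · intro v
    obtain ⟨a, ha, b, hb, rfl⟩ := hdec v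
    rw [map_add, hR1 a ha, hR2 b hb, zero_add]
    exact hb
  · intro v
    obtain ⟨a, ha, b, hb, rfl⟩ := hdec v
    rw [map_add, hR1 a ha, hR2 b hb, zero_add, add_sub_cancel_right]
    exact ha

/-- Two different fibrations: `X` is projective. -/
theorem proj_of_two (hΓ : IsPrimitiveSymplectic Γ) {K₁ K₂ : Submodule ℂ V}
    (h₁ : K₁ ∈ fibrations Γ) (h₂ : K₂ ∈ fibrations Γ) (h12 : K₁ ≠ K₂) : IsProj Γ := by
  obtain ⟨A, hr, hp, -⟩ := two_data hΓ h₁ h₂ h12
  obtain ⟨-, -, m, hm, L, hL, -⟩ := ample_of_pos hΓ.torus hr hp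
  refine ⟨L, _, hL, fun v hv => ?_⟩
  have e : ((m : ℕ) : ℂ) = ((m : ℝ) : ℂ) := by push_cast; rfl
  change 0 < ((m : ℂ) * A v v).re
  rw [e, Complex.re_ofReal_mul]
  have : (0 : ℝ) < m := by exact_mod_cast hm
  exact mul_pos this (hp v hv)

/-- Three different fibrations: there are infinitely many. -/
theorem infinite_of_three (hΓ : IsPrimitiveSymplectic Γ) {K₁ K₂ K₃ : Submodule ℂ V}
    (h₁ : K₁ ∈ fibrations Γ) (h₂ : K₂ ∈ fibrations Γ) (h₃ : K₃ ∈ fibrations Γ) (h12 : K₁ ≠ K₂)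
    (h13 : K₁ ≠ K₃) (h23 : K₂ ≠ K₃) : (fibrations Γ).Infinite := by
  obtain ⟨-, -, -, R, N, hN, hR2, hR1, hRid, hRe, hRl⟩ := two_data hΓ h₁ h₂ h12
  have i12 := inter_bot hΓ h₁ h₂ h12
  have i13 := inter_bot hΓ h₁ h₃ h13
  have i23 := inter_bot hΓ h₂ h₃ h23
  obtain ⟨c0, c1, c2, c3⟩ := (mem_fib hΓ _).1 h₃
  let T : ℕ → (V →ₗ[ℂ] V) := fun m => LinearMap.id + (m : ℂ) • R
  have hT : ∀ m v, T m v = v + (m : ℂ) • R v := fun _ _ => rfl
  have hRT : ∀ m v, R (T m v) = ((1 + m : ℕ) : ℂ) • R v := by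
    intro m v
    rw [hT, map_add, map_smul, hRid _ (hR2 v)]
    push_cast
    rw [add_smul, one_smul]
  have hTR : ∀ m v, T m v - R (T m v) = v - R v := by
    intro m v
    rw [hRT, hT]
    push_cast
    rw [add_smul, one_smul]
    abel
  have hc : ∀ m : ℕ, ((1 + m : ℕ) : ℂ) ≠ 0 := by
    intro m
    have : 1 + m ≠ 0 := by omega
    exact_mod_cast this
  have hinj : ∀ m, Function.Injective (T m) := by
    intro m
    rw [← LinearMap.ker_eq_bot, LinearMap.ker_eq_bot']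
    intro v hv
    have e1 := hTR m v
    have e2 := hRT m v
    rw [hv, map_zero] at e1 e2
    have e3 : R v = 0 := (smul_eq_zero.1 e2.symm).resolve_left (hc m)
    rw [e3, sub_zero, sub_zero] at e1
    exact e1.symm
  refine Set.infinite_of_injective_forall_mem (f := fun m : ℕ => K₃.map (T m)) ?_ ?_
  · intro m l hml
    obtain ⟨v, hv, hv0⟩ := (Submodule.ne_bot_iff K₃).1 c0
    have h1 : T m v ∈ K₃.map (T l) := by
      have : T m v ∈ K₃.map (T m) := Submodule.mem_map_of_mem hv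
      rw [show K₃.map (T m) = K₃.map (T l) from hml] at this
      exact this
    obtain ⟨u, hu, huv⟩ := h1
    have e1 := hTR l u
    rw [huv, hTR] at e1
    have e2 := hRT l u
    rw [huv, hRT] at e2
    have e3 : v - u = R (v - u) := by
      rw [map_sub]
      have := e1
      rw [sub_eq_sub_iff_add_eq_add] at this ⊢
      rw [this]
      abel
    have e4 : v - u ∈ K₂ := by
      rw [e3]
      exact hR2 _
    have e5 : v - u ∈ K₂ ⊓ K₃ := ⟨e4, K₃.sub_mem hv hu⟩
    rw [i23, Submodule.mem_bot, sub_eq_zero] at e5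
    rw [← e5] at e2
    have e6 : R v ≠ 0 := by
      intro h0
      have := hR1 v
      rw [h0, sub_zero] at this
      have h7 : v ∈ K₁ ⊓ K₃ := ⟨this, hv⟩
      rw [i13, Submodule.mem_bot] at h7
      exact hv0 h7
    have e7 : ((1 + m : ℕ) : ℂ) = ((1 + l : ℕ) : ℂ) := smul_left_injective ℂ e6 e2
    have e8 : 1 + m = 1 + l := by exact_mod_cast e7
    omega
  · intro m
    rw [mem_fib hΓ]
    refine ⟨?_, ?_, ?_, ?_⟩
    · intro h0
      obtain ⟨v, hv, hv0⟩ := (Submodule.ne_bot_iff K₃).1 c0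
      have h1 : T m v ∈ K₃.map (T m) := Submodule.mem_map_of_mem hv
      rw [show K₃.map (T m) = ⊥ from h0, Submodule.mem_bot] at h1
      exact hv0 (hinj m (by rw [h1, map_zero]))
    · intro h0
      have h1 : Module.finrank ℂ (K₃.map (T m)) ≤ Module.finrank ℂ K₃ :=
        Submodule.finrank_map_le _ _
      rw [show K₃.map (T m) = ⊤ from h0, finrank_top] at h1
      have h2 := Submodule.finrank_lt c1
      omega
    · rintro γ hγ _ ⟨v, hv, rfl⟩
      refine ⟨γ.linear v, c2 γ hγ v hv, ?_⟩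
      rw [hT, hT, hRe γ hγ, map_add, map_smul]
    · apply le_antisymm
      · rw [Submodule.span_le]
        intro b hb
        exact hb.2
      · rintro _ ⟨v, hv, rfl⟩
        have hv' : v ∈ Submodule.span ℝ {b | b ∈ latt Γ ∧ b ∈ K₃} := by
          rw [c3]
          exact hv
        clear hv
        have hNr : (N : ℝ) ≠ 0 := by exact_mod_cast hN.ne'
        induction hv' using Submodule.span_induction with
        | mem b hb =>
          have e1 : (N : ℝ) • T m b ∈ latt Γ := by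
            have e2 : (N : ℝ) • T m b = N • b + m • ((N : ℝ) • R b) := by
              rw [hT, smul_add, Nat.cast_smul_eq_nsmul ℝ N b, Nat.cast_smul_eq_nsmul ℂ m,
                smul_comm]
            rw [e2]
            exact (latt Γ).add_mem ((latt Γ).nsmul_mem hb.1 _)
              ((latt Γ).nsmul_mem (hRl b hb.1) _)
          have e3 : (N : ℝ) • T m b ∈ K₃.map (T m) := by
            refine ⟨(N : ℂ) • b, K₃.smul_mem _ hb.2, ?_⟩
            rw [map_smul, ← Complex.coe_smul]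
            norm_num
          have e4 : T m b = (N : ℝ)⁻¹ • ((N : ℝ) • T m b) := by
            rw [smul_smul, inv_mul_cancel₀ hNr, one_smul]
          rw [e4]
          exact Submodule.smul_mem _ _ (Submodule.subset_span ⟨e1, e3⟩)
        | zero =>
          rw [map_zero]
          exact Submodule.zero_mem _
        | add x y _ _ hx hy =>
          rw [map_add]
          exact Submodule.add_mem _ hx hy
        | smul a x _ hx =>
          have : T m (a • x) = a • T m x := by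
            rw [← Complex.coe_smul, ← Complex.coe_smul, map_smul]
          rw [this]
          exact Submodule.smul_mem _ _ hx

end Pool.Agent.R189.SY
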