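import Pool.Agent.W594.SYZ.TQDefs

/-!
# Uniform exponents for nef line bundles on torus quotients: definitions
-/

set_option autoImplicit false

namespace Pool.Agent.R189.SY

open Pool.Agent.W594.SYZ2

variable {V W : Type*} [NormedAddCommGroup V] [NormedSpace ℂ V]
  [NormedAddCommGroup W] [NormedSpace ℂ W] {Γ : Subgroup (V ≃ᵃ[ℂ] V)}

/-- `L` is generated by global sections: for every point of `X = V / Γ` there is a global holomorphic
section of `L` which does not vanish there. -/
def GlobGen (L : LineBundle Γ) : Prop := ∀ v, ∃ s, L.IsSection s ∧ s v ≠ 0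

/-- The power `L ^ m` is isomorphic to the pullback `f^* A` of a line bundle `A` on the base of the
fibration `f : V / Γ → W / Δ` given by `π`, where `A` is ample (its Chern form `HA` is positive
definite) and generated by global sections. The pullback is given by the factor of automorphy
`γ ↦ A.e δ (π v)`, `δ` the transformation of `W` induced by `γ`, and the isomorphism is the
multiplication with the nowhere vanishing function `h`. -/
def InducesAt (m : ℕ) (L : LineBundle Γ) (Δ : Subgroup (W ≃ᵃ[ℂ] W)) (π : V →ₗ[ℂ] W) : Prop :=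
  ∃ (A : LineBundle Δ) (HA : W → W → ℂ), IsChernForm A HA ∧ IsPositiveForm HA ∧ GlobGen A ∧
    ∃ h : V → ℂ, Differentiable ℂ h ∧ (∀ v, h v ≠ 0) ∧
      ∀ (γ : Γ) (δ : Δ), (∀ v, (δ : W ≃ᵃ[ℂ] W) (π v) = π ((γ : V ≃ᵃ[ℂ] V) v)) →
        ∀ v, h ((γ : V ≃ᵃ[ℂ] V) v) * (L.pow m).e γ v = A.e δ (π v) * h v

/-- The order of the group `GL (2 d, 𝔽₃)`. -/
noncomputable def glc (d : ℕ) : ℕ := Nat.card (Matrix (Fin (2 * d)) (Fin (2 * d)) (ZMod 3))ˣ

/-- The exponent: a positive number which only depends on `d`. -/
noncomputable def expo (d : ℕ) : ℕ := 4 * (∏ j ∈ Finset.range (d + 1), glc j) ^ 7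

end Pool.Agent.R189.SY
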