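import Pool.Agent.R189.SY.BBF

/-!
# The Fujiki relation and uniqueness of the Beauville–Bogomolov–Fujiki form
-/

set_option autoImplicit false

namespace Pool.Agent.R189.SY

open Pool.Agent.W594.SYZ2 Pool.Agent.W594.SYZ2.TQ Pool.Agent.TH735.AQ
open Polynomial
open scoped ComplexOrder

variable {V : Type*} [NormedAddCommGroup V] [NormedSpace ℂ V] [FiniteDimensional ℂ V]
  {Γ : Subgroup (V ≃ᵃ[ℂ] V)} {s : V →ₗ[ℂ] V →ₗ[ℂ] ℂ}

/-- The Gram matrix. -/
noncomputable def gram {m : ℕ} (b : Module.Basis (Fin m) ℂ V) (H : V → V → ℂ) : Matrix (Fin m) (Fin m) ℂ :=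
  Matrix.of fun i j => H (b i) (b j)

omit [FiniteDimensional ℂ V] in
/-- The Gram determinant of a positive definite form is positive. -/
theorem gram_pos {m : ℕ} (b : Module.Basis (Fin m) ℂ V) {H : V → V → ℂ} (hH : IsHermitian H)
    (hp : IsPositiveForm H) : 0 < (gram b H).det := by
  have h : (gram b H).PosDef := by
    refine Matrix.PosDef.of_dotProduct_mulVec_pos ?_ ?_
    · ext i j
      rw [Matrix.conjTranspose_apply]
      change star (H (b j) (b i)) = H (b i) (b j)
      exact (hH.symm (b j) (b i)).symm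
    · intro x hx
      set y : V := ∑ i, star (x i) • b i with hy
      have hyne : y ≠ 0 := by
        intro h0
        apply hx
        have h1 := Fintype.linearIndependent_iff.1 b.linearIndependent (fun i => star (x i)) h0
        funext i
        have h2 := h1 i
        rwa [star_eq_zero] at h2
      have hsum : star x ⬝ᵥ (gram b H).mulVec x = H y y := by
        have e1 : ∀ w, H y w = ∑ i, star (x i) * H (b i) w := by
          intro w
          have : H y w = hl hH w y := rfl
          rw [this, hy, map_sum]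
          refine Finset.sum_congr rfl fun i _ => ?_
          rw [map_smul, smul_eq_mul]
          rfl
        have e2 : ∀ w, H w y = ∑ i, x i * H w (b i) := by
          intro w
          rw [hH.symm y w, e1, map_sum]
          refine Finset.sum_congr rfl fun i _ => ?_
          rw [map_mul, hH.symm (b i) w]
          simp
        rw [e1]
        simp only [dotProduct, Matrix.mulVec, Pi.star_apply]
        refine Finset.sum_congr rfl fun i _ => ?_
        rw [e2]
        congr 1
        refine Finset.sum_congr rfl fun j _ => ?_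
        rw [mul_comm]
        rfl
      rw [hsum]
      have h3 : H y y = (((H y y).re : ℝ) : ℂ) := by
        apply Complex.ext
        · simp
        · have := h_im_symm hH y y
          rw [Complex.ofReal_im]
          linarith
      rw [h3]
      exact_mod_cast hp y hyne
  exact h.det_pos

section Main

variable (S : Symp Γ s) {x₀ y₀ : V} (h1 : s x₀ y₀ = 1)

include h1 in
/-- The matrix of the operator. -/
theorem Symp.exists_mat {m : ℕ} (b : Module.Basis (Fin m) ℂ V) (H : H11 Γ) :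
    ∃ Jm : Matrix (Fin m) (Fin m) ℂ, gram b H.1 = gram b (fun x y => s x y) * Jm ∧
      Jm.det * starRingEnd ℂ Jm.det = (((-(S.q x₀ y₀ H)) ^ m : ℝ) : ℂ) := by
  set Jm : Matrix (Fin m) (Fin m) ℂ := Matrix.of fun k j => b.repr (S.J H (b j)) k
    with hJm
  have e1 : gram b H.1 = gram b (fun x y => s x y) * Jm := by
    ext i j
    rw [Matrix.mul_apply]
    change H.1 (b i) (b j) = ∑ k, s (b i) (b k) * b.repr (S.J H (b j)) k
    rw [← S.J_spec]
    conv_lhs => rw [← b.sum_repr (S.J H (b j)), map_sum]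
    refine Finset.sum_congr rfl fun k _ => ?_
    rw [map_smul, smul_eq_mul, mul_comm]
  have hJsum : ∀ (t : Finset (Fin m)) (c : Fin m → ℂ),
      S.J H (∑ k ∈ t, c k • b k) = ∑ k ∈ t, starRingEnd ℂ (c k) • S.J H (b k) := by
    intro t c
    induction t using Finset.induction_on with
    | empty => simp [S.J_zero]
    | insert k t hk ih => rw [Finset.sum_insert hk, Finset.sum_insert hk, S.J_add, S.J_smul, ih]
  have e2 : Jm * Jm.map (starRingEnd ℂ) = ((-(S.q x₀ y₀ H) : ℝ) : ℂ) • (1 : Matrix _ _ ℂ) := by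
    ext l j
    rw [Matrix.mul_apply]
    have h2 := S.J_q h1 H (b j)
    conv_lhs at h2 => rw [← b.sum_repr (S.J H (b j)), hJsum]
    have h3 := congrArg (fun v => b.repr v l) h2
    simp only [map_sum, map_smul, Finsupp.coe_finsetSum, Finset.sum_apply, Finsupp.smul_apply,
      smul_eq_mul, b.repr_self] at h3
    rw [Matrix.smul_apply, smul_eq_mul, Matrix.one_apply]
    have h4 : (Finsupp.single j (1 : ℂ)) l = if l = j then 1 else 0 := by
      rw [Finsupp.single_apply]
      simp [eq_comm]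
    rw [h4] at h3
    rw [← h3]
    refine Finset.sum_congr rfl fun k _ => ?_
    rw [mul_comm]
    rfl
  refine ⟨Jm, e1, ?_⟩
  have h5 := congrArg Matrix.det e2
  rw [Matrix.det_mul, Matrix.det_smul, Matrix.det_one, mul_one, Fintype.card_fin,
    ← RingHom.mapMatrix_apply, ← RingHom.map_det] at h5
  rw [h5]
  push_cast
  rfl

include h1 in
/-- The absolute value of the Gram determinant. -/
theorem Symp.norm_det {n : ℕ} (b : Module.Basis (Fin (2 * n)) ℂ V) (H : H11 Γ) :
    ‖(gram b H.1).det‖ = ‖(gram b (fun x y => s x y)).det‖ * |S.q x₀ y₀ H| ^ n := by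
  obtain ⟨Jm, e1, h5⟩ := S.exists_mat h1 b H
  have e3 : ‖Jm.det‖ ^ 2 = (|S.q x₀ y₀ H| ^ n) ^ 2 := by
    have h6 := congrArg norm h5
    rw [norm_mul, RCLike.norm_conj, Complex.norm_real, Real.norm_eq_abs, abs_pow, abs_neg] at h6
    rw [sq, h6]
    ring
  have e4 : ‖Jm.det‖ = |S.q x₀ y₀ H| ^ n :=
    (sq_eq_sq₀ (norm_nonneg _) (by positivity)).1 e3
  rw [e1, Matrix.det_mul, norm_mul, e4]

/-- The Fujiki relation. -/
theorem Symp.fujiki [Nontrivial V] (h1 : s x₀ y₀ = 1) (hΓ : IsTorusQuotient Γ) {n : ℕ}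
    (b : Module.Basis (Fin (2 * n)) ℂ V) : ∃ κ : ℝ, 0 < κ ∧ ∀ H : H11 Γ,
      (gram b H.1).det = ((κ * S.q x₀ y₀ H ^ n : ℝ) : ℂ) := by
  set κ := ‖(gram b (fun x y => s x y)).det‖ with hκ
  have hpos : ∀ H : H11 Γ, IsPositiveForm H.1 →
      (gram b H.1).det = ((κ * S.q x₀ y₀ H ^ n : ℝ) : ℂ) := by
    intro H hp
    have h2 := gram_pos b H.2.1 hp
    have h3 : (gram b H.1).det = ((‖(gram b H.1).det‖ : ℝ) : ℂ) := Complex.eq_coe_norm_of_nonneg h2.le
    rw [h3, S.norm_det h1, abs_of_pos (S.q_pos h1 H hp)]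
  obtain ⟨K, hK⟩ := exists_kahler hΓ
  have hκpos : 0 < κ := by
    have h2 := gram_pos b K.2.1 hK
    rw [hpos K hK] at h2
    have h3 : 0 < κ * S.q x₀ y₀ K ^ n := by exact_mod_cast h2
    have h4 := S.q_pos h1 K hK
    exact pos_of_mul_pos_left h3 (by positivity)
  refine ⟨κ, hκpos, fun H => ?_⟩
  -- both sides are polynomials along the line `H + t K`
  set β := QuadraticMap.polar (S.q x₀ y₀) H K with hβ
  have hq : ∀ t : ℝ, S.q x₀ y₀ (H + t • K)
      = S.q x₀ y₀ H + t * β + t ^ 2 * S.q x₀ y₀ K := by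
    intro t
    have e2 : S.q x₀ y₀ (H + t • K) = QuadraticMap.polar (S.q x₀ y₀) H (t • K)
        + S.q x₀ y₀ H + S.q x₀ y₀ (t • K) := by
      rw [QuadraticMap.polar]
      ring
    rw [e2, QuadraticMap.polar_smul_right, QuadraticMap.map_smul]
    simp only [smul_eq_mul]
    ring
  let P : ℂ[X] := Matrix.det ((gram b H.1).map C + (X : ℂ[X]) • (gram b K.1).map C)
  let Q : ℂ[X] := C (κ : ℂ) * (C ((S.q x₀ y₀ H : ℝ) : ℂ) + X * C (β : ℂ)
    + X ^ 2 * C ((S.q x₀ y₀ K : ℝ) : ℂ)) ^ n
  have hP : ∀ t : ℝ, P.eval (t : ℂ) = (gram b (H + t • K : H11 Γ).1).det := by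
    intro t
    change Polynomial.evalRingHom (t : ℂ) (Matrix.det _) = _
    rw [RingHom.map_det]
    congr 1
    ext i j
    simp only [RingHom.mapMatrix_apply, Matrix.map_apply, Matrix.add_apply, Matrix.smul_apply,
      smul_eq_mul, map_add, coe_evalRingHom, eval_mul, eval_C, eval_X]
    change _ = H.1 (b i) (b j) + t • K.1 (b i) (b j)
    rw [Complex.real_smul]
    rfl
  have hQ : ∀ t : ℝ, Q.eval (t : ℂ) = ((κ * S.q x₀ y₀ (H + t • K) ^ n : ℝ) : ℂ) := by
    intro t
    simp only [Q, eval_mul, eval_C, eval_pow, eval_add, eval_X]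
    rw [hq]
    push_cast
    rfl
  have hPQ : P = Q := by
    apply Polynomial.eq_of_infinite_eval_eq
    obtain ⟨t₀, ht₀, -⟩ := exists_max K (-H) hK
    refine Set.Infinite.mono ?_ ((Set.Ioi_infinite t₀).image Complex.ofReal_injective.injOn)
    rintro _ ⟨t, ht, rfl⟩
    change P.eval (t : ℂ) = Q.eval (t : ℂ)
    rw [hP, hQ]
    apply hpos
    intro v hv
    change 0 < (H.1 v v + t • K.1 v v).re
    rw [Complex.add_re, Complex.real_smul, Complex.re_ofReal_mul]
    have h5 := ht₀ v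
    change (-(H.1 v v)).re ≤ _ at h5
    rw [Complex.neg_re] at h5
    have h6 : t₀ * (K.1 v v).re < t * (K.1 v v).re := mul_lt_mul_of_pos_right ht (hK v hv)
    linarith
  have h7 := hP 0
  have h8 := hQ 0
  rw [hPQ, h8, zero_smul, add_zero] at h7
  exact h7.symm

end Main

/-- The dimension is even. -/
theorem even_dim [Nontrivial V] (hΓ : IsPrimitiveSymplectic Γ) :
    ∃ n : ℕ, Module.finrank ℂ V = 2 * n := by
  obtain ⟨s, S⟩ := exists_symp hΓ
  obtain ⟨x, hx⟩ := exists_ne (0 : V)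
  have hy : ∃ y, s x y ≠ 0 := by
    by_contra hall
    push Not at hall
    exact hx (S.nd x hall)
  obtain ⟨y, hy⟩ := hy
  have h1 : s x ((s x y)⁻¹ • y) = 1 := by rw [map_smul, smul_eq_mul, inv_mul_cancel₀ hy]
  obtain ⟨K, hK⟩ := exists_kahler hΓ.torus
  obtain ⟨Jm, -, h5⟩ := S.exists_mat h1 (Module.finBasis ℂ V) K
  have hq := S.q_pos h1 K hK
  by_contra hne
  have hodd : Odd (Module.finrank ℂ V) := by
    rw [← Nat.not_even_iff_odd]
    rintro ⟨n, hn⟩
    exact hne ⟨n, by omega⟩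
  rw [Complex.mul_conj, hodd.neg_pow] at h5
  have h6 : Complex.normSq Jm.det = -(S.q x ((s x y)⁻¹ • y) K) ^ Module.finrank ℂ V := by
    exact_mod_cast h5
  have h7 : 0 < (S.q x ((s x y)⁻¹ • y) K) ^ Module.finrank ℂ V := by positivity
  have h8 := Complex.normSq_nonneg Jm.det
  linarith

/-- Uniqueness up to a positive factor. -/
theorem bbf_unique [Nontrivial V] (hΓ : IsPrimitiveSymplectic Γ) {q q' : QuadraticForm ℝ (H11 Γ)}
    (hq : IsBBF Γ q) (hq' : IsBBF Γ q') {n : ℕ} (hn : Module.finrank ℂ V = 2 * n) :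
    ∃ c : ℝ, 0 < c ∧ ∀ H, q' H = c * q H := by
  have hn0 : n ≠ 0 := by
    rintro rfl
    have := Module.finrank_pos (R := ℂ) (M := V)
    omega
  let b : Module.Basis (Fin (2 * n)) ℂ V := Module.finBasisOfFinrankEq ℂ V hn
  obtain ⟨κ, hκ, h1⟩ := hq.fujiki n b
  obtain ⟨κ', hκ', h1'⟩ := hq'.fujiki n b
  obtain ⟨K, hK⟩ := exists_kahler hΓ.torus
  have hk := hq.pos K hK
  have hk' := hq'.pos K hK
  set c := q' K / q K with hc
  have hcpos : 0 < c := div_pos hk' hk
  have hpow : ∀ H : H11 Γ, IsPositiveForm H.1 → q' H = c * q H := by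
    intro H hp
    have e1 : κ * q H ^ n = κ' * q' H ^ n := by
      have := (h1 H).symm.trans (h1' H)
      exact_mod_cast this
    have e2 : κ * q K ^ n = κ' * q' K ^ n := by
      have := (h1 K).symm.trans (h1' K)
      exact_mod_cast this
    have e3 : (q' H) ^ n = (c * q H) ^ n := by
      rw [mul_pow, hc, div_pow]
      have h5 : q K ^ n ≠ 0 := pow_ne_zero n hk.ne'
      field_simp
      have h6 : κ' * (q' H ^ n * q K ^ n) = κ' * (q' K ^ n * q H ^ n) := by
        calc κ' * (q' H ^ n * q K ^ n) = (κ' * q' H ^ n) * q K ^ n := by ring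
          _ = (κ * q H ^ n) * q K ^ n := by rw [e1]
          _ = (κ * q K ^ n) * q H ^ n := by ring
          _ = _ := by rw [e2]; ring
      exact mul_left_cancel₀ hκ'.ne' h6
    exact (pow_left_inj₀ (hq'.pos H hp).le (mul_pos hcpos (hq.pos H hp)).le hn0).1 e3
  refine ⟨c, hcpos, fun H => ?_⟩
  obtain ⟨t, ht, -⟩ := exists_max K H hK
  obtain ⟨t', ht', -⟩ := exists_max K (-H) hK
  set C := max (max t t') 1 with hC
  have hCpos : 0 < C := lt_of_lt_of_le one_pos (le_max_right _ _)
  have h5 : ∀ v, v ≠ 0 → |(H.1 v v).re| < 2 * C * (K.1 v v).re := by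
    intro v hv
    have hKv := hK v hv
    have e1 := ht v
    have e2 := ht' v
    change (-(H.1 v v)).re ≤ _ at e2
    rw [Complex.neg_re] at e2
    have e3 : t * (K.1 v v).re ≤ C * (K.1 v v).re :=
      mul_le_mul_of_nonneg_right ((le_max_left _ _).trans (le_max_left _ _)) hKv.le
    have e4 : t' * (K.1 v v).re ≤ C * (K.1 v v).re :=
      mul_le_mul_of_nonneg_right ((le_max_right _ _).trans (le_max_left _ _)) hKv.le
    rw [abs_lt]
    constructor <;> nlinarith [mul_pos hCpos hKv]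
  have hp1 : IsPositiveForm ((2 * C) • K + H : H11 Γ).1 := by
    intro v hv
    change 0 < ((2 * C) • K.1 v v + H.1 v v).re
    rw [Complex.add_re, Complex.real_smul, Complex.re_ofReal_mul]
    linarith [(abs_lt.1 (h5 v hv)).1]
  have hp2 : IsPositiveForm ((2 * C) • K - H : H11 Γ).1 := by
    intro v hv
    change 0 < ((2 * C) • K.1 v v - H.1 v v).re
    rw [Complex.sub_re, Complex.real_smul, Complex.re_ofReal_mul]
    linarith [(abs_lt.1 (h5 v hv)).2]
  have hpar : ∀ r : QuadraticForm ℝ (H11 Γ),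
      r ((2 * C) • K + H) + r ((2 * C) • K - H) = 2 * ((2 * C) ^ 2 * r K) + 2 * r H := by
    intro r
    have e1 : r ((2 * C) • K + H) = QuadraticMap.polar r ((2 * C) • K) H
        + r ((2 * C) • K) + r H := by
      rw [QuadraticMap.polar]
      ring
    have e2 : r ((2 * C) • K - H) = QuadraticMap.polar r ((2 * C) • K) (-H)
        + r ((2 * C) • K) + r (-H) := by
      rw [QuadraticMap.polar, sub_eq_add_neg]
      ring
    rw [e1, e2, QuadraticMap.polar_neg_right, QuadraticMap.map_neg, QuadraticMap.map_smul,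
      smul_eq_mul]
    ring
  have e1 := hpar q
  have e2 := hpar q'
  rw [hpow _ hp1, hpow _ hp2, hpow K hK] at e2
  linear_combination (-1 / 2) * e2 + (c / 2) * e1

/-- Existence of the Beauville–Bogomolov–Fujiki form, with its properties. -/
theorem exists_bbf [Nontrivial V] (hΓ : IsPrimitiveSymplectic Γ) :
    ∃ q : QuadraticForm ℝ (H11 Γ), IsBBF Γ q ∧
      (∀ H : H11 Γ, IsDegenerateForm H.1 ↔ q H = 0) ∧
      (∀ H : H11 Γ, 0 ≤ q H → IsNefForm H.1 ∨ IsNefForm (-H).1) ∧
      (∀ K H : H11 Γ, IsPositiveForm K.1 → QuadraticMap.polar q K H = 0 → H ≠ 0 → q H < 0) := by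
  obtain ⟨s, S⟩ := exists_symp hΓ
  obtain ⟨x, hx⟩ := exists_ne (0 : V)
  have hy : ∃ y, s x y ≠ 0 := by
    by_contra hall
    push Not at hall
    exact hx (S.nd x hall)
  obtain ⟨y, hy⟩ := hy
  have h1 : s x ((s x y)⁻¹ • y) = 1 := by rw [map_smul, smul_eq_mul, inv_mul_cancel₀ hy]
  refine ⟨S.q x ((s x y)⁻¹ • y), ⟨fun H hp => S.q_pos h1 H hp, fun n b => S.fujiki h1 hΓ.torus b⟩,
    fun H => S.degenerate_iff h1 H, fun H h => S.pm_nef h1 hΓ.torus H h,
    fun K H hK hp h0 => S.hodge_index h1 K H hK hp h0⟩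

end Pool.Agent.R189.SY
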