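import Pool.Agent.R189.SY.Mink
import Pool.Agent.R189.SY.Defs

/-!
# Uniform exponents for nef line bundles on torus quotients
-/

set_option autoImplicit false

namespace Pool.Agent.R189.SY

open Pool.Agent.W594.SYZ2 Pool.Agent.W594.SYZ2.TQ Pool.Agent.TH735.AQ Pool.Agent.R893.TQ
open Pool.Agent.Y167 (EvenForm frac mem_frac)

variable {V W : Type*} [NormedAddCommGroup V] [NormedSpace ℂ V]
  [NormedAddCommGroup W] [NormedSpace ℂ W]
  {Γ : Subgroup (V ≃ᵃ[ℂ] V)} {Δ : Subgroup (W ≃ᵃ[ℂ] W)} {L M : LineBundle Γ} {H G : V → V → ℂ}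

theorem glc_pos (d : ℕ) : 0 < glc d := by
  classical
  unfold glc
  exact Nat.card_pos

theorem expo_pos (d : ℕ) : 1 ≤ expo d := by
  unfold expo
  have : 0 < ∏ j ∈ Finset.range (d + 1), glc j := Finset.prod_pos fun j _ => glc_pos j
  exact Nat.mul_pos (by norm_num) (pow_pos this _)

/-- The data which make exponents uniform. -/
theorem glc_dvd {d j : ℕ} (h : j ≤ d) : glc j ∣ ∏ j ∈ Finset.range (d + 1), glc j :=
  Finset.dvd_prod_of_mem _ (Finset.mem_range.2 (by omega))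

variable [FiniteDimensional ℂ V] [FiniteDimensional ℂ W]

theorem card_dvd (hΓ : IsTorusQuotient Γ) {d : ℕ} (h : Module.finrank ℂ V ≤ d) :
    Nat.card (Lin Γ) ∣ ∏ j ∈ Finset.range (d + 1), glc j :=
  (card_lin_dvd hΓ).trans (glc_dvd h)

/-- If `H^1(O) = 0` then a line bundle with zero Chern form is torsion, of order dividing the square
of the order of the holonomy group. -/
theorem torsion_expl (hΓ : IsTorusQuotient Γ) (h01 : HOneZero Γ)
    (hc : IsChernForm M (fun _ _ => 0)) : (M.pow (Nat.card (Lin Γ) ^ 2)).IsTrivial := by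
  obtain ⟨hH, F, hF, hFe⟩ := hc
  have hpot : IsPot M (fun _ _ => 0) F := ⟨hF, hFe⟩
  have := finite_Lin hΓ
  have S : Pool.Agent.TH735.AQ.Sit Γ M (fun _ _ => 0) F (0 : V →ₗ[ℂ] (Fin 0 → ℂ)) hH
      (Nat.card (Lin Γ)) := by
    refine ⟨hΓ, hpot, fun v => by simp, fun w => ⟨0, Subsingleton.elim _ _⟩, fun v => ?_,
      Nat.card_pos, fun b hb hbK => chi_pow hΓ h01 hH hpot hb hbK⟩
    constructor
    · intro _ w
      rfl
    · intro _
      rfl
  refine ⟨fun v => Complex.exp ((Nat.card (Lin Γ) ^ 2 : ℕ) * F v),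
    ⟨(hF.const_mul _).cexp, fun γ v => ?_⟩, fun v => Complex.exp_ne_zero _⟩
  have h1 := S.tw_pow γ v (by intro w; rfl)
  have h2 : Pool.Agent.TH735.AQ.ex Γ (Nat.card (Lin Γ)) = Nat.card (Lin Γ) ^ 2 := by
    rw [Pool.Agent.TH735.AQ.ex, sq]
  rw [h2, tw, mul_pow, ← Complex.exp_nat_mul] at h1
  change _ = M.e γ v ^ (Nat.card (Lin Γ) ^ 2) * _
  have h3 : M.e γ v ^ (Nat.card (Lin Γ) ^ 2) = Complex.exp
      (-(((Nat.card (Lin Γ) ^ 2 : ℕ) : ℂ) * (F v - F ((γ : V ≃ᵃ[ℂ] V) v)))) := by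
    rw [Complex.exp_neg]
    exact eq_inv_of_mul_eq_one_left h1
  rw [h3, ← Complex.exp_add]
  congr 1
  ring

/-- A base point free line bundle with Chern form `4 N ^ 3 H`, `N` the order of the holonomy group. -/
theorem bpf_expl (hΓ : IsTorusQuotient Γ) (hH : IsHermitian H) (hn : IsNefForm H)
    (hinv : ∀ γ ∈ Γ, ∀ v w, H (γ.linear v) (γ.linear w) = H v w)
    (hint : ∀ b ∈ latt Γ, ∀ c ∈ latt Γ, ∃ n : ℤ, (H b c).im = n) :
    ∃ L : LineBundle Γ, IsChernForm L (fun v w => ((4 * Nat.card (Lin Γ) ^ 3 : ℕ) : ℂ) * H v w) ∧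
      BaseFree L := by
  have := finite_Lin hΓ
  have hN : 0 < Nat.card (Lin Γ) := Nat.card_pos
  set N := Nat.card (Lin Γ) with hNdef
  set q : ℕ := 2 * N ^ 2 with hq
  have hqpos : 0 < q := by positivity
  have hqc : (q : ℂ) = ((q : ℝ) : ℂ) := by push_cast; rfl
  have D : EvenForm Γ N (fun v w => (q : ℂ) * H v w) := by
    refine ⟨⟨?_, ?_, ?_⟩, ?_, ?_, ?_⟩
    · intro u v w
      rw [hH.add_left, mul_add]
    · intro c v w
      rw [hH.smul_left]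
      ring
    · intro v w
      rw [map_mul, ← hH.symm, Complex.conj_natCast]
    · intro v
      change 0 ≤ ((q : ℂ) * H v v).re
      rw [hqc, Complex.re_ofReal_mul]
      exact mul_nonneg (Nat.cast_nonneg _) (hn v)
    · intro γ hγ v w
      change (q : ℂ) * H _ _ = _
      rw [hinv γ hγ]
    · intro v hv w hw
      obtain ⟨n, hn⟩ := hint _ (mem_frac.1 hv) _ (mem_frac.1 hw)
      refine ⟨n, ?_⟩
      rw [hqc, Complex.im_ofReal_mul, ← hn, ← Complex.coe_smul, ← Complex.coe_smul, hH.smul_left,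
        h_smul_right hH, Complex.conj_ofReal, Complex.im_ofReal_mul, Complex.im_ofReal_mul, hq]
      push_cast
      ring
  obtain ⟨L, hL, hs⟩ := D.bpf hΓ
  refine ⟨L, ?_, hs⟩
  have e1 : (fun v w => ((4 * N ^ 3 : ℕ) : ℂ) * H v w)
      = fun v w => (2 * N : ℂ) * ((q : ℂ) * H v w) := by
    funext v w
    rw [hq]
    push_cast
    ring
  rw [e1]
  exact hL

omit [FiniteDimensional ℂ V] in
theorem pow_pow_e (L : LineBundle Γ) (a b : ℕ) : (L.pow a).pow b = L.pow (a * b) := by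
  unfold LineBundle.pow
  congr 1
  funext γ v
  rw [← pow_mul]

/-- An explicit exponent. -/
theorem power_expl (hΓ : IsTorusQuotient Γ) (h01 : HOneZero Γ) (hc : IsChernForm L H)
    (hn : IsNefForm H) : BaseFree (L.pow (4 * Nat.card (Lin Γ) ^ 5)) := by
  have hc' := hc
  obtain ⟨hH, F, hF, hFe⟩ := hc'
  have hpot : IsPot L H F := ⟨hF, hFe⟩
  obtain ⟨L', hL', hs⟩ := bpf_expl hΓ hH hn
    (fun γ hγ => h_inv hH hpot ⟨γ, hγ⟩) (fun b hb c hc => im_int hH hpot hb hc)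
  set m := 4 * Nat.card (Lin Γ) ^ 3 with hm
  have hM := chern_mul (chern_pow hc m) (chern_dual hL')
  have hz : (fun v w => (m : ℂ) * H v w + -((m : ℂ) * H v w)) = fun _ _ : V => (0 : ℂ) := by
    funext v w
    ring
  rw [hz] at hM
  obtain ⟨u, ⟨hu, hueq⟩, hune⟩ := torsion_expl hΓ h01 hM
  set k := Nat.card (Lin Γ) ^ 2 with hk
  have hmk : 4 * Nat.card (Lin Γ) ^ 5 = m * k := by rw [hm, hk]; ring
  rw [hmk]
  intro v
  obtain ⟨s, ⟨hsh, hseq⟩, hsv⟩ := hs v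
  refine ⟨fun w => u w * s w ^ k, ⟨hu.mul (hsh.pow k), fun γ w => ?_⟩,
    mul_ne_zero (hune v) (pow_ne_zero k hsv)⟩
  have h1 := hueq γ w
  have h2 := hseq γ w
  change u ((γ : V ≃ᵃ[ℂ] V) w) * s ((γ : V ≃ᵃ[ℂ] V) w) ^ k = L.e γ w ^ (m * k) * (u w * s w ^ k)
  rw [h1, h2]
  change (L.e γ w ^ m * (L'.e γ w)⁻¹) ^ k * u w * (L'.e γ w * s w) ^ k = _
  have h3 : (L'.e γ w) ^ k ≠ 0 := pow_ne_zero k (L'.ne_zero γ w)
  have h4 : L.e γ w ^ (m * k) = (L.e γ w ^ m) ^ k := pow_mul _ _ _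
  rw [h4, mul_pow, mul_pow, inv_pow]
  field_simp

omit [FiniteDimensional ℂ V] in
theorem base_of_dvd (h : BaseFree M) {a b : ℕ} (hM : M = L.pow a) (hab : a ∣ b) :
    BaseFree (L.pow b) := by
  obtain ⟨c, rfl⟩ := hab
  rw [← pow_pow_e, ← hM]
  exact h.pow c

/-- A uniform exponent: it only depends on the dimension. -/
theorem uniform (hΓ : IsTorusQuotient Γ) (h01 : HOneZero Γ) (hc : IsChernForm L H)
    (hn : IsNefForm H) {d : ℕ} (hd : Module.finrank ℂ V ≤ d) : BaseFree (L.pow (expo d)) := by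
  refine base_of_dvd (power_expl hΓ h01 hc hn) rfl ?_
  have h1 := card_dvd hΓ hd
  unfold expo
  exact mul_dvd_mul_left 4 ((pow_dvd_pow_of_dvd h1 5).trans (pow_dvd_pow _ (by norm_num)))

/-- Line bundles with Chern form zero. -/
theorem uniform_torsion (hΓ : IsTorusQuotient Γ) (h01 : HOneZero Γ)
    (hc : IsChernForm L (fun _ _ => 0)) {d : ℕ} (hd : Module.finrank ℂ V ≤ d) :
    (L.pow (expo d)).IsTrivial := by
  obtain ⟨u, hu, hu0⟩ := torsion_expl hΓ h01 hc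
  have h1 := card_dvd hΓ hd
  obtain ⟨c, hc⟩ : Nat.card (Lin Γ) ^ 2 ∣ expo d := by
    unfold expo
    exact Dvd.dvd.mul_left ((pow_dvd_pow_of_dvd h1 2).trans (pow_dvd_pow _ (by norm_num))) 4
  rw [hc, ← pow_pow_e]
  refine ⟨fun w => u w ^ c, ⟨hu.holo.pow c, fun γ w => ?_⟩, fun v => pow_ne_zero c (hu0 v)⟩
  rw [hu.eq, mul_pow]
  rfl

omit [FiniteDimensional ℂ V] [FiniteDimensional ℂ W] in
theorem hone_base {π : V →ₗ[ℂ] W} (hf : IsFibration Γ Δ π) (h01 : HOneZero Γ) : HOneZero Δ := by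
  intro ℓ hℓ
  have h1 : (ℓ.comp π : V →ₛₗ[starRingEnd ℂ] ℂ) = 0 := by
    apply h01
    intro γ hγ w
    obtain ⟨δ, hδ, hδγ⟩ := hf.maps γ hγ
    change ℓ (π (γ.linear w)) = ℓ (π w)
    rw [← hℓ δ hδ (π w)]
    congr 1
    have h2 := hδγ w
    have h3 := hδγ 0
    rw [act γ w, map_add, act δ (π w)] at h2
    rw [map_zero] at h3
    rw [h3] at h2
    exact (add_right_cancel h2).symm
  ext w
  obtain ⟨v, rfl⟩ := hf.surj w
  exact LinearMap.congr_fun h1 v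

omit [FiniteDimensional ℂ V] in
theorem nef_of_pos (hH : IsHermitian H) (hp : IsPositiveForm H) : IsNefForm H := by
  intro v
  by_cases hv : v = 0
  · rw [hv, h_zero_left hH]
    simp
  · exact (hp v hv).le

theorem sit_at {F : V → ℂ} {π : V →ₗ[ℂ] W} {hH : IsHermitian H} {N : ℕ}
    (S : Pool.Agent.TH735.AQ.Sit Γ L H F π hH N)
    (h01 : HOneZero Γ) {d : ℕ} (hd : Module.finrank ℂ V ≤ d) (hN : N = Nat.card (Lin Γ)) :
    InducesAt (expo d) L (Del Γ π) π := by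
  have hfib := S.isFibration
  have hdW : Module.finrank ℂ W ≤ d := (LinearMap.finrank_le_finrank_of_surjective S.surj).trans hd
  have hch := Pool.Agent.TH735.AQ.HA_chern S
  have hpos := Pool.Agent.TH735.AQ.HA_pos S
  have hb := power_expl hfib.base (hone_base hfib h01) hch (nef_of_pos hch.1 hpos)
  obtain ⟨a, ha⟩ := card_dvd S.tq hd
  obtain ⟨b, hb'⟩ := card_dvd hfib.base hdW
  set P := ∏ j ∈ Finset.range (d + 1), glc j with hP
  have hPpos : 0 < P := Finset.prod_pos fun j _ => glc_pos j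
  have hapos : 0 < a := by
    rcases Nat.eq_zero_or_pos a with h | h
    · rw [h, mul_zero] at ha
      omega
    · exact h
  set c := 4 * a ^ 2 * P ^ 5 with hc
  have hcpos : 0 < c := by rw [hc]; positivity
  have hexp : expo d = Pool.Agent.TH735.AQ.ex Γ N * c := by
    rw [Pool.Agent.TH735.AQ.ex, hN, hc, expo, ← hP]
    have h1 : P ^ 7 = P ^ 2 * P ^ 5 := by ring
    have h2 : P ^ 2 = Nat.card (Lin Γ) ^ 2 * a ^ 2 := by rw [ha]; ring
    rw [h1, h2]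
    ring
  have hbc : BaseFree ((Pool.Agent.TH735.AQ.bun S).pow c) := by
    refine base_of_dvd hb rfl ?_
    refine ⟨a ^ 2 * b ^ 5, ?_⟩
    have h2 : P ^ 5 = Nat.card (Lin (Del Γ π)) ^ 5 * b ^ 5 := by rw [hb']; ring
    rw [hc, h2]
    ring
  refine ⟨(Pool.Agent.TH735.AQ.bun S).pow c, _, chern_pow hch c, ?_, hbc,
    fun v => Complex.exp (-((Pool.Agent.TH735.AQ.ex Γ N * c : ℕ) * F v)),
    (S.pot.1.const_mul _).neg.cexp, fun v => Complex.exp_ne_zero _, ?_⟩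
  · intro w hw
    have hcc : ((c : ℕ) : ℂ) = ((c : ℝ) : ℂ) := by push_cast; rfl
    change 0 < ((c : ℂ) * _).re
    rw [hcc, Complex.re_ofReal_mul]
    exact mul_pos (by exact_mod_cast hcpos) (hpos w hw)
  · intro γ δ h v
    rw [hexp]
    change Complex.exp (-((Pool.Agent.TH735.AQ.ex Γ N * c : ℕ) * F ((γ : V ≃ᵃ[ℂ] V) v)))
      * L.e γ v ^ (Pool.Agent.TH735.AQ.ex Γ N * c) = (Pool.Agent.TH735.AQ.bun S).e δ (π v) ^ c * _
    rw [Pool.Agent.TH735.AQ.bun_e S γ δ h v, tw, ← pow_mul, mul_pow, ← Complex.exp_nat_mul]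
    have h2 : Complex.exp (-((Pool.Agent.TH735.AQ.ex Γ N * c : ℕ) * F ((γ : V ≃ᵃ[ℂ] V) v)))
        = Complex.exp ((Pool.Agent.TH735.AQ.ex Γ N * c : ℕ) * (F v - F ((γ : V ≃ᵃ[ℂ] V) v)))
          * Complex.exp (-((Pool.Agent.TH735.AQ.ex Γ N * c : ℕ) * F v)) := by
      rw [← Complex.exp_add]
      congr 1
      ring
    rw [h2]
    ring

/-- The fibration given by a nef line bundle, with a uniform exponent. -/
theorem uniform_fib (hΓ : IsTorusQuotient Γ) (h01 : HOneZero Γ) (hc : IsChernForm L H)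
    (hn : IsNefForm H) {d : ℕ} (hd : Module.finrank ℂ V ≤ d) :
    ∃ (n : ℕ) (Δ : Subgroup ((Fin n → ℂ) ≃ᵃ[ℂ] (Fin n → ℂ))) (π : V →ₗ[ℂ] (Fin n → ℂ)),
      (∀ v, π v = 0 ↔ ∀ w, H v w = 0) ∧ IsFibration Γ Δ π ∧ InducesAt (expo d) L Δ π := by
  obtain ⟨hH, F, hF, hFe⟩ := hc
  have := finite_Lin hΓ
  have hpot : IsPot L H F := ⟨hF, hFe⟩
  let n := Module.finrank ℂ (V ⧸ ker hH)
  let e : (V ⧸ ker hH) ≃ₗ[ℂ] (Fin n → ℂ) := (Module.finBasis ℂ (V ⧸ ker hH)).equivFun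
  let π : V →ₗ[ℂ] (Fin n → ℂ) := (e : (V ⧸ ker hH) →ₗ[ℂ] (Fin n → ℂ)) ∘ₗ (ker hH).mkQ
  have S : Pool.Agent.TH735.AQ.Sit Γ L H F π hH (Nat.card (Lin Γ)) := by
    refine ⟨hΓ, hpot, hn, ?_, ?_, Nat.card_pos, fun b hb hbK => chi_pow hΓ h01 hH hpot hb hbK⟩
    · exact e.surjective.comp (ker hH).mkQ_surjective
    · intro v
      change e ((ker hH).mkQ v) = 0 ↔ v ∈ ker hH
      rw [LinearEquiv.map_eq_zero_iff, Submodule.mkQ_apply, Submodule.Quotient.mk_eq_zero]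
  exact ⟨n, Del Γ π, π, S.ker_iff, S.isFibration, sit_at S h01 hd rfl⟩

/-- The Lagrangian fibration given by an isotropic nef line bundle on a primitive symplectic torus
quotient, with a uniform exponent. -/
theorem uniform_lag (hΓ : IsPrimitiveSymplectic Γ) (hc : IsChernForm L H)
    (hn : IsNefForm H) (hd : IsDegenerateForm H) (h0 : ∃ v w, H v w ≠ 0) {d : ℕ}
    (hdim : Module.finrank ℂ V ≤ d) :
    ∃ (n : ℕ) (Δ : Subgroup ((Fin n → ℂ) ≃ᵃ[ℂ] (Fin n → ℂ))) (π : V →ₗ[ℂ] (Fin n → ℂ)),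
      (∀ v, π v = 0 ↔ ∀ w, H v w = 0) ∧ IsLagrangianFibration Γ Δ π ∧
        InducesAt (expo d) L Δ π := by
  obtain ⟨hH, F, hF, hFe⟩ := hc
  have := finite_Lin hΓ.torus
  have hpot : IsPot L H F := ⟨hF, hFe⟩
  let n := Module.finrank ℂ (V ⧸ ker hH)
  let e : (V ⧸ ker hH) ≃ₗ[ℂ] (Fin n → ℂ) := (Module.finBasis ℂ (V ⧸ ker hH)).equivFun
  let π : V →ₗ[ℂ] (Fin n → ℂ) := (e : (V ⧸ ker hH) →ₗ[ℂ] (Fin n → ℂ)) ∘ₗ (ker hH).mkQ
  have hsurj : Function.Surjective π := e.surjective.comp (ker hH).mkQ_surjective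
  have hker : ∀ v, π v = 0 ↔ v ∈ ker hH := by
    intro v
    change e ((ker hH).mkQ v) = 0 ↔ v ∈ ker hH
    rw [LinearEquiv.map_eq_zero_iff, Submodule.mkQ_apply, Submodule.Quotient.mk_eq_zero]
  have S : Pool.Agent.TH735.AQ.Sit Γ L H F π hH (Nat.card (Lin Γ)) :=
    ⟨hΓ.torus, hpot, hn, hsurj, hker, Nat.card_pos,
      fun b hb hbK => Pool.Agent.TH735.AQ.chi_pow hΓ.torus hΓ.h01 hH hpot hb hbK⟩
  have S' : Pool.Agent.W594.SYZ2.TQ.Sit Γ L H F π hH := by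
    refine ⟨hΓ, hpot, hn, hsurj, hker, ?_, ?_⟩
    · obtain ⟨x, hx, hxK⟩ := hd
      intro hbot
      apply hx
      have : x ∈ ker hH := hxK
      rwa [hbot, Submodule.mem_bot] at this
    · obtain ⟨v, w, hvw⟩ := h0
      intro htop
      apply hvw
      have : v ∈ ker hH := by rw [htop]; trivial
      exact this w
  exact ⟨n, Del Γ π, π, hker, S'.isLagrangianFibration, sit_at S hΓ.h01 hdim rfl⟩

end Pool.Agent.R189.SY
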