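import Pool.Agent.R189.SY.IsoDefs
import Pool.Agent.R189.SY.Fujiki
import Pool.Agent.R189.SY.Unif

/-!
# Isotropic classes on primitive symplectic torus quotients
-/

set_option autoImplicit false

namespace Pool.Agent.R189.SY

open Pool.Agent.W594.SYZ2 Pool.Agent.W594.SYZ2.TQ Pool.Agent.TH735.AQ Pool.Agent.TH128.SYZ
open Pool.Agent.R893.TQ (BaseFree dual chern_dual)

variable {V W : Type*} [NormedAddCommGroup V] [NormedSpace ℂ V]
  [NormedAddCommGroup W] [NormedSpace ℂ W]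
  {Γ : Subgroup (V ≃ᵃ[ℂ] V)} {H K : V → V → ℂ}

theorem exponent_eq (d : ℕ) : exponent d = expo d := rfl

theorem generated_of {m : ℕ} {L : LineBundle Γ} (h : BaseFree (L.pow m)) : Generated m L := by
  intro v
  obtain ⟨s, hs, hv⟩ := h v
  exact ⟨s, hs.holo, hs.eq, hv⟩

theorem pullsBack_of {m : ℕ} {L : LineBundle Γ} {Δ : Subgroup (W ≃ᵃ[ℂ] W)} {π : V →ₗ[ℂ] W}
    (h : InducesAt m L Δ π) : PullsBack m L Δ π := by
  obtain ⟨A, HA, h1, h2, h3, h4, h5⟩ := h
  refine ⟨A, HA, h1, h2, fun v => ?_, h4, h5⟩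
  obtain ⟨s, hs, hv⟩ := h3 v
  exact ⟨s, hs.holo, fun γ w => by rw [pow_one]; exact hs.eq γ w, hv⟩

theorem IsClass.add (h : IsClass Γ H) (k : IsClass Γ K) :
    IsClass Γ (fun v w => H v w + K v w) := (H11 Γ).add_mem h k

theorem IsClass.smul (c : ℝ) (h : IsClass Γ H) : IsClass Γ (fun v w => (c : ℂ) * H v w) := by
  have h1 := (H11 Γ).smul_mem c h
  have h2 : c • H = fun v w => (c : ℂ) * H v w := by
    funext v w
    exact Complex.real_smul
  rwa [h2] at h1

theorem IsClass.neg (h : IsClass Γ H) : IsClass Γ (fun v w => - H v w) := (H11 Γ).neg_mem h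

theorem IsClass.sub (h : IsClass Γ H) (k : IsClass Γ K) :
    IsClass Γ (fun v w => H v w - K v w) := (H11 Γ).sub_mem h k

theorem IsBBForm.neg {q : (V → V → ℂ) → ℝ} (hq : IsBBForm Γ q) (h : IsClass Γ H) :
    q (fun v w => - H v w) = q H := by
  have h1 := hq.smul (-1) H h
  have h2 : (fun v w => ((-1 : ℝ) : ℂ) * H v w) = fun v w => - H v w := by
    funext v w
    push_cast
    ring
  rw [h2] at h1
  rw [h1]
  ring

theorem IsBBForm.para {q : (V → V → ℂ) → ℝ} (hq : IsBBForm Γ q) (h : IsClass Γ H)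
    (k : IsClass Γ K) : q (fun v w => H v w + K v w) + q (fun v w => H v w - K v w)
      = 2 * q H + 2 * q K := by
  have h1 := hq.polar H K (fun v w => - K v w) h k k.neg
  have e1 : (fun v w => H v w + K v w + - K v w) = H := by
    funext v w
    ring
  have e2 : (fun v w => K v w + - K v w) = fun v w => ((0 : ℝ) : ℂ) * K v w := by
    funext v w
    push_cast
    ring
  have e3 : (fun v w => H v w + - K v w) = fun v w => H v w - K v w := by
    funext v w
    ring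
  rw [e1, e2, e3, hq.smul 0 K k, hq.neg k] at h1
  linarith

variable [FiniteDimensional ℂ V]

/-- Uniqueness up to a positive factor. -/
theorem form_unique [Nontrivial V] (hΓ : IsPrimitiveSymplectic Γ) {q q' : (V → V → ℂ) → ℝ}
    (hq : IsBBForm Γ q) (hq' : IsBBForm Γ q') :
    ∃ c : ℝ, 0 < c ∧ ∀ H, IsClass Γ H → q' H = c * q H := by
  obtain ⟨n, hn⟩ := even_dim hΓ
  have hn0 : n ≠ 0 := by
    rintro rfl
    have := Module.finrank_pos (R := ℂ) (M := V)
    omega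
  let b : Module.Basis (Fin (2 * n)) ℂ V := Module.finBasisOfFinrankEq ℂ V hn
  obtain ⟨κ, hκ, h1⟩ := hq.fujiki n b
  obtain ⟨κ', hκ', h1'⟩ := hq'.fujiki n b
  obtain ⟨⟨K, hKc'⟩, hK⟩ := exists_kahler hΓ.torus
  have hKc : IsClass Γ K := hKc'
  change IsPositiveForm K at hK
  have hk := hq.pos K hKc hK
  have hk' := hq'.pos K hKc hK
  set c := q' K / q K with hc
  have hcpos : 0 < c := div_pos hk' hk
  have hpow : ∀ H, IsClass Γ H → IsPositiveForm H → q' H = c * q H := by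
    intro H hH hp
    have e1 : κ * q H ^ n = κ' * q' H ^ n := by
      have := (h1 H hH).symm.trans (h1' H hH)
      exact_mod_cast this
    have e2 : κ * q K ^ n = κ' * q' K ^ n := by
      have := (h1 K hKc).symm.trans (h1' K hKc)
      exact_mod_cast this
    have e3 : (q' H) ^ n = (c * q H) ^ n := by
      rw [mul_pow, hc, div_pow]
      have h5 : q K ^ n ≠ 0 := pow_ne_zero n hk.ne'
      field_simp
      have h6 : κ' * (q' H ^ n * q K ^ n) = κ' * (q' K ^ n * q H ^ n) := by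
        calc κ' * (q' H ^ n * q K ^ n) = (κ' * q' H ^ n) * q K ^ n := by ring
          _ = (κ * q H ^ n) * q K ^ n := by rw [e1]
          _ = (κ * q K ^ n) * q H ^ n := by ring
          _ = _ := by rw [e2]; ring
      exact mul_left_cancel₀ hκ'.ne' h6
    exact (pow_left_inj₀ (hq'.pos H hH hp).le (mul_pos hcpos (hq.pos H hH hp)).le hn0).1 e3
  refine ⟨c, hcpos, fun H hH => ?_⟩
  obtain ⟨t, ht, -⟩ := exists_max ⟨K, hKc⟩ ⟨H, hH⟩ hK
  obtain ⟨t', ht', -⟩ := exists_max ⟨K, hKc⟩ (-⟨H, hH⟩) hK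
  change ∀ v, (H v v).re ≤ t * (K v v).re at ht
  change ∀ v, (-(H v v)).re ≤ t' * (K v v).re at ht'
  set C := max (max t t') 1 with hC
  have hCpos : 0 < C := lt_of_lt_of_le one_pos (le_max_right _ _)
  have h5 : ∀ v, v ≠ 0 → |(H v v).re| < 2 * C * (K v v).re := by
    intro v hv
    have hKv := hK v hv
    have e1 := ht v
    have e2 := ht' v
    rw [Complex.neg_re] at e2
    have e3 : t * (K v v).re ≤ C * (K v v).re :=
      mul_le_mul_of_nonneg_right ((le_max_left _ _).trans (le_max_left _ _)) hKv.le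
    have e4 : t' * (K v v).re ≤ C * (K v v).re :=
      mul_le_mul_of_nonneg_right ((le_max_right _ _).trans (le_max_left _ _)) hKv.le
    rw [abs_lt]
    constructor <;> nlinarith [mul_pos hCpos hKv]
  have hKC := hKc.smul (2 * C)
  have hp1 : IsPositiveForm (fun v w => ((2 * C : ℝ) : ℂ) * K v w + H v w) := by
    intro v hv
    rw [Complex.add_re, Complex.re_ofReal_mul]
    linarith [(abs_lt.1 (h5 v hv)).1]
  have hp2 : IsPositiveForm (fun v w => ((2 * C : ℝ) : ℂ) * K v w - H v w) := by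
    intro v hv
    rw [Complex.sub_re, Complex.re_ofReal_mul]
    linarith [(abs_lt.1 (h5 v hv)).2]
  have e1 := hq.para hKC hH
  have e2 := hq'.para hKC hH
  rw [hq.smul _ K hKc] at e1
  rw [hq'.smul _ K hKc, hpow _ (hKC.add hH) hp1, hpow _ (hKC.sub hH) hp2, hpow K hKc hK] at e2
  linear_combination (-1 / 2) * e2 + (c / 2) * e1

/-- The form, as a function. -/
theorem exists_form [Nontrivial V] (hΓ : IsPrimitiveSymplectic Γ) :
    ∃ q : (V → V → ℂ) → ℝ, IsBBForm Γ q ∧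
      (∀ H, IsClass Γ H → (IsDegenerateForm H ↔ q H = 0)) ∧
      (∀ H, IsClass Γ H → 0 ≤ q H → IsNefForm H ∨ IsNefForm (fun v w => - H v w)) ∧
      (∀ K H, IsClass Γ K → IsClass Γ H → IsPositiveForm K →
        q (fun v w => K v w + H v w) = q K + q H → (∃ v w, H v w ≠ 0) → q H < 0) := by
  classical
  obtain ⟨q, hq, h1, h2, h3⟩ := exists_bbf hΓ
  let Q : (V → V → ℂ) → ℝ := fun H => if h : H ∈ H11 Γ then q ⟨H, h⟩ else 0
  have hQ : ∀ (H : V → V → ℂ) (h : IsClass Γ H), Q H = q ⟨H, h⟩ := fun H h => dif_pos h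
  refine ⟨Q, ⟨?_, ?_, ?_, ?_⟩, ?_, ?_, ?_⟩
  · intro c H h
    rw [hQ _ h, hQ _ (h.smul c)]
    have e1 : (⟨fun v w => (c : ℂ) * H v w, h.smul c⟩ : H11 Γ) = c • ⟨H, h⟩ := by
      apply Subtype.ext
      funext v w
      exact Complex.real_smul.symm
    rw [e1, QuadraticMap.map_smul, smul_eq_mul, sq]
  · intro H K T h k t
    rw [hQ _ ((h.add k).add t), hQ _ h, hQ _ k, hQ _ t, hQ _ (h.add k), hQ _ (h.add t),
      hQ _ (k.add t)]
    have e := QuadraticMap.map_add_add_add_map q ⟨H, h⟩ ⟨K, k⟩ ⟨T, t⟩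
    rw [add_comm (⟨T, t⟩ : H11 Γ) ⟨H, h⟩] at e
    change q ⟨fun v w => H v w + K v w + T v w, (h.add k).add t⟩
      + (q ⟨H, h⟩ + q ⟨K, k⟩ + q ⟨T, t⟩) = q ⟨fun v w => H v w + K v w, h.add k⟩
      + q ⟨fun v w => K v w + T v w, k.add t⟩ + q ⟨fun v w => H v w + T v w, h.add t⟩ at e
    linarith
  · intro H h hp
    rw [hQ _ h]
    exact hq.pos ⟨H, h⟩ hp
  · intro n b
    obtain ⟨κ, hκ, h5⟩ := hq.fujiki n b
    exact ⟨κ, hκ, fun H h => by rw [hQ _ h]; exact h5 ⟨H, h⟩⟩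
  · intro H h
    rw [hQ _ h]
    exact h1 ⟨H, h⟩
  · intro H h
    rw [hQ _ h]
    exact h2 ⟨H, h⟩
  · intro K H k h hp he h0
    rw [hQ _ (k.add h), hQ _ k, hQ _ h] at he
    rw [hQ _ h]
    refine h3 ⟨K, k⟩ ⟨H, h⟩ hp ?_ ?_
    · rw [QuadraticMap.polar]
      have e1 : (⟨K, k⟩ : H11 Γ) + ⟨H, h⟩ = ⟨fun v w => K v w + H v w, k.add h⟩ := rfl
      rw [e1, he]
      ring
    · intro h6
      obtain ⟨v, w, hvw⟩ := h0
      apply hvw
      have h7 := congrArg Subtype.val h6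
      exact congrFun (congrFun h7 v) w

/-- The Lagrangian fibration of an isotropic class, with a uniform exponent. -/
theorem lag_of_nef (hΓ : IsPrimitiveSymplectic Γ) {L : LineBundle Γ} (hc : IsChernForm L H)
    (hn : IsNefForm H) (hd : IsDegenerateForm H) (h0 : ∃ v w, H v w ≠ 0) :
    ∃ (n : ℕ) (Δ : Subgroup ((Fin n → ℂ) ≃ᵃ[ℂ] (Fin n → ℂ))) (π : V →ₗ[ℂ] (Fin n → ℂ)),
      (∀ v, π v = 0 ↔ ∀ w, H v w = 0) ∧ IsLagrangianFibration Γ Δ π ∧
        PullsBack (exponent (Module.finrank ℂ V)) L Δ π := by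
  obtain ⟨n, Δ, π, h1, h2, h3⟩ := uniform_lag hΓ hc hn hd h0 le_rfl
  exact ⟨n, Δ, π, h1, h2, pullsBack_of h3⟩

theorem class_of_chern {L : LineBundle Γ} (hc : IsChernForm L H) : IsClass Γ H := by
  obtain ⟨hH, F, hF, hFe⟩ := hc
  exact ⟨hH, fun γ hγ => h_inv hH ⟨hF, hFe⟩ ⟨γ, hγ⟩⟩

end Pool.Agent.R189.SY
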