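import Pool.Agent.W594.SYZ.TQDefs

/-!
# The Beauville–Bogomolov–Fujiki form of a primitive symplectic torus quotient: definitions
-/

set_option autoImplicit false

namespace Pool.Agent.R189.SY

open Pool.Agent.W594.SYZ2

variable {V W : Type*} [NormedAddCommGroup V] [NormedSpace ℂ V]
  [NormedAddCommGroup W] [NormedSpace ℂ W]

/-- The class `H` belongs to `H^{1,1}(X, ℝ)`, `X = V / Γ`: it is a hermitian form on `V` which is
invariant under the linear parts of `Γ`. -/
def IsClass (Γ : Subgroup (V ≃ᵃ[ℂ] V)) (H : V → V → ℂ) : Prop :=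
  IsHermitian H ∧ ∀ γ ∈ Γ, ∀ v w, H (γ.linear v) (γ.linear w) = H v w

/-- `q` is the Beauville–Bogomolov–Fujiki form on `H^{1,1}(X, ℝ)`, up to a positive factor: it is a
quadratic form, it is positive on Kähler classes, and it satisfies the Fujiki relation: up to a
positive factor `q(H)^n`, `2 n = dim X`, is the determinant of the hermitian form `H`, which is a
positive multiple of the integral of `H^{2 n}` over `X`. -/
structure IsBBForm (Γ : Subgroup (V ≃ᵃ[ℂ] V)) (q : (V → V → ℂ) → ℝ) : Prop where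
  smul : ∀ (c : ℝ) (H : V → V → ℂ), IsClass Γ H → q (fun v w => c * H v w) = c ^ 2 * q H
  polar : ∀ H K T : V → V → ℂ, IsClass Γ H → IsClass Γ K → IsClass Γ T →
    q (fun v w => H v w + K v w + T v w) + q H + q K + q T =
      q (fun v w => H v w + K v w) + q (fun v w => H v w + T v w) + q (fun v w => K v w + T v w)
  pos : ∀ H, IsClass Γ H → IsPositiveForm H → 0 < q H
  fujiki : ∀ (n : ℕ) (b : Module.Basis (Fin (2 * n)) ℂ V), ∃ κ : ℝ, 0 < κ ∧
    ∀ H, IsClass Γ H → Matrix.det (fun i j => H (b i) (b j)) = ((κ * q H ^ n : ℝ) : ℂ)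

/-- The power `L ^ m` is generated by global sections: for every point of `X = V / Γ` there is a
global holomorphic section `s` of `L ^ m` which does not vanish there. -/
def Generated {Γ : Subgroup (V ≃ᵃ[ℂ] V)} (m : ℕ) (L : LineBundle Γ) : Prop :=
  ∀ v, ∃ s : V → ℂ, Differentiable ℂ s ∧
    (∀ (γ : Γ) (w : V), s ((γ : V ≃ᵃ[ℂ] V) w) = L.e γ w ^ m * s w) ∧ s v ≠ 0

/-- The power `L ^ m` is isomorphic to the pullback `f^* A` of a line bundle `A` on the base of the
fibration `f : V / Γ → W / Δ` given by `π`, where `A` is ample (its Chern form `HA` is positive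
definite) and generated by global sections. The pullback is given by the factor of automorphy
`γ ↦ A.e δ (π v)`, `δ` the transformation of `W` induced by `γ`, and the isomorphism is the
multiplication with the nowhere vanishing function `h`. -/
def PullsBack {Γ : Subgroup (V ≃ᵃ[ℂ] V)} (m : ℕ) (L : LineBundle Γ) (Δ : Subgroup (W ≃ᵃ[ℂ] W))
    (π : V →ₗ[ℂ] W) : Prop :=
  ∃ (A : LineBundle Δ) (HA : W → W → ℂ), IsChernForm A HA ∧ IsPositiveForm HA ∧ Generated 1 A ∧
    ∃ h : V → ℂ, Differentiable ℂ h ∧ (∀ v, h v ≠ 0) ∧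
      ∀ (γ : Γ) (δ : Δ), (∀ v, (δ : W ≃ᵃ[ℂ] W) (π v) = π ((γ : V ≃ᵃ[ℂ] V) v)) →
        ∀ v, h ((γ : V ≃ᵃ[ℂ] V) v) * L.e γ v ^ m = A.e δ (π v) * h v

/-- The exponent: a positive number which only depends on the dimension `d`; the factors are the
orders of the groups `GL (2 j, 𝔽₃)`. -/
noncomputable def exponent (d : ℕ) : ℕ :=
  4 * (∏ j ∈ Finset.range (d + 1), Nat.card (Matrix (Fin (2 * j)) (Fin (2 * j)) (ZMod 3))ˣ) ^ 7

end Pool.Agent.R189.SY
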