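import Pool.Agent.TH735.AQ.Defs
import Pool.Agent.R189.SY.BBFDefs

/-!
# Fibrations of torus quotients: definitions
-/

set_option autoImplicit false

namespace Pool.Agent.R189.SY

open Pool.Agent.W594.SYZ2 Pool.Agent.TH735.AQ

/-- The set of the fibrations `f : X → B` of `X = V / Γ` onto torus quotients `B = ℂ^n / Δ` with
`0 < dim B < dim X`, up to isomorphisms of the bases: the fibration given by the linear map `π` is
represented by the complex subspace `ker π` of `V`, the tangent space of the general fibre. (The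
fibration is determined by `K = ker π`: `B` is the quotient of `V / K` by the group induced by `Γ`.) -/
def fibrations {V : Type*} [NormedAddCommGroup V] [NormedSpace ℂ V] (Γ : Subgroup (V ≃ᵃ[ℂ] V)) :
    Set (Submodule ℂ V) :=
  {K | K ≠ ⊥ ∧ K ≠ ⊤ ∧ ∃ (n : ℕ) (Δ : Subgroup ((Fin n → ℂ) ≃ᵃ[ℂ] (Fin n → ℂ)))
    (π : V →ₗ[ℂ] (Fin n → ℂ)), IsFibration Γ Δ π ∧ LinearMap.ker π = K}

/-- `X = V / Γ` is projective: it has an ample line bundle. -/
def IsProj {V : Type*} [NormedAddCommGroup V] [NormedSpace ℂ V] (Γ : Subgroup (V ≃ᵃ[ℂ] V)) : Prop :=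
  ∃ (A : LineBundle Γ) (H : V → V → ℂ), IsChernForm A H ∧ IsPositiveForm H

end Pool.Agent.R189.SY
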