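import Pool.Agent.R189.SY.Cnt
import Pool.Agent.R189.SY.Iso

/-!
# Fibrations of primitive symplectic torus quotients: projectivity and bases
-/

set_option autoImplicit false

namespace Pool.Agent.R189.SY

open Pool.Agent.W594.SYZ2 Pool.Agent.W594.SYZ2.TQ Pool.Agent.TH735.AQ
open Pool.Agent.R893.TQ (IsRatClass Solves exists_solution ample_of_pos latt_base rat_of_chern)

variable {V : Type*} [NormedAddCommGroup V] [NormedSpace ℂ V] [FiniteDimensional ℂ V]
  {Γ : Subgroup (V ≃ᵃ[ℂ] V)}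

/-- A projective quotient with a fibration has another fibration. -/
theorem second_of_proj (hΓ : IsPrimitiveSymplectic Γ) (hX : IsProj Γ) {K : Submodule ℂ V}
    (hK : K ∈ fibrations Γ) : ∃ K' ∈ fibrations Γ, K' ≠ K := by
  obtain ⟨L, A, ⟨hA, F, hF, hFe⟩, hp⟩ := hX
  have hAr : IsRatClass Γ A := ⟨hA, fun γ hγ => h_inv hA ⟨hF, hFe⟩ ⟨γ, hγ⟩, 1, one_pos,
    rat_of_chern hA ⟨hF, hFe⟩⟩
  obtain ⟨H, Hr, Hn, Hk⟩ := class_of hΓ hK
  obtain ⟨R, N, hN, hR, hRe, hRl⟩ := exists_oper hΓ.torus hAr hp Hr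
  obtain ⟨c0, c1, c2, c3⟩ := (mem_fib hΓ _).1 hK
  have hzero : ∀ v, R v = 0 ↔ v ∈ K := by
    intro v
    rw [Hk]
    constructor
    · intro h w
      rw [← hR, h, h_zero_left hA]
    · intro h
      by_contra hne
      have h1 := hp _ hne
      rw [hR, h, Complex.zero_re] at h1
      exact lt_irrefl _ h1
  refine ⟨LinearMap.range R, (mem_fib hΓ _).2 ⟨?_, ?_, ?_, ?_⟩, ?_⟩
  · intro h0
    apply c1
    rw [eq_top_iff]
    intro v _
    rw [← hzero]
    have : R v ∈ LinearMap.range R := ⟨v, rfl⟩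
    rwa [h0, Submodule.mem_bot] at this
  · intro h0
    apply c0
    have h1 : LinearMap.ker R = ⊥ := by
      rw [LinearMap.ker_eq_bot, LinearMap.injective_iff_surjective]
      exact LinearMap.range_eq_top.1 h0
    rw [eq_bot_iff, ← h1]
    intro v hv
    exact (hzero v).2 hv
  · rintro γ hγ _ ⟨v, rfl⟩
    exact ⟨γ.linear v, hRe γ hγ v⟩
  · apply le_antisymm
    · rw [Submodule.span_le]
      intro b hb
      exact hb.2
    · rintro _ ⟨v, rfl⟩
      have hv : v ∈ Submodule.span ℝ (latt Γ : Set V) := by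
        rw [hΓ.torus.span_top]
        exact Submodule.mem_top
      have hNr : (N : ℝ) ≠ 0 := by exact_mod_cast hN.ne'
      induction hv using Submodule.span_induction with
      | mem b hb =>
        have e3 : (N : ℝ) • R b ∈ LinearMap.range R := by
          refine ⟨(N : ℂ) • b, ?_⟩
          rw [map_smul, ← Complex.coe_smul]
          norm_num
        have e4 : R b = (N : ℝ)⁻¹ • ((N : ℝ) • R b) := by
          rw [smul_smul, inv_mul_cancel₀ hNr, one_smul]
        rw [e4]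
        exact Submodule.smul_mem _ _ (Submodule.subset_span ⟨hRl b hb, e3⟩)
      | zero =>
        rw [map_zero]
        exact Submodule.zero_mem _
      | add x y _ _ hx hy =>
        rw [map_add]
        exact Submodule.add_mem _ hx hy
      | smul a x _ hx =>
        have : R (a • x) = a • R x := by
          rw [← Complex.coe_smul, ← Complex.coe_smul, map_smul]
        rw [this]
        exact Submodule.smul_mem _ _ hx
  · intro h0
    apply c1
    rw [eq_top_iff]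
    intro v _
    rw [← hzero]
    by_contra hne
    have h1 := hp _ hne
    have h2 : R v ∈ K := by
      rw [← h0]
      exact ⟨v, rfl⟩
    rw [hR, h_ker_right Hr.herm (fun w => (Hk _).1 h2 w), Complex.zero_re] at h1
    exact lt_irrefl _ h1

/-- The base of a fibration with an ample class which pulls back to a given nef class. -/
theorem solves_of_fib {W : Type*} [NormedAddCommGroup W] [NormedSpace ℂ W] [FiniteDimensional ℂ W]
    {Δ : Subgroup (W ≃ᵃ[ℂ] W)} {π : V →ₗ[ℂ] W} {H : V → V → ℂ} (hΓ : IsTorusQuotient Γ)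
    (hr : IsRatClass Γ H) (hn : IsNefForm H) (hfib : IsFibration Γ Δ π)
    (hker' : ∀ v, π v = 0 ↔ v ∈ ker hr.herm) : ∃ HB, Solves Γ H Δ π HB := by
  obtain ⟨k, hk, hint⟩ := hr.rat
  have hsec := sec_spec hfib.surj
  have hred : ∀ v w, H (sec π (π v)) (sec π (π w)) = H v w := by
    intro v w
    have h1 : sec π (π v) - v ∈ ker hr.herm := by
      rw [← hker', map_sub, hsec, sub_self]
    have h2 : sec π (π w) - w ∈ ker hr.herm := by
      rw [← hker', map_sub, hsec, sub_self]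
    have e1 : sec π (π v) = v + (sec π (π v) - v) := by abel
    have e2 : sec π (π w) = w + (sec π (π w) - w) := by abel
    rw [e1, e2, hr.herm.add_left, h1 _, add_zero, h_add_right hr.herm,
      h_ker_right hr.herm h2, add_zero]
  let HB : W → W → ℂ := fun x y => H (sec π x) (sec π y)
  have hHB : ∀ v w, HB (π v) (π w) = H v w := hred
  have hcast : ∀ (N : ℕ) (x y : V), H (N • x) (N • y) = (N : ℂ) ^ 2 * H x y := by
    intro N x y
    rw [← Nat.cast_smul_eq_nsmul ℂ N x, ← Nat.cast_smul_eq_nsmul ℂ N y, hr.herm.smul_left,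
      h_smul_right hr.herm, Complex.conj_natCast]
    ring
  have hrat : IsRatClass Δ HB := by
    refine ⟨⟨?_, ?_, ?_⟩, ?_, ?_⟩
    · intro u v w
      simp only [HB]
      rw [map_add, hr.herm.add_left]
    · intro a v w
      simp only [HB]
      rw [map_smul, hr.herm.smul_left]
    · intro v w
      exact hr.herm.symm _ _
    · intro δ hδ x y
      obtain ⟨γ, hγ, h⟩ := hfib.onto δ hδ
      obtain ⟨v, rfl⟩ := hfib.surj x
      obtain ⟨w, rfl⟩ := hfib.surj y
      have h0 := h 0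
      rw [map_zero] at h0
      have h1 : ∀ v, δ.linear (π v) = π (γ.linear v) := by
        intro v
        have h2 := h v
        rw [act δ, act γ v, map_add, h0] at h2
        exact add_right_cancel h2
      rw [h1, h1, hHB, hHB, hr.inv γ hγ]
    · set N := Nat.card (Lin Γ) with hN
      have hNpos : 0 < N := Pool.Agent.Y167.card_pos hΓ
      refine ⟨k * N ^ 2, by positivity, ?_⟩
      intro x hx y hy
      obtain ⟨b, hb, hbx⟩ := latt_base hΓ hfib x hx
      obtain ⟨c, hc, hcy⟩ := latt_base hΓ hfib y hy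
      obtain ⟨z, hz⟩ := hint b hb c hc
      refine ⟨z, ?_⟩
      rw [← hz, ← hHB b c, hbx, hcy]
      change _ = (k : ℝ) * (H (sec π (N • x)) (sec π (N • y))).im
      rw [map_nsmul, map_nsmul, hcast]
      have e1 : ((N : ℂ) ^ 2 * H (sec π x) (sec π y)).im = (N : ℝ) ^ 2 * (H (sec π x) (sec π y)).im := by
        have : ((N : ℂ) ^ 2) = (((N : ℝ) ^ 2 : ℝ) : ℂ) := by push_cast; rfl
        rw [this, Complex.im_ofReal_mul]
      rw [e1]
      push_cast
      ring
  have hpos : IsPositiveForm HB := by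
    intro w hw
    apply lt_of_le_of_ne (hn _)
    intro h
    apply hw
    rw [← hsec w, hker']
    exact fun u => h_isotropic hr.herm hn _ h.symm u
  exact ⟨HB, hfib, ample_of_pos hfib.base hrat hpos, fun v w => (hHB v w).symm⟩

/-- Every fibration is Lagrangian and has a projective base. -/
theorem lagr_of_fib (hΓ : IsPrimitiveSymplectic Γ) {n : ℕ}
    {Δ : Subgroup ((Fin n → ℂ) ≃ᵃ[ℂ] (Fin n → ℂ))} {π : V →ₗ[ℂ] (Fin n → ℂ)}
    (hf : IsFibration Γ Δ π) (h0 : 0 < n) (h1 : n < Module.finrank ℂ V) :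
    LinearMap.ker π ∈ fibrations Γ ∧ IsLagrangianFibration Γ Δ π ∧
      ∃ (A : LineBundle Δ) (HA : (Fin n → ℂ) → (Fin n → ℂ) → ℂ), IsChernForm A HA ∧
        IsPositiveForm HA ∧ ∀ v, ∃ s, A.IsSection s ∧ s v ≠ 0 := by
  have hrn := π.finrank_range_add_finrank_ker
  rw [LinearMap.range_eq_top.2 hf.surj, finrank_top, Module.finrank_fin_fun] at hrn
  have hb : LinearMap.ker π ≠ ⊥ := by
    intro h
    rw [h, finrank_bot] at hrn
    omega
  have ht : LinearMap.ker π ≠ ⊤ := by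
    intro h
    rw [h, finrank_top] at hrn
    omega
  have hmem : LinearMap.ker π ∈ fibrations Γ := ⟨hb, ht, n, Δ, π, hf, rfl⟩
  obtain ⟨-, -, hinv, hsp⟩ := (mem_fib hΓ _).1 hmem
  obtain ⟨hl, hd⟩ := lagr hΓ _ hinv hb ht
  obtain ⟨H, hr, hn, hk⟩ := class_of hΓ hmem
  refine ⟨hmem, ⟨hf.surj, hf.maps, hf.onto, hf.base, ?_, ?_, ?_, ?_, ?_⟩, ?_⟩
  · rw [Module.finrank_fin_fun]
    exact h0
  · rw [Module.finrank_fin_fun]
    omega
  · intro γ hγ h
    have e0 : π (γ 0) = 0 := by rw [h, map_zero]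
    have e1 : ∀ v, γ.linear v - v ∈ LinearMap.ker π := by
      intro v
      have := h v
      rw [act, map_add, e0, add_zero] at this
      rw [LinearMap.mem_ker, map_sub, this, sub_self]
    have e2 := lin_one hΓ _ hinv hl γ hγ e1
    refine ⟨γ 0, e0, ?_⟩
    apply AffineEquiv.ext
    intro v
    rw [act, e2, AffineEquiv.constVAdd_apply, vadd_eq_add, add_comm]
  · exact hsp
  · intro σ hσ v x y hx hy
    exact hl σ hσ v x hx y hy
  · obtain ⟨HB, hs⟩ := solves_of_fib hΓ.torus hr hn hf (fun v => by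
      rw [← LinearMap.mem_ker, hk]
      exact Iff.rfl)
    obtain ⟨-, hp, m, hm, A, hA, hb⟩ := hs.ample
    refine ⟨A, _, hA, fun v hv => ?_, hb⟩
    have e : ((m : ℕ) : ℂ) = ((m : ℝ) : ℂ) := by push_cast; rfl
    change 0 < ((m : ℂ) * HB v v).re
    rw [e, Complex.re_ofReal_mul]
    have : (0 : ℝ) < m := by exact_mod_cast hm
    exact mul_pos this (hp v hv)

/-- Fibrations and isotropic classes. -/
theorem fib_iff_class (hΓ : IsPrimitiveSymplectic Γ) (K : Submodule ℂ V) :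
    K ∈ fibrations Γ ↔ ∃ (L : LineBundle Γ) (H : V → V → ℂ), IsChernForm L H ∧ IsNefForm H ∧
      IsDegenerateForm H ∧ (∃ v w, H v w ≠ 0) ∧ ∀ v, v ∈ K ↔ ∀ w, H v w = 0 := by
  constructor
  · intro hK
    obtain ⟨H, hr, hn, hk⟩ := class_of hΓ hK
    obtain ⟨k, hk0, hint⟩ := hr.rat
    obtain ⟨m, hm, L, hL, -⟩ := Pool.Agent.Y167.exists_bpf hΓ.torus hr.herm hn hr.inv hk0 hint
    have hm0 : (m : ℂ) ≠ 0 := by exact_mod_cast hm.ne'
    have e : ((m : ℕ) : ℂ) = ((m : ℝ) : ℂ) := by push_cast; rfl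
    have hk' : ∀ v, v ∈ K ↔ ∀ w, (m : ℂ) * H.1 v w = 0 := by
      intro v
      rw [hk]
      refine forall_congr' fun w => ?_
      rw [mul_eq_zero]
      exact ⟨Or.inr, fun h => h.resolve_left hm0⟩
    refine ⟨L, _, hL, fun v => ?_, ?_, ?_, hk'⟩
    · change 0 ≤ ((m : ℂ) * H.1 v v).re
      rw [e, Complex.re_ofReal_mul]
      exact mul_nonneg (Nat.cast_nonneg _) (hn v)
    · obtain ⟨x, hx, hx0⟩ := (Submodule.ne_bot_iff K).1 hK.1
      exact ⟨x, hx0, (hk' x).1 hx⟩
    · by_contra hcon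
      push Not at hcon
      apply hK.2.1
      rw [eq_top_iff]
      intro v _
      rw [hk']
      exact hcon v
  · rintro ⟨L, H, hc, hn, hd, hne, hk⟩
    obtain ⟨n, Δ, π, h1, h2, -⟩ := lag_of_nef hΓ hc hn hd hne
    refine ⟨?_, ?_, n, Δ, π, ⟨h2.surj, h2.maps, h2.onto, h2.base⟩, ?_⟩
    · rintro rfl
      obtain ⟨v, hv, hvw⟩ := hd
      exact hv ((Submodule.mem_bot ℂ).1 ((hk v).2 hvw))
    · rintro rfl
      obtain ⟨v, w, hvw⟩ := hne
      exact hvw ((hk v).1 Submodule.mem_top w)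
    · ext v
      rw [LinearMap.mem_ker, h1, hk]

/-- The counting statement. -/
theorem count_cases [Nontrivial V] (hΓ : IsPrimitiveSymplectic Γ) :
    (Module.finrank ℝ (H11 Γ) = 1 ∧ fibrations Γ = ∅) ∨
      (Module.finrank ℝ (H11 Γ) = 2 ∧ ∃ K K', fibrations Γ ⊆ {K, K'}) ∨
      (Module.finrank ℝ (H11 Γ) = 4 ∧ ((∃ K K', fibrations Γ ⊆ {K, K'}) ∨
        (fibrations Γ).Infinite)) := by
  have hthree : (∃ K K', fibrations Γ ⊆ {K, K'}) ∨ ∃ K₁ ∈ fibrations Γ, ∃ K₂ ∈ fibrations Γ,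
      ∃ K₃ ∈ fibrations Γ, K₁ ≠ K₂ ∧ K₁ ≠ K₃ ∧ K₂ ≠ K₃ := by
    by_cases h1 : ∃ K₁, K₁ ∈ fibrations Γ
    · obtain ⟨K₁, hK₁⟩ := h1
      by_cases h2 : ∃ K₂ ∈ fibrations Γ, K₁ ≠ K₂
      · obtain ⟨K₂, hK₂, h12⟩ := h2
        by_cases h3 : ∃ K₃ ∈ fibrations Γ, K₁ ≠ K₃ ∧ K₂ ≠ K₃
        · obtain ⟨K₃, hK₃, h13, h23⟩ := h3
          exact Or.inr ⟨K₁, hK₁, K₂, hK₂, K₃, hK₃, h12, h13, h23⟩
        · left
          refine ⟨K₁, K₂, fun K hK => ?_⟩
          by_contra hcon
          apply h3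
          refine ⟨K, hK, fun e => hcon (Or.inl e.symm), fun e => hcon (Or.inr e.symm)⟩
      · left
        refine ⟨K₁, K₁, fun K hK => ?_⟩
        by_contra hcon
        exact h2 ⟨K, hK, fun e => hcon (Or.inl e.symm)⟩
    · left
      refine ⟨⊥, ⊥, fun K hK => ?_⟩
      exact absurd ⟨K, hK⟩ h1
  rcases rank_cases hΓ with h | h | h
  · exact Or.inl ⟨h, rank_one hΓ h⟩
  · refine Or.inr (Or.inl ⟨h, ?_⟩)
    rcases hthree with h3 | ⟨K₁, a1, K₂, a2, K₃, a3, a4, a5, a6⟩
    · exact h3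
    · exact (rank_two hΓ h a1 a2 a3 a4 a5 a6).elim
  · refine Or.inr (Or.inr ⟨h, ?_⟩)
    rcases hthree with h3 | ⟨K₁, a1, K₂, a2, K₃, a3, a4, a5, a6⟩
    · exact Or.inl h3
    · exact Or.inr (infinite_of_three hΓ a1 a2 a3 a4 a5 a6)

end Pool.Agent.R189.SY
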