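import Pool.Agent.R189.SY.Pol
import Pool.Agent.R189.SY.LagDefs
import Pool.Agent.Y167.FromFib

/-!
# Fibrations and rational invariant subspaces
-/

set_option autoImplicit false

namespace Pool.Agent.R189.SY

open Pool.Agent.W594.SYZ2 Pool.Agent.W594.SYZ2.TQ Pool.Agent.TH735.AQ
open Pool.Agent.R893.TQ (IsRatClass Solves exists_solution ample_of_pos latt_base)

variable {V : Type*} [NormedAddCommGroup V] [NormedSpace ℂ V] [FiniteDimensional ℂ V]
  {Γ : Subgroup (V ≃ᵃ[ℂ] V)}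

/-- The subspace is invariant and spanned by lattice vectors. -/
def Rat (Γ : Subgroup (V ≃ᵃ[ℂ] V)) (K : Submodule ℂ V) : Prop :=
  (∀ γ ∈ Γ, ∀ v ∈ K, γ.linear v ∈ K) ∧
    Submodule.span ℝ {b | b ∈ latt Γ ∧ b ∈ K} = K.restrictScalars ℝ

theorem rat_of_fib {W : Type*} [NormedAddCommGroup W] [NormedSpace ℂ W] [FiniteDimensional ℂ W]
    {Δ : Subgroup (W ≃ᵃ[ℂ] W)} {π : V →ₗ[ℂ] W} (hΓ : IsTorusQuotient Γ)
    (hf : IsFibration Γ Δ π) : Rat Γ (LinearMap.ker π) := by
  refine ⟨fun γ hγ v hv => Pool.Agent.Y167.ker_stable hf hγ hv, ?_⟩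
  have h := Pool.Agent.Y167.ker_span hΓ hf
  have h2 := congrArg (Submodule.map ((LinearMap.ker π).subtype.restrictScalars ℝ)) h
  rw [Submodule.map_span, Submodule.map_top] at h2
  have e1 : ((LinearMap.ker π).subtype.restrictScalars ℝ) ''
      {e : LinearMap.ker π | (LinearMap.ker π).subtype e ∈ latt Γ} =
      {b | b ∈ latt Γ ∧ b ∈ LinearMap.ker π} := by
    ext x
    constructor
    · rintro ⟨y, hy, rfl⟩
      exact ⟨hy, y.2⟩
    · rintro ⟨hx, hx0⟩
      exact ⟨⟨x, hx0⟩, hx, rfl⟩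
  rw [e1] at h2
  rw [h2]
  ext x
  constructor
  · rintro ⟨y, rfl⟩
    exact y.2
  · intro hx
    exact ⟨⟨x, hx⟩, rfl⟩

/-- The fibrations correspond to the proper rational invariant subspaces. -/
theorem mem_fib (hΓ : IsPrimitiveSymplectic Γ) (K : Submodule ℂ V) :
    K ∈ fibrations Γ ↔ K ≠ ⊥ ∧ K ≠ ⊤ ∧ Rat Γ K := by
  constructor
  · rintro ⟨h0, h1, n, Δ, π, hf, rfl⟩
    exact ⟨h0, h1, rat_of_fib hΓ.torus hf⟩
  · rintro ⟨h0, h1, h2, h3⟩
    obtain ⟨H, hr, hn, hk⟩ := exists_pol hΓ K h2 h0 h3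
    obtain ⟨n, Δ, π, HB, hs⟩ := exists_solution hΓ.torus hr hn
    refine ⟨h0, h1, n, Δ, π, hs.fib, ?_⟩
    ext v
    rw [LinearMap.mem_ker, hs.ker, hk]

/-- Different proper invariant subspaces meet only in zero. -/
theorem inter_bot (hΓ : IsPrimitiveSymplectic Γ) {K K' : Submodule ℂ V} (hK : K ∈ fibrations Γ)
    (hK' : K' ∈ fibrations Γ) (hne : K ≠ K') : K ⊓ K' = ⊥ := by
  by_contra h0
  obtain ⟨a0, a1, a2, -⟩ := (mem_fib hΓ K).1 hK
  obtain ⟨b0, b1, b2, -⟩ := (mem_fib hΓ K').1 hK'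
  have h1 : K ⊓ K' ≠ ⊤ := fun h => a1 (top_le_iff.1 (h ▸ inf_le_left))
  have hinv : ∀ γ ∈ Γ, ∀ v ∈ K ⊓ K', γ.linear v ∈ K ⊓ K' := fun γ hγ v hv =>
    ⟨a2 γ hγ v hv.1, b2 γ hγ v hv.2⟩
  have d := (lagr hΓ _ hinv h0 h1).2
  have dK := (lagr hΓ _ a2 a0 a1).2
  have dK' := (lagr hΓ _ b2 b0 b1).2
  have e1 : K ⊓ K' = K := Submodule.eq_of_le_of_finrank_eq inf_le_left (by omega)
  have e2 : K ⊓ K' = K' := Submodule.eq_of_le_of_finrank_eq inf_le_right (by omega)
  exact hne (e1.symm.trans e2)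

/-- The operator which compares two rational classes has bounded denominators. -/
theorem exists_oper (hΓ : IsTorusQuotient Γ) {A H : V → V → ℂ} (hA : IsRatClass Γ A)
    (hp : IsPositiveForm A) (hH : IsRatClass Γ H) :
    ∃ (R : V →ₗ[ℂ] V) (N : ℕ), 0 < N ∧ (∀ v w, A (R v) w = H v w) ∧
      (∀ γ ∈ Γ, ∀ v, R (γ.linear v) = γ.linear (R v)) ∧
      ∀ x ∈ latt Γ, (N : ℝ) • R x ∈ latt Γ := by
  classical
  have : FiniteDimensional ℝ V := FiniteDimensional.complexToReal V
  obtain ⟨R, hR⟩ := Pool.Agent.Y167.exists_op hA.herm hp hH.herm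
  have hR' : ∀ v w, A (R v) w = H v w := fun v w => (hR v w).symm
  have hext : ∀ v w : V, (∀ u, A v u = A w u) → v = w := by
    intro v w h
    rw [← sub_eq_zero]
    by_contra hne
    have h1 := hp _ hne
    rw [h_sub_left hA.herm, h, sub_self, Complex.zero_re] at h1
    exact lt_irrefl _ h1
  obtain ⟨a, ha, hAi⟩ := hA.rat
  obtain ⟨k, hk, hHi⟩ := hH.rat
  obtain ⟨r, bas, hbas⟩ := Pool.Agent.Y167.basis_of_discrete (latt Γ) hΓ.discrete hΓ.span_top
  have hbm : ∀ i, bas i ∈ latt Γ := by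
    intro i
    rw [hbas]
    intro j
    rw [Module.Basis.repr_self, Finsupp.single_apply]
    by_cases h : i = j
    · exact ⟨1, by rw [if_pos h]; simp⟩
    · exact ⟨0, by rw [if_neg h]; simp⟩
  let J : Matrix (Fin r) (Fin r) ℝ := fun i j => (a : ℝ) * (A (bas j) (bas i)).im
  have hJ : ∀ i j, ∃ n : ℤ, J i j = n := fun i j => hAi _ (hbm j) _ (hbm i)
  have hsm : ∀ (c : ℝ) (v w : V), (A (c • v) w).im = c * (A v w).im := by
    intro c v w
    rw [← Complex.coe_smul, hA.herm.smul_left, Complex.im_ofReal_mul]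
  have hsum : ∀ (v : Fin r → ℝ) (w : V), (A (∑ j, v j • bas j) w).im =
      ∑ j, v j * (A (bas j) w).im := by
    intro v w
    let f : V →ₗ[ℝ] ℝ :=
      { toFun := fun x => (A x w).im
        map_add' := fun x y => by rw [hA.herm.add_left, Complex.add_im]
        map_smul' := fun c x => by rw [hsm, RingHom.id_apply, smul_eq_mul] }
    have hf : ∀ x, f x = (A x w).im := fun _ => rfl
    rw [← hf, map_sum]
    refine Finset.sum_congr rfl fun j _ => ?_
    rw [map_smul, smul_eq_mul, hf]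
  have hmul : ∀ (v : Fin r → ℝ) (i : Fin r),
      (J.mulVec v) i = (a : ℝ) * (A (∑ j, v j • bas j) (bas i)).im := by
    intro v i
    rw [hsum, Finset.mul_sum]
    change ∑ j, J i j * v j = _
    refine Finset.sum_congr rfl fun j _ => ?_
    change (a : ℝ) * (A (bas j) (bas i)).im * v j = _
    ring
  have ha0 : (a : ℝ) ≠ 0 := by exact_mod_cast ha.ne'
  have him : ∀ v : V, (∀ i, (A v (bas i)).im = 0) → v = 0 := by
    intro v hv
    have h1 : ∀ w, (A v w).im = 0 := by
      intro w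
      let f : V →ₗ[ℝ] ℝ :=
        { toFun := fun x => (A v x).im
          map_add' := fun x y => by rw [h_add_right hA.herm, Complex.add_im]
          map_smul' := fun c x => by
            rw [← Complex.coe_smul, h_smul_right hA.herm, Complex.conj_ofReal,
              Complex.im_ofReal_mul, RingHom.id_apply, smul_eq_mul] }
      have hf : f = 0 := bas.ext fun i => hv i
      exact LinearMap.congr_fun hf w
    by_contra hne
    have h2 := hp v hne
    have h3 := h1 (Complex.I • v)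
    rw [h_smul_right hA.herm, Complex.conj_I] at h3
    simp only [neg_mul, Complex.neg_im, Complex.mul_im, Complex.I_re, Complex.I_im, zero_mul,
      one_mul, zero_add, neg_eq_zero] at h3
    linarith
  have hinj : ∀ v, J.mulVec v = 0 → v = 0 := by
    intro v hv
    have h1 : ∑ j, v j • bas j = 0 := by
      apply him
      intro i
      have h2 := congrFun hv i
      rw [hmul] at h2
      exact (mul_eq_zero.1 h2).resolve_left ha0
    have h3 := Fintype.linearIndependent_iff.1 bas.linearIndependent v h1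
    funext j
    exact h3 j
  obtain ⟨N, hN, hNi⟩ := Pool.Agent.Y167.int_adj J hJ hinj
  refine ⟨R, N * k, by positivity, hR', ?_, ?_⟩
  · intro γ hγ v
    apply hext
    intro u
    obtain ⟨w, rfl⟩ := γ.linear.surjective u
    rw [hR', hH.inv γ hγ, hA.inv γ hγ, hR']
  · intro x hx
    rw [hbas]
    have h1 : ∀ i, ∃ n : ℤ, (J.mulVec fun j => (k : ℝ) * bas.repr (R x) j) i = n := by
      intro i
      rw [hmul]
      have h2 : ∑ j, ((k : ℝ) * bas.repr (R x) j) • bas j = (k : ℝ) • R x := by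
        conv_rhs => rw [← bas.sum_repr (R x)]
        rw [Finset.smul_sum]
        refine Finset.sum_congr rfl fun j _ => ?_
        rw [smul_smul]
      rw [h2, hsm, hR']
      obtain ⟨n, hn⟩ := hHi x hx _ (hbm i)
      refine ⟨a * n, ?_⟩
      rw [hn]
      push_cast
      ring
    intro i
    obtain ⟨n, hn⟩ := hNi _ h1 i
    refine ⟨n, ?_⟩
    rw [← hn, map_smul, Finsupp.smul_apply, smul_eq_mul]
    push_cast
    ring

end Pool.Agent.R189.SY
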