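import Pool.Agent.R893.TQ.Semi

/-!
# Minkowski's bound for the holonomy group of a torus quotient
-/

set_option autoImplicit false

namespace Pool.Agent.R189.SY

open Pool.Agent.W594.SYZ2 Pool.Agent.W594.SYZ2.TQ Pool.Agent.TH735.AQ

section Ring

variable {R : Type*} [Ring R]

theorem pow_one_add (B : R) : ∀ N : ℕ, ∃ C : R, (1 + B) ^ N = 1 + (N : ℤ) • B + B * B * C
  | 0 => ⟨0, by simp⟩
  | N + 1 => by
    obtain ⟨C, hC⟩ := pow_one_add B N
    refine ⟨(N : ℤ) • 1 + C * (1 + B), ?_⟩
    rw [pow_succ, hC]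
    simp only [zsmul_eq_mul, mul_add, add_mul, mul_one, one_mul, Int.cast_natCast, Nat.cast_add,
      Nat.cast_one, Nat.cast_succ, Int.cast_add, Int.cast_one]
    have h1 : B * B * (N : R) = (N : R) * B * B := by
      rw [← (Nat.cast_commute N (B * B)).eq, mul_assoc]
    simp only [mul_assoc] at h1 ⊢
    rw [h1]
    abel

/-- Minkowski's lemma: `1 + B`, `B ≡ 0 mod 3`, is not of finite order unless `B = 0`. -/
theorem mink_ring (hsep : ∀ x : R, (∀ k : ℕ, ∃ y, x = (3 ^ k : ℤ) • y) → x = 0)
    (htf : ∀ x y : R, (3 : ℤ) • x = (3 : ℤ) • y → x = y) : ∀ (N : ℕ), 0 < N → ∀ B : R,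
      (∃ C, B = (3 : ℤ) • C) → (1 + B) ^ N = 1 → B = 0 := by
  intro N
  induction N using Nat.strong_induction_on with
  | _ N ih =>
    intro hN B hB hp
    have hstep : (∀ k : ℕ, 1 ≤ k → (∃ y, B = (3 ^ k : ℤ) • y) → ∃ y, B = (3 ^ (k + 1) : ℤ) • y) →
        B = 0 := by
      intro hs
      apply hsep
      have h1 : ∀ k : ℕ, ∃ y, B = (3 ^ (k + 1) : ℤ) • y := by
        intro k
        induction k with
        | zero => obtain ⟨C, hC⟩ := hB; exact ⟨C, by rw [hC]; norm_num⟩
        | succ k ihk => exact hs (k + 1) (by omega) ihk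
      intro k
      obtain ⟨y, hy⟩ := h1 k
      refine ⟨(3 : ℤ) • y, ?_⟩
      rw [hy, smul_smul, pow_succ]
    by_cases h3 : 3 ∣ N
    · obtain ⟨N', rfl⟩ := h3
      have hN' : 0 < N' := by omega
      -- the cube is trivial
      have hcube : (1 + B) ^ 3 = 1 := by
        obtain ⟨C, hC⟩ := pow_one_add B 3
        have h4 : (1 + B) ^ 3 = 1 + ((3 : ℤ) • B + B * B * C) := by
          rw [hC]; push_cast; abel
        have h5 : (1 + ((3 : ℤ) • B + B * B * C)) ^ N' = 1 := by
          rw [← h4, ← pow_mul]; exact hp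
        have h6 : ∃ C', (3 : ℤ) • B + B * B * C = (3 : ℤ) • C' := by
          obtain ⟨D, hD⟩ := hB
          refine ⟨B + D * B * C, ?_⟩
          rw [smul_add]
          congr 1
          conv_lhs => rw [hD]
          simp only [smul_mul_assoc, mul_smul_comm]
          conv_rhs => rw [hD]
          simp only [smul_mul_assoc, mul_smul_comm]
        rw [h4, ih N' (by omega) hN' _ h6 h5, add_zero]
      apply hstep
      rintro k hk ⟨y, hy⟩
      have h7 : (3 : ℤ) • B = (3 : ℤ) • (-(B * B)) + -(B * B * B) := by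
        have h8 : (1 + B) ^ 3 = 1 + ((3 : ℤ) • B + (3 : ℤ) • (B * B) + B * B * B) := by
          simp only [zsmul_eq_mul]
          push_cast
          noncomm_ring
        rw [h8, add_eq_left] at hcube
        rw [smul_neg]
        rw [add_assoc] at hcube
        rw [eq_neg_of_add_eq_zero_left hcube]
        abel
      obtain ⟨j, rfl⟩ : ∃ j, k = j + 1 := ⟨k - 1, by omega⟩
      refine ⟨-((3 ^ j : ℤ) • (y * y)) + -((3 ^ (2 * j) : ℤ) • (y * y * y)), ?_⟩
      apply htf
      rw [h7]
      conv_lhs => rw [hy]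
      simp only [smul_mul_assoc, mul_smul_comm, smul_add, smul_neg, smul_smul]
      congr 2
      · congr 1
        ring
      · congr 1
        ring
    · apply hstep
      rintro k hk ⟨y, hy⟩
      obtain ⟨C, hC⟩ := pow_one_add B N
      rw [hp] at hC
      have h1 : (N : ℤ) • B = -(B * B * C) := by
        have : (N : ℤ) • B + B * B * C = 0 := by
          have h2 : (1 : R) + ((N : ℤ) • B + B * B * C) = 1 := by rw [← add_assoc]; exact hC.symm
          exact add_eq_left.1 h2
        exact eq_neg_of_add_eq_zero_left this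
      have h2 : IsCoprime (N : ℤ) (3 ^ (k + 1)) := by
        apply IsCoprime.pow_right
        rw [Int.isCoprime_iff_gcd_eq_one]
        have := (Nat.Prime.coprime_iff_not_dvd Nat.prime_three).2 h3
        have h5 := Nat.Coprime.symm this
        exact_mod_cast h5
      obtain ⟨a, b, hab⟩ := h2
      obtain ⟨j, rfl⟩ : ∃ j, k = j + 1 := ⟨k - 1, by omega⟩
      refine ⟨-(a • (3 ^ j : ℤ) • (y * y * C)) + b • B, ?_⟩
      have h3 : B = (a * N + b * 3 ^ (j + 1 + 1)) • B := by rw [hab, one_smul]
      have h4 : B * B * C = ((3 : ℤ) ^ (j + 1) * 3 ^ (j + 1)) • (y * y * C) := by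
        conv_lhs => rw [hy]
        simp only [smul_mul_assoc, mul_smul_comm, smul_smul]
      conv_lhs => rw [h3, add_smul, mul_smul, h1, h4]
      simp only [smul_add, smul_neg, smul_smul]
      congr 2
      · congr 1
        ring
      · ring
end Ring

theorem mink_matrix {n : Type*} [Fintype n] [DecidableEq n] {N : ℕ} (hN : 0 < N)
    (A : Matrix n n ℤ) (hA : A ^ N = 1) (h3 : ∀ i j, (3 : ℤ) ∣ (A - 1) i j) : A = 1 := by
  have h1 := mink_ring (R := Matrix n n ℤ) ?_ ?_ N hN (A - 1) ?_ (by rwa [add_sub_cancel])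
  · exact sub_eq_zero.1 h1
  · intro x hx
    ext i j
    rw [Matrix.zero_apply]
    obtain ⟨k, hk⟩ := pow_unbounded_of_one_lt (|x i j|) (by norm_num : (1 : ℤ) < 3)
    obtain ⟨y, hy⟩ := hx k
    refine Int.eq_zero_of_abs_lt_dvd (m := 3 ^ k) ?_ hk
    rw [hy, Matrix.smul_apply, smul_eq_mul]
    exact dvd_mul_right _ _
  · intro x y hxy
    ext i j
    have := congrFun (congrFun hxy i) j
    rw [Matrix.smul_apply, Matrix.smul_apply, smul_eq_mul, smul_eq_mul] at this
    omega
  · choose C hC using h3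
    exact ⟨Matrix.of C, by ext i j; rw [Matrix.smul_apply, hC i j, smul_eq_mul, Matrix.of_apply]⟩

variable {V : Type*} [NormedAddCommGroup V] [NormedSpace ℂ V] {Γ : Subgroup (V ≃ᵃ[ℂ] V)}

theorem lin_latt (g : Lin Γ) {b : V} (hb : b ∈ latt Γ) : g.1 b ∈ latt Γ := by
  obtain ⟨g, γ, hγ, rfl⟩ := g
  exact latt_inv γ hγ hb

/-- The action of the holonomy group on the lattice. -/
noncomputable def rho (Γ : Subgroup (V ≃ᵃ[ℂ] V)) :
    Lin Γ →* ((latt Γ).toIntSubmodule →ₗ[ℤ] (latt Γ).toIntSubmodule) where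
  toFun g := ((g.1 : V →ₗ[ℂ] V).restrictScalars ℤ).restrict
    (fun x hx => lin_latt g (b := x) hx)
  map_one' := by ext x; rfl
  map_mul' g h := by ext x; rfl

theorem rho_apply (g : Lin Γ) (x : (latt Γ).toIntSubmodule) : ((rho Γ g x : V)) = g.1 x := rfl

variable [FiniteDimensional ℂ V]

/-- The order of the holonomy group divides the order of a finite linear group which only depends on
the dimension. -/
theorem card_lin_dvd (hΓ : IsTorusQuotient Γ) :
    Nat.card (Lin Γ) ∣ Nat.card (Matrix (Fin (2 * Module.finrank ℂ V))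
      (Fin (2 * Module.finrank ℂ V)) (ZMod 3))ˣ := by
  classical
  have := finite_Lin hΓ
  have : FiniteDimensional ℝ V := FiniteDimensional.complexToReal V
  set L : Submodule ℤ V := (latt Γ).toIntSubmodule with hL
  have hd : DiscreteTopology L := hΓ.discrete
  have hz : IsZLattice ℝ L := ⟨hΓ.span_top⟩
  have hfree : Module.Free ℤ L := ZLattice.module_free ℝ L
  have hfin : Module.Finite ℤ L := ZLattice.module_finite ℝ L
  have hrank : Module.finrank ℤ L = 2 * Module.finrank ℂ V := by
    rw [ZLattice.rank ℝ L, finrank_real_of_complex]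
  let b : Module.Basis (Fin (2 * Module.finrank ℂ V)) ℤ L :=
    Module.finBasisOfFinrankEq ℤ L hrank
  let φ : Lin Γ →* Matrix (Fin (2 * Module.finrank ℂ V)) (Fin (2 * Module.finrank ℂ V)) (ZMod 3) :=
    ((Int.castRingHom (ZMod 3)).mapMatrix.toMonoidHom.comp
      ((LinearMap.toMatrixAlgEquiv b).toMulEquiv.toMonoidHom)).comp (rho Γ)
  have hinj : Function.Injective φ.toHomUnits := by
    rw [injective_iff_map_eq_one]
    intro g hg
    have h1 : φ g = 1 := by
      have := congrArg Units.val hg
      exact this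
    have hA : LinearMap.toMatrixAlgEquiv b (rho Γ g) = 1 := by
      refine mink_matrix (N := Nat.card (Lin Γ)) Nat.card_pos _ ?_ ?_
      · rw [← map_pow, ← map_pow, pow_card_eq_one', map_one, map_one]
      · intro i j
        have h2 := congrFun (congrFun h1 i) j
        change ((LinearMap.toMatrixAlgEquiv b (rho Γ g) i j : ℤ) : ZMod 3)
          = (1 : Matrix _ _ (ZMod 3)) i j at h2
        have h4 : (((LinearMap.toMatrixAlgEquiv b (rho Γ g) i j
            - (1 : Matrix _ _ ℤ) i j : ℤ)) : ZMod 3) = 0 := by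
          rw [Int.cast_sub, h2, Matrix.one_apply, Matrix.one_apply]
          split_ifs <;> simp
        have h5 := (ZMod.intCast_zmod_eq_zero_iff_dvd _ 3).1 h4
        exact_mod_cast h5
    have h2 : rho Γ g = 1 := by
      rw [← map_one (LinearMap.toMatrixAlgEquiv b)] at hA
      exact (LinearMap.toMatrixAlgEquiv b).injective hA
    apply Subtype.ext
    apply LinearEquiv.ext
    intro v
    have hv : v ∈ Submodule.span ℝ (latt Γ : Set V) := by rw [hΓ.span_top]; trivial
    change g.1 v = v
    induction hv using Submodule.span_induction with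
    | mem x hx =>
      have h3 := rho_apply g ⟨x, hx⟩
      rw [h2] at h3
      exact h3.symm
    | zero => simp
    | add x y _ _ hx hy => rw [map_add, hx, hy]
    | smul c x _ hx => rw [← Complex.coe_smul, map_smul, hx]
  exact Subgroup.card_dvd_of_injective _ hinj

end Pool.Agent.R189.SY
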