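import Pool.Agent.R189.SY.Rk
import Pool.Agent.R189.SY.Adp
import Pool.Agent.R893.TQ.Cls

/-!
# Rational invariant subspaces of a primitive symplectic torus quotient are kernels of rational classes
-/

set_option autoImplicit false

namespace Pool.Agent.R189.SY

open Pool.Agent.W594.SYZ2 Pool.Agent.W594.SYZ2.TQ Pool.Agent.TH735.AQ
open Pool.Agent.R893.TQ (IsRatClass)

variable {V : Type*} [NormedAddCommGroup V] [NormedSpace ℂ V] [FiniteDimensional ℂ V]
  {Γ : Subgroup (V ≃ᵃ[ℂ] V)} {s : V →ₗ[ℂ] V →ₗ[ℂ] ℂ}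

/-- An equivariant operator which is selfadjoint for the symplectic form is a scalar. -/
theorem Symp.scalar (S : Symp Γ s) (T : V →ₗ[ℂ] V)
    (hTe : ∀ γ ∈ Γ, ∀ v, T (γ.linear v) = γ.linear (T v))
    (hTs : ∀ w v, s w (T v) = s (T w) v) : ∃ c : ℂ, ∀ v, T v = c • v := by
  obtain ⟨c1, hc1⟩ := S.pull (LinearMap.id + T) (by
    intro γ hγ v
    rw [LinearMap.add_apply, LinearMap.add_apply, hTe γ hγ, LinearMap.id_apply,
      LinearMap.id_apply, map_add])
  obtain ⟨c2, hc2⟩ := S.pull (LinearMap.id - T) (by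
    intro γ hγ v
    rw [LinearMap.sub_apply, LinearMap.sub_apply, hTe γ hγ, LinearMap.id_apply,
      LinearMap.id_apply, map_sub])
  refine ⟨(c1 - c2) / 4, fun v => ?_⟩
  apply S.ext
  intro w
  have e1 := hc1 w v
  have e2 := hc2 w v
  simp only [LinearMap.add_apply, LinearMap.sub_apply, LinearMap.id_apply, map_add, map_sub,
    LinearMap.add_apply, LinearMap.sub_apply] at e1 e2
  rw [← hTs w v] at e1 e2
  rw [map_smul, smul_eq_mul]
  linear_combination (e1 - e2) / 4

/-- An invariant alternating form with a kernel is zero. -/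
theorem Symp.alt_zero (S : Symp Γ s) (τ : V →ₗ[ℂ] V →ₗ[ℂ] ℂ) (hsw : ∀ x y, τ x y = - τ y x)
    (hinv : ∀ γ ∈ Γ, ∀ x y, τ (γ.linear x) (γ.linear y) = τ x y) {k : V} (hk : k ≠ 0)
    (hk0 : ∀ y, τ k y = 0) (x y : V) : τ x y = 0 := by
  let T : V →ₗ[ℂ] V := S.fl.symm.toLinearMap ∘ₗ τ
  have hT : ∀ x w, s w (T x) = τ x w := by
    intro x w
    have h1 : S.fl (T x) = τ x := LinearEquiv.apply_symm_apply _ _
    exact LinearMap.congr_fun h1 w
  have hTe : ∀ γ ∈ Γ, ∀ v, T (γ.linear v) = γ.linear (T v) := by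
    intro γ hγ v
    apply S.ext
    intro w
    obtain ⟨u, rfl⟩ := γ.linear.surjective w
    rw [hT, hinv γ hγ, S.inv γ hγ, hT]
  have hTs : ∀ w v, s w (T v) = s (T w) v := by
    intro w v
    rw [hT, S.swap (T w) v, hT, hsw]
  obtain ⟨c, hc⟩ := S.scalar T hTe hTs
  have h0 : T k = 0 := by
    apply S.ext
    intro w
    rw [hT, hk0, map_zero]
  rw [hc] at h0
  have hc0 : c = 0 := (smul_eq_zero.1 h0).resolve_right hk
  rw [← hT, hc, hc0, zero_smul, map_zero]

/-- An invariant real alternating form whose kernel contains a complex line is of type `(1,1)`. -/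
theorem Symp.type11 (S : Symp Γ s) (F : V → V → ℝ) (hadd : ∀ x y z, F (x + y) z = F x z + F y z)
    (hsm : ∀ (c : ℝ) x y, F ((c : ℂ) • x) y = c * F x y) (hsw : ∀ x y, F x y = - F y x)
    (hinv : ∀ γ ∈ Γ, ∀ x y, F (γ.linear x) (γ.linear y) = F x y) {k : V} (hk : k ≠ 0)
    (hk0 : ∀ y, F k y = 0) (hk1 : ∀ y, F (Complex.I • k) y = 0) (x y : V) :
    F (Complex.I • x) (Complex.I • y) = F x y := by
  have hadd' : ∀ x y z, F x (y + z) = F x y + F x z := by
    intro x y z
    rw [hsw, hadd, hsw y x, hsw z x]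
    ring
  have hsm' : ∀ (c : ℝ) x y, F x ((c : ℂ) • y) = c * F x y := by
    intro c x y
    rw [hsw, hsm, hsw y x]
    ring
  have hneg : ∀ x y, F (-x) y = - F x y := by
    intro x y
    have := hsm (-1) x y
    rw [Complex.ofReal_neg, Complex.ofReal_one, neg_one_smul] at this
    rw [this]
    ring
  have hneg' : ∀ x y, F x (-y) = - F x y := by
    intro x y
    rw [hsw, hneg, hsw y x, neg_neg]
  have hII : ∀ x : V, Complex.I • Complex.I • x = -x := by
    intro x
    rw [smul_smul, Complex.I_mul_I, neg_one_smul]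
  let t : V → V → ℂ := fun x y => ((F x y - F (Complex.I • x) (Complex.I • y) : ℝ) : ℂ)
    - Complex.I * ((F (Complex.I • x) y + F x (Complex.I • y) : ℝ) : ℂ)
  have ht : ∀ x y, t x y = ((F x y - F (Complex.I • x) (Complex.I • y) : ℝ) : ℂ)
    - Complex.I * ((F (Complex.I • x) y + F x (Complex.I • y) : ℝ) : ℂ) := fun _ _ => rfl
  have hts : ∀ x y, t x y = - t y x := by
    intro x y
    rw [ht, ht, hsw x y, hsw (Complex.I • x) (Complex.I • y), hsw (Complex.I • x) y,
      hsw x (Complex.I • y)]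
    push_cast
    ring
  have hta : ∀ x y z, t (x + y) z = t x z + t y z := by
    intro x y z
    rw [ht, ht, ht, smul_add, hadd, hadd, hadd, hadd]
    push_cast
    ring
  have htr : ∀ (c : ℝ) x y, t ((c : ℂ) • x) y = (c : ℂ) * t x y := by
    intro c x y
    rw [ht, ht, smul_comm Complex.I (c : ℂ) x, hsm, hsm, hsm, hsm]
    push_cast
    ring
  have htI : ∀ x y, t (Complex.I • x) y = Complex.I * t x y := by
    intro x y
    rw [ht, ht, hII, hneg, hneg]
    push_cast
    linear_combination ((F (Complex.I • x) y + F x (Complex.I • y) : ℂ)) * Complex.I_mul_I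
  have htc : ∀ (c : ℂ) x y, t (c • x) y = c * t x y := by
    intro c x y
    have e1 : c • x = (c.re : ℂ) • x + (c.im : ℂ) • (Complex.I • x) := by
      rw [smul_smul, ← add_smul, Complex.re_add_im]
    rw [e1, hta, htr, htr, htI]
    conv_rhs => rw [← Complex.re_add_im c]
    ring
  let τ : V →ₗ[ℂ] V →ₗ[ℂ] ℂ := LinearMap.mk₂ ℂ t hta (fun c x y => by rw [htc, smul_eq_mul])
    (fun x y z => by rw [hts, hta, hts y x, hts z x]; ring)
    (fun c x y => by rw [hts, htc, hts y x, smul_eq_mul]; ring)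
  have hτ : ∀ x y, τ x y = t x y := fun _ _ => rfl
  have h0 := S.alt_zero τ (fun x y => by rw [hτ, hτ, hts]) (fun γ hγ x y => by
    rw [hτ, hτ, ht, ht, ← map_smul, ← map_smul, hinv γ hγ, hinv γ hγ, hinv γ hγ, hinv γ hγ]) hk
    (fun y => by
      rw [hτ, ht, hk0, hk0, hk1, hk1]
      simp) x y
  rw [hτ, ht] at h0
  have h1 := congrArg Complex.re h0
  simp only [Complex.sub_re, Complex.mul_re, Complex.I_re, Complex.I_im, Complex.ofReal_re,
    Complex.ofReal_im, Complex.zero_re] at h1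
  linarith

omit [FiniteDimensional ℂ V] in
/-- The hermitian form of a real alternating form of type `(1,1)`. -/
theorem herm_of_type11 (F : V → V → ℝ) (hadd : ∀ x y z, F (x + y) z = F x z + F y z)
    (hsm : ∀ (c : ℝ) x y, F ((c : ℂ) • x) y = c * F x y) (hsw : ∀ x y, F x y = - F y x)
    (h11 : ∀ x y, F (Complex.I • x) (Complex.I • y) = F x y) :
    IsHermitian (fun x y => (F (Complex.I • x) y : ℂ) + Complex.I * (F x y : ℂ)) := by
  have hneg : ∀ x y, F (-x) y = - F x y := by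
    intro x y
    have := hsm (-1) x y
    rw [Complex.ofReal_neg, Complex.ofReal_one, neg_one_smul] at this
    rw [this]
    ring
  have hII : ∀ x : V, Complex.I • Complex.I • x = -x := by
    intro x
    rw [smul_smul, Complex.I_mul_I, neg_one_smul]
  refine ⟨fun u v w => ?_, fun a v w => ?_, fun v w => ?_⟩
  · rw [smul_add, hadd, hadd]
    push_cast
    ring
  · have e1 : a • v = (a.re : ℂ) • v + (a.im : ℂ) • (Complex.I • v) := by
      rw [smul_smul, ← add_smul, Complex.re_add_im]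
    have e2 : Complex.I • a • v = (a.re : ℂ) • (Complex.I • v) + (a.im : ℂ) • (-v) := by
      rw [e1, smul_add, smul_comm Complex.I, smul_comm Complex.I (a.im : ℂ), hII]
    rw [e2, e1, hadd, hadd, hsm, hsm, hsm, hsm, hneg]
    conv_rhs => rw [← Complex.re_add_im a]
    push_cast
    linear_combination (-(a.im : ℂ) * F v w) * Complex.I_mul_I
  · have e1 : F (Complex.I • w) v = F (Complex.I • v) w := by
      rw [← h11, hII, hneg, hsw, neg_neg]
    rw [e1, hsw w v, map_add, map_mul, Complex.conj_ofReal, Complex.conj_I, Complex.conj_ofReal]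
    push_cast
    ring

/-- An invariant complex subspace which is spanned by lattice vectors is the kernel of a nef rational
class. -/
theorem exists_pol (hΓ : IsPrimitiveSymplectic Γ) (K : Submodule ℂ V)
    (hK : ∀ γ ∈ Γ, ∀ v ∈ K, γ.linear v ∈ K) (h0 : K ≠ ⊥)
    (hsp : Submodule.span ℝ {b | b ∈ latt Γ ∧ b ∈ K} = K.restrictScalars ℝ) :
    ∃ H, IsRatClass Γ H ∧ IsNefForm H ∧ ∀ v, v ∈ K ↔ ∀ w, H v w = 0 := by
  classical
  have hfinL := finite_Lin hΓ.torus
  have : Fintype (Lin Γ) := Fintype.ofFinite _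
  have : FiniteDimensional ℝ V := FiniteDimensional.complexToReal V
  obtain ⟨s, S⟩ := exists_symp hΓ
  obtain ⟨K0, hK0⟩ := exists_kahler hΓ.torus
  obtain ⟨P, hPK, hPk, hPe⟩ := exists_proj hΓ.torus K hK
  let H0 : V → V → ℂ := fun v w => K0.1 (v - P v) (w - P w)
  have hH0d : ∀ v w, H0 v w = K0.1 (v - P v) (w - P w) := fun _ _ => rfl
  have hH0 : IsHermitian H0 := by
    refine ⟨fun u v w => ?_, fun a v w => ?_, fun v w => ?_⟩
    · rw [hH0d, hH0d, hH0d, ← K0.2.1.add_left, map_add]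
      have e : u + v - (P u + P v) = u - P u + (v - P v) := by abel
      rw [e]
    · rw [hH0d, hH0d, ← K0.2.1.smul_left, map_smul, smul_sub]
    · exact K0.2.1.symm _ _
  have hH0i : ∀ γ ∈ Γ, ∀ v w, H0 (γ.linear v) (γ.linear w) = H0 v w := by
    intro γ hγ v w
    rw [hH0d, hH0d, hPe γ hγ, hPe γ hγ, ← map_sub, ← map_sub, K0.2.2 γ hγ]
  have hH0k : ∀ x ∈ K, ∀ y, H0 x y = 0 := by
    intro x hx y
    rw [hH0d, hPk x hx, sub_self, h_zero_left K0.2.1]
  let F0 : V → V → ℝ := fun v w => (H0 v w).im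
  have hF0d : ∀ v w, F0 v w = (H0 v w).im := fun _ _ => rfl
  have hF0a : ∀ x y z, F0 (x + y) z = F0 x z + F0 y z := by
    intro x y z
    rw [hF0d, hF0d, hF0d, hH0.add_left, Complex.add_im]
  have hF0s : ∀ (c : ℝ) x y, F0 (c • x) y = c * F0 x y := by
    intro c x y
    rw [hF0d, hF0d, ← Complex.coe_smul, hH0.smul_left, Complex.im_ofReal_mul]
  have hF0w : ∀ x y, F0 x y = - F0 y x := by
    intro x y
    rw [hF0d, hF0d, hH0.symm y x, Complex.conj_im]
  obtain ⟨I, t, hft, b, hb, htΛ, hIu, hbI⟩ := exists_adapted (latt Γ : Set V)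
    {b | b ∈ latt Γ ∧ b ∈ K} hΓ.torus.span_top (fun x hx => hx.1)
  rw [hsp] at hbI
  obtain ⟨D, hD, hden⟩ := bounded_den (latt Γ) hΓ.torus.discrete hΓ.torus.span_top b
    (fun i => by rw [hb]; exact htΛ i.2)
  let β : Lin Γ → t → (V →ₗ[ℝ] ℝ) := fun g i =>
    (b.coord i) ∘ₗ ((g.1 : V →ₗ[ℂ] V).restrictScalars ℝ)
  have hβ : ∀ g i x, β g i x = b.repr (g.1 x) i := fun _ _ _ => rfl
  -- bounds
  let Bd : Lin Γ → t → ℝ := fun g i => ‖LinearMap.toContinuousLinearMap (β g i)‖
  have hBd : ∀ g i x, |β g i x| ≤ Bd g i * ‖x‖ := fun g i x =>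
    (LinearMap.toContinuousLinearMap (β g i)).le_opNorm x
  have hBd0 : ∀ g i, 0 ≤ Bd g i := fun g i => norm_nonneg _
  let C : ℝ := ∑ g, ∑ i, ∑ j, Bd g i * Bd g j
  obtain ⟨c, hc, hcoer⟩ := Pool.Agent.Y167.coercive K0.2.1 (LinearMap.ker P)
    (fun v _ hv => hK0 v hv)
  obtain ⟨M, hM⟩ := exists_nat_gt (C / (2 * c))
  have hMc : C < 2 * M * c := by
    rw [div_lt_iff₀ (by positivity)] at hM
    linarith
  let r : t → t → ℤ := fun i j => ⌊(M : ℝ) * F0 (b i) (b j)⌋ - ⌊(M : ℝ) * F0 (b j) (b i)⌋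
  have hrd : ∀ i j, r i j = ⌊(M : ℝ) * F0 (b i) (b j)⌋ - ⌊(M : ℝ) * F0 (b j) (b i)⌋ :=
    fun _ _ => rfl
  have hrw : ∀ i j, r i j = - r j i := fun i j => by rw [hrd, hrd]; ring
  have hrn : ∀ i j, |(r i j : ℝ) - 2 * M * F0 (b i) (b j)| ≤ 1 := by
    intro i j
    rw [hrd]
    have e : (M : ℝ) * F0 (b j) (b i) = -((M : ℝ) * F0 (b i) (b j)) := by
      rw [hF0w (b j) (b i)]
      ring
    rw [e]
    set a := (M : ℝ) * F0 (b i) (b j)
    have a1 := Int.floor_le a
    have a2 := Int.lt_floor_add_one a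
    have a3 := Int.floor_le (-a)
    have a4 := Int.lt_floor_add_one (-a)
    have a5 : 2 * (M : ℝ) * F0 (b i) (b j) = 2 * a := by ring
    rw [a5, abs_le]
    push_cast
    constructor <;> linarith
  let F : V → V → ℝ := fun x y => ∑ g, ∑ i, ∑ j, (r i j : ℝ) * (β g i x * β g j y)
  have hFd : ∀ x y, F x y = ∑ g, ∑ i, ∑ j, (r i j : ℝ) * (β g i x * β g j y) := fun _ _ => rfl
  have hFa : ∀ x y z, F (x + y) z = F x z + F y z := by
    intro x y z
    simp only [hFd, map_add, add_mul, mul_add, Finset.sum_add_distrib]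
  have hFs : ∀ (a : ℝ) x y, F ((a : ℂ) • x) y = a * F x y := by
    intro a x y
    simp only [hFd, Complex.coe_smul, map_smul, smul_eq_mul, Finset.mul_sum]
    refine Finset.sum_congr rfl fun g _ => Finset.sum_congr rfl fun i _ =>
      Finset.sum_congr rfl fun j _ => ?_
    ring
  have hFw : ∀ x y, F x y = - F y x := by
    intro x y
    simp only [hFd]
    rw [← Finset.sum_neg_distrib]
    refine Finset.sum_congr rfl fun g _ => ?_
    rw [Finset.sum_comm, ← Finset.sum_neg_distrib]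
    refine Finset.sum_congr rfl fun i _ => ?_
    rw [← Finset.sum_neg_distrib]
    refine Finset.sum_congr rfl fun j _ => ?_
    rw [hrw j i]
    push_cast
    ring
  have hFi : ∀ γ ∈ Γ, ∀ x y, F (γ.linear x) (γ.linear y) = F x y := by
    intro γ hγ x y
    simp only [hFd]
    let h : Lin Γ := ⟨γ.linear, γ, hγ, rfl⟩
    exact Fintype.sum_equiv (Equiv.mulRight h) _ _ fun g => rfl
  have hgK : ∀ (g : Lin Γ), ∀ x ∈ K, g.1 x ∈ K := by
    rintro ⟨g, γ, hγ, rfl⟩ x hx
    exact hK γ hγ x hx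
  have hFk : ∀ x ∈ K, ∀ y, F x y = 0 := by
    intro x hx y
    rw [hFd]
    refine Finset.sum_eq_zero fun g _ => Finset.sum_eq_zero fun i _ =>
      Finset.sum_eq_zero fun j _ => ?_
    by_cases hi : i.1 ∈ I
    · have hbK : b i ∈ K := by
        rw [hb]
        exact (hIu hi).2
      have e1 : F0 (b i) (b j) = 0 := by rw [hF0d, hH0k _ hbK, Complex.zero_im]
      have e2 : F0 (b j) (b i) = 0 := by rw [hF0w, e1, neg_zero]
      have : r i j = 0 := by rw [hrd, e1, e2, sub_self]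
      rw [this]
      simp
    · have : β g i x = 0 := hbI (g.1 x) (hgK g x hx) i hi
      rw [this]
      ring
  -- expansion of F0
  let BL : V →ₗ[ℝ] V →ₗ[ℝ] ℝ := LinearMap.mk₂ ℝ F0 hF0a (fun c x y => hF0s c x y)
    (fun x y z => by rw [hF0w, hF0a, hF0w y x, hF0w z x]; ring)
    (fun c x y => by rw [hF0w, hF0s, hF0w y x, smul_eq_mul]; ring)
  have hBL : ∀ x y, BL x y = F0 x y := fun _ _ => rfl
  have hexp : ∀ x y, F0 x y = ∑ i, ∑ j, F0 (b i) (b j) * (b.repr x i * b.repr y j) := by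
    intro x y
    rw [← hBL x y]
    conv_lhs => rw [← b.sum_repr x, ← b.sum_repr y]
    simp only [map_sum, LinearMap.sum_apply, map_smul, LinearMap.smul_apply, smul_eq_mul, hBL,
      Finset.mul_sum]
    rw [Finset.sum_comm]
    refine Finset.sum_congr rfl fun i _ => Finset.sum_congr rfl fun j _ => ?_
    ring
  have hexpg : ∀ (g : Lin Γ) x y, F0 x y = ∑ i, ∑ j, F0 (b i) (b j) * (β g i x * β g j y) := by
    rintro ⟨g, γ, hγ, rfl⟩ x y
    have e : F0 x y = F0 (γ.linear x) (γ.linear y) := by rw [hF0d, hF0d, hH0i γ hγ]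
    rw [e, hexp]
    rfl
  have hnear : ∀ x y, |F x y - 2 * M * (Fintype.card (Lin Γ)) * F0 x y| ≤
      ∑ g, ∑ i, ∑ j, |β g i x| * |β g j y| := by
    intro x y
    have e1 : F x y - 2 * M * (Fintype.card (Lin Γ)) * F0 x y =
        ∑ g, ∑ i, ∑ j, ((r i j : ℝ) - 2 * M * F0 (b i) (b j)) * (β g i x * β g j y) := by
      have e2 : 2 * M * (Fintype.card (Lin Γ) : ℝ) * F0 x y =
          ∑ g : Lin Γ, ∑ i, ∑ j, (2 * M * F0 (b i) (b j)) * (β g i x * β g j y) := by
        have e3 : ∀ g : Lin Γ, ∑ i, ∑ j, (2 * M * F0 (b i) (b j)) * (β g i x * β g j y) =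
            2 * M * F0 x y := by
          intro g
          rw [hexpg g x y, Finset.mul_sum]
          refine Finset.sum_congr rfl fun i _ => ?_
          rw [Finset.mul_sum]
          refine Finset.sum_congr rfl fun j _ => ?_
          ring
        rw [Finset.sum_congr rfl fun g _ => e3 g, Finset.sum_const, Finset.card_univ, nsmul_eq_mul]
        ring
      rw [e2, hFd, ← Finset.sum_sub_distrib]
      refine Finset.sum_congr rfl fun g _ => ?_
      rw [← Finset.sum_sub_distrib]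
      refine Finset.sum_congr rfl fun i _ => ?_
      rw [← Finset.sum_sub_distrib]
      refine Finset.sum_congr rfl fun j _ => ?_
      ring
    rw [e1]
    refine (Finset.abs_sum_le_sum_abs _ _).trans (Finset.sum_le_sum fun g _ => ?_)
    refine (Finset.abs_sum_le_sum_abs _ _).trans (Finset.sum_le_sum fun i _ => ?_)
    refine (Finset.abs_sum_le_sum_abs _ _).trans (Finset.sum_le_sum fun j _ => ?_)
    rw [abs_mul, abs_mul]
    calc _ ≤ 1 * (|β g i x| * |β g j y|) := mul_le_mul_of_nonneg_right (hrn i j) (by positivity)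
      _ = _ := one_mul _
  have hCx : ∀ x, ∑ g, ∑ i, ∑ j, |β g i (Complex.I • x)| * |β g j x| ≤ C * ‖x‖ ^ 2 := by
    intro x
    have hn : ‖Complex.I • x‖ = ‖x‖ := by rw [norm_smul, Complex.norm_I, one_mul]
    simp only [C, Finset.sum_mul]
    refine Finset.sum_le_sum fun g _ => Finset.sum_le_sum fun i _ =>
      Finset.sum_le_sum fun j _ => ?_
    have a1 := hBd g i (Complex.I • x)
    rw [hn] at a1
    have a2 := hBd g j x
    calc |β g i (Complex.I • x)| * |β g j x| ≤ (Bd g i * ‖x‖) * (Bd g j * ‖x‖) :=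
          mul_le_mul a1 a2 (abs_nonneg _) (mul_nonneg (hBd0 g i) (norm_nonneg _))
      _ = Bd g i * Bd g j * ‖x‖ ^ 2 := by ring
  -- type (1,1)
  obtain ⟨k, hkK, hk0⟩ := (Submodule.ne_bot_iff K).1 h0
  have h11 := S.type11 F hFa hFs hFw hFi hk0 (hFk k hkK) (hFk _ (K.smul_mem _ hkK))
  have hHh := herm_of_type11 F hFa hFs hFw h11
  set H : V → V → ℂ := fun x y => (F (Complex.I • x) y : ℂ) + Complex.I * (F x y : ℂ) with hHdef
  have hHd : ∀ x y, H x y = (F (Complex.I • x) y : ℂ) + Complex.I * (F x y : ℂ) := fun _ _ => rfl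
  have hHre : ∀ x y, (H x y).re = F (Complex.I • x) y := by
    intro x y
    rw [hHd]
    simp
  have hHim : ∀ x y, (H x y).im = F x y := by
    intro x y
    rw [hHd]
    simp
  have hHk : ∀ x ∈ K, ∀ y, H x y = 0 := by
    intro x hx y
    rw [hHd, hFk _ (K.smul_mem _ hx), hFk x hx]
    simp
  -- positivity on ker P
  have hposP : ∀ w, P w = 0 → w ≠ 0 → 0 < (H w w).re := by
    intro w hw hw0
    rw [hHre]
    have a1 := hnear (Complex.I • w) w
    have a2 := hCx w
    have a3 := abs_le.1 (a1.trans a2)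
    have a4 : F0 (Complex.I • w) w = (K0.1 w w).re := by
      rw [hF0d, hH0.smul_left, hH0d, hw, sub_zero]
      simp
    have a5 := hcoer w hw
    have a6 : (1 : ℝ) ≤ Fintype.card (Lin Γ) := by
      exact_mod_cast Fintype.card_pos
    have a7 : 0 < ‖w‖ ^ 2 := by
      have := norm_pos_iff.2 hw0
      positivity
    rw [a4] at a3
    have a8 : C * ‖w‖ ^ 2 < 2 * M * (Fintype.card (Lin Γ)) * (K0.1 w w).re := by
      have a9 : 0 < (K0.1 w w).re := lt_of_lt_of_le (by positivity) a5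
      calc C * ‖w‖ ^ 2 < 2 * M * c * ‖w‖ ^ 2 := mul_lt_mul_of_pos_right hMc a7
        _ = 2 * M * (c * ‖w‖ ^ 2) := by ring
        _ ≤ 2 * M * (K0.1 w w).re := mul_le_mul_of_nonneg_left a5 (by positivity)
        _ = 2 * M * 1 * (K0.1 w w).re := by ring
        _ ≤ 2 * M * (Fintype.card (Lin Γ)) * (K0.1 w w).re :=
          mul_le_mul_of_nonneg_right (mul_le_mul_of_nonneg_left a6 (by positivity)) a9.le
    linarith [a3.1]
  have hdiag : ∀ v, (H v v).re = (H (v - P v) (v - P v)).re := by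
    intro v
    have e : v = (v - P v) + P v := by abel
    conv_lhs => rw [e]
    rw [hHh.add_left, hHk _ (hPK v), add_zero, h_add_right hHh,
      h_ker_right hHh (fun w => hHk _ (hPK v) w), add_zero]
  refine ⟨H, ⟨hHh, ?_, ⟨D ^ 2, by positivity, ?_⟩⟩, ?_, ?_⟩
  · intro γ hγ v w
    rw [hHd, hHd, ← map_smul, hFi γ hγ, hFi γ hγ]
  · intro x hx y hy
    have hint : ∀ z ∈ latt Γ, ∀ (g : Lin Γ) (i : t), ∃ n : ℤ, (D : ℝ) * β g i z = n := by
      rintro z hz ⟨g, γ, hγ, rfl⟩ i
      exact hden _ (latt_inv γ hγ hz) i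
    choose nx hnx using hint x hx
    choose ny hny using hint y hy
    refine ⟨∑ g, ∑ i, ∑ j, r i j * (nx g i * ny g j), ?_⟩
    rw [hHim, hFd]
    push_cast
    rw [Finset.mul_sum]
    refine Finset.sum_congr rfl fun g _ => ?_
    rw [Finset.mul_sum]
    refine Finset.sum_congr rfl fun i _ => ?_
    rw [Finset.mul_sum]
    refine Finset.sum_congr rfl fun j _ => ?_
    rw [← hnx, ← hny]
    ring
  · intro v
    rw [hdiag]
    by_cases hv : v - P v = 0
    · rw [hv, h_zero_left hHh]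
      simp
    · refine (hposP _ ?_ hv).le
      rw [map_sub, hPk _ (hPK v), sub_self]
  · intro v
    refine ⟨hHk v, fun h => ?_⟩
    by_contra hv
    have hv' : v - P v ≠ 0 := by
      intro e
      rw [sub_eq_zero] at e
      rw [e] at hv
      exact hv (hPK v)
    have a := hposP _ (by rw [map_sub, hPk _ (hPK v), sub_self]) hv'
    rw [← hdiag, h v, Complex.zero_re] at a
    exact lt_irrefl _ a

end Pool.Agent.R189.SY
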