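import Pool.Agent.R189.SY.BBF

/-!
# The dimension of `H^{1,1}` of a primitive symplectic torus quotient
-/

set_option autoImplicit false

namespace Pool.Agent.R189.SY

open Pool.Agent.W594.SYZ2 Pool.Agent.W594.SYZ2.TQ Pool.Agent.TH735.AQ

/-- A space with a bilinear form and a complete orthogonal family. -/
theorem finrank_frame {M : Type*} [AddCommGroup M] [Module ℝ M] (B : M →ₗ[ℝ] M →ₗ[ℝ] ℝ) {m : ℕ}
    (e : Fin m → M) (ho : ∀ i j, i ≠ j → B (e i) (e j) = 0) (hd : ∀ i, B (e i) (e i) ≠ 0)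
    (hnd : ∀ x, (∀ i, B (e i) x = 0) → x = 0) : Module.finrank ℝ M = m := by
  classical
  let f : M →ₗ[ℝ] (Fin m → ℝ) := LinearMap.pi fun i => B (e i)
  have hf : ∀ x i, f x i = B (e i) x := fun _ _ => rfl
  have hinj : Function.Injective f := by
    rw [← LinearMap.ker_eq_bot, LinearMap.ker_eq_bot']
    intro x hx
    exact hnd x fun i => congrFun hx i
  have hsurj : Function.Surjective f := by
    intro c
    refine ⟨∑ j, (c j / B (e j) (e j)) • e j, ?_⟩
    funext i
    rw [hf, map_sum, Finset.sum_eq_single i]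
    · rw [map_smul, smul_eq_mul, div_mul_cancel₀ _ (hd i)]
    · intro j _ hji
      rw [map_smul, ho i j (Ne.symm hji), smul_zero]
    · intro h
      exact absurd (Finset.mem_univ i) h
  rw [(LinearEquiv.ofBijective f ⟨hinj, hsurj⟩).finrank_eq, Module.finrank_fin_fun]

variable {V : Type*} [NormedAddCommGroup V] [NormedSpace ℂ V] [FiniteDimensional ℂ V]
  {Γ : Subgroup (V ≃ᵃ[ℂ] V)} {s : V →ₗ[ℂ] V →ₗ[ℂ] ℂ}

section Rk

variable (S : Symp Γ s) {x₀ y₀ : V} (h1 : s x₀ y₀ = 1)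

theorem Symp.J_neg (H : H11 Γ) (v : V) : S.J H (-v) = - S.J H v := by
  have := S.J_smul H (-1) v
  rw [neg_one_smul, map_neg, map_one, neg_one_smul] at this
  exact this

include h1 in
theorem Symp.J_polar (H K : H11 Γ) (v : V) : S.J H (S.J K v) + S.J K (S.J H v) =
    ((-(QuadraticMap.polar (S.q x₀ y₀) H K) : ℝ) : ℂ) • v := by
  have e1 := S.J_q h1 (H + K) v
  rw [S.J_add_left, S.J_add_left, S.J_add, S.J_add, S.J_q h1 H, S.J_q h1 K] at e1
  have e2 : S.J H (S.J K v) + S.J K (S.J H v) = ((-(S.q x₀ y₀ (H + K)) : ℝ) : ℂ) • v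
      - ((-(S.q x₀ y₀ H) : ℝ) : ℂ) • v - ((-(S.q x₀ y₀ K) : ℝ) : ℂ) • v := by
    rw [← e1]
    abel
  rw [e2, QuadraticMap.polar]
  push_cast
  module

include h1 in
theorem Symp.anti {H K : H11 Γ} (h : QuadraticMap.polar (S.q x₀ y₀) H K = 0) (v : V) :
    S.J H (S.J K v) = - S.J K (S.J H v) := by
  have e := S.J_polar h1 H K v
  rw [h] at e
  simp only [neg_zero, Complex.ofReal_zero, zero_smul] at e
  exact eq_neg_of_add_eq_zero_left e

include h1 in
theorem Symp.polar_zero [Nontrivial V] {H K : H11 Γ}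
    (h : ∀ v, S.J H (S.J K v) = - S.J K (S.J H v)) : QuadraticMap.polar (S.q x₀ y₀) H K = 0 := by
  obtain ⟨v, hv⟩ := exists_ne (0 : V)
  have e := S.J_polar h1 H K v
  rw [h v, neg_add_cancel] at e
  have h2 := (smul_eq_zero.1 e.symm).resolve_right hv
  have h3 : -(QuadraticMap.polar (S.q x₀ y₀) H K) = 0 := by exact_mod_cast h2
  linarith

theorem Symp.eq_zero_of_J {H : H11 Γ} (h : ∀ v, S.J H v = 0) : H = 0 := by
  apply Subtype.ext
  funext w v
  rw [← S.J_spec, h, map_zero]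
  rfl

/-- The triple product. -/
noncomputable def Symp.T (a b c : H11 Γ) (v : V) : V := Complex.I • S.J a (S.J b (S.J c v))

/-- The class given by the triple product of three orthogonal classes. -/
theorem Symp.exists_third {a b c : H11 Γ} (hab : ∀ v, S.J a (S.J b v) = - S.J b (S.J a v))
    (hac : ∀ v, S.J a (S.J c v) = - S.J c (S.J a v))
    (hbc : ∀ v, S.J b (S.J c v) = - S.J c (S.J b v)) :
    ∃ d : H11 Γ, ∀ v, S.J d v = S.T a b c v := by
  have hadd : ∀ u v, S.T a b c (u + v) = S.T a b c u + S.T a b c v := by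
    intro u v
    simp only [Symp.T]
    rw [S.J_add, S.J_add, S.J_add, smul_add]
  have hsm : ∀ (k : ℂ) v, S.T a b c (k • v) = (starRingEnd ℂ k) • S.T a b c v := by
    intro k v
    simp only [Symp.T]
    rw [S.J_smul, S.J_smul, S.J_smul, Complex.conj_conj, smul_comm]
  have hrev : ∀ v, S.J c (S.J b (S.J a v)) = - S.J a (S.J b (S.J c v)) := by
    intro v
    have e1 : S.J b (S.J a v) = - S.J a (S.J b v) := by rw [hab, neg_neg]
    have e2 : ∀ w, S.J c (S.J a w) = - S.J a (S.J c w) := by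
      intro w
      rw [hac, neg_neg]
    have e3 : S.J c (S.J b v) = - S.J b (S.J c v) := by rw [hbc, neg_neg]
    rw [e1, S.J_neg, e2, e3, S.J_neg, neg_neg]
  have hherm : ∀ w v, s w (S.T a b c v) = starRingEnd ℂ (s v (S.T a b c w)) := by
    intro w v
    have e1 : s w (S.J a (S.J b (S.J c v))) = starRingEnd ℂ (s v (S.J c (S.J b (S.J a w)))) := by
      rw [S.J_swap a w, S.J_swap b (S.J a w), map_neg, Complex.conj_conj, neg_neg,
        S.J_spec, S.J_spec]
      exact c.2.1.symm v (S.J b (S.J a w))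
    simp only [Symp.T]
    rw [map_smul, map_smul, e1, hrev, map_neg, map_neg, smul_eq_mul, smul_eq_mul, map_mul,
      Complex.conj_I]
    ring
  refine ⟨⟨fun w v => s w (S.T a b c v), ⟨?_, ?_, ?_⟩, ?_⟩, ?_⟩
  · intro u v w
    rw [map_add, LinearMap.add_apply]
  · intro k v w
    rw [map_smul, LinearMap.smul_apply, smul_eq_mul]
  · intro v w
    exact hherm w v
  · intro γ hγ v w
    have e1 : S.T a b c (γ.linear w) = γ.linear (S.T a b c w) := by
      simp only [Symp.T]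
      rw [S.J_equiv c γ hγ, S.J_equiv b γ hγ, S.J_equiv a γ hγ, map_smul]
    change s (γ.linear v) (S.T a b c (γ.linear w)) = s v (S.T a b c w)
    rw [e1, S.inv γ hγ]
  · intro v
    apply S.ext
    intro w
    rw [S.J_spec]

theorem rank_cases [Nontrivial V] (hΓ : IsPrimitiveSymplectic Γ) :
    Module.finrank ℝ (H11 Γ) = 1 ∨ Module.finrank ℝ (H11 Γ) = 2 ∨
      Module.finrank ℝ (H11 Γ) = 4 := by
  obtain ⟨s, S⟩ := exists_symp hΓ
  obtain ⟨x₀, y₀, h1⟩ : ∃ x₀ y₀, s x₀ y₀ = 1 := by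
    obtain ⟨x, hx⟩ := exists_ne (0 : V)
    obtain ⟨y, hy⟩ : ∃ y, s x y ≠ 0 := by
      by_contra hcon
      push Not at hcon
      exact hx (S.nd x hcon)
    refine ⟨x, (s x y)⁻¹ • y, ?_⟩
    rw [map_smul, smul_eq_mul, inv_mul_cancel₀ hy]
  obtain ⟨e0, hpos⟩ := exists_kahler hΓ.torus
  have hq0 := S.q_pos h1 e0 hpos
  set B := (S.q x₀ y₀).polarBilin with hB
  have hBa : ∀ x y, B x y = QuadraticMap.polar (S.q x₀ y₀) x y := fun _ _ => rfl
  have hBd : ∀ x, B x x = 2 * S.q x₀ y₀ x := by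
    intro x
    rw [hBa, QuadraticMap.polar_self, two_nsmul, two_mul]
  have hsymm : ∀ x y, B x y = B y x := by
    intro x y
    rw [hBa, hBa, QuadraticMap.polar_comm]
  have hneg : ∀ x, B e0 x = 0 → x ≠ 0 → S.q x₀ y₀ x < 0 := fun x hx hx0 =>
    S.hodge_index h1 e0 x hpos hx hx0
  by_cases hA : ∀ x, B e0 x = 0 → x = 0
  · left
    refine finrank_frame B ![e0] ?_ ?_ ?_
    · intro i j hij
      exact absurd (Subsingleton.elim i j) hij
    · intro i
      fin_cases i
      change B e0 e0 ≠ 0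
      rw [hBd]
      positivity
    · intro x hx
      exact hA x (hx 0)
  push Not at hA
  obtain ⟨e1, he1, he10⟩ := hA
  have hq1 := hneg e1 he1 he10
  by_cases hC : ∀ x, B e0 x = 0 → B e1 x = 0 → x = 0
  · right; left
    refine finrank_frame B ![e0, e1] ?_ ?_ ?_
    · intro i j hij
      fin_cases i <;> fin_cases j
      · exact absurd rfl hij
      · exact he1
      · exact (hsymm _ _).trans he1
      · exact absurd rfl hij
    · intro i
      fin_cases i
      · change B e0 e0 ≠ 0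
        rw [hBd]
        positivity
      · change B e1 e1 ≠ 0
        rw [hBd]
        exact (by linarith : 2 * S.q x₀ y₀ e1 < 0).ne
    · intro x hx
      exact hC x (hx 0) (hx 1)
  push Not at hC
  obtain ⟨e2, he2, he12, he20⟩ := hC
  have hq2 := hneg e2 he2 he20
  have a01 := S.anti h1 he1
  have a02 := S.anti h1 he2
  have a12 := S.anti h1 he12
  obtain ⟨e3, he3⟩ := S.exists_third a01 a02 a12
  have b10 : ∀ v, S.J e1 (S.J e0 v) = - S.J e0 (S.J e1 v) := fun v => by rw [a01, neg_neg]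
  have b20 : ∀ v, S.J e2 (S.J e0 v) = - S.J e0 (S.J e2 v) := fun v => by rw [a02, neg_neg]
  have b21 : ∀ v, S.J e2 (S.J e1 v) = - S.J e1 (S.J e2 v) := fun v => by rw [a12, neg_neg]
  have hI : ∀ (H : H11 Γ) v, S.J H (Complex.I • v) = - (Complex.I • S.J H v) := by
    intro H v
    rw [S.J_smul, Complex.conj_I, neg_smul]
  -- anticommutation with a class orthogonal to e0, e1, e2 : commutes with T
  have hcomm : ∀ x : H11 Γ, (∀ v, S.J x (S.J e0 v) = - S.J e0 (S.J x v)) →
      (∀ v, S.J x (S.J e1 v) = - S.J e1 (S.J x v)) →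
      (∀ v, S.J x (S.J e2 v) = - S.J e2 (S.J x v)) →
      ∀ v, S.J x (S.J e3 v) = S.J e3 (S.J x v) := by
    intro x c0 c1 c2 v
    rw [he3, he3]
    simp only [Symp.T]
    rw [hI, c0, c1, c2]
    simp only [S.J_neg, neg_neg, smul_neg]
  have a03 : ∀ v, S.J e0 (S.J e3 v) = - S.J e3 (S.J e0 v) := by
    intro v
    rw [he3, he3]
    simp only [Symp.T]
    rw [hI, b20, S.J_neg, b10]
    simp only [S.J_neg, neg_neg]
  have a13 : ∀ v, S.J e1 (S.J e3 v) = - S.J e3 (S.J e1 v) := by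
    intro v
    rw [he3, he3]
    simp only [Symp.T]
    rw [hI, b10, b21]
    simp only [S.J_neg, smul_neg, neg_neg]
  have a23 : ∀ v, S.J e2 (S.J e3 v) = - S.J e3 (S.J e2 v) := by
    intro v
    rw [he3, he3]
    simp only [Symp.T]
    rw [hI, b20, b21]
    simp only [S.J_neg, smul_neg, neg_neg]
  have hsq : ∀ v, S.J e3 (S.J e3 v) =
      ((S.q x₀ y₀ e0 * S.q x₀ y₀ e1 * S.q x₀ y₀ e2 : ℝ) : ℂ) • v := by
    intro v
    rw [he3 v]
    simp only [Symp.T]
    rw [hI, he3]
    simp only [Symp.T]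
    rw [b20, S.J_neg, b10, b21]
    simp only [S.J_neg, neg_neg]
    rw [S.J_q h1 e2, S.J_smul, S.J_smul, S.J_smul, S.J_q h1 e1, S.J_smul, S.J_q h1 e0]
    simp only [Complex.conj_ofReal, smul_smul, ← neg_smul]
    congr 1
    push_cast
    linear_combination (-(S.q x₀ y₀ e0 : ℂ) * S.q x₀ y₀ e1 * S.q x₀ y₀ e2) * Complex.I_mul_I
  have hq3 : S.q x₀ y₀ e3 < 0 := by
    obtain ⟨v, hv⟩ := exists_ne (0 : V)
    have e := hsq v
    rw [S.J_q h1] at e
    have e2' : ((-(S.q x₀ y₀ e3) : ℝ) : ℂ) =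
        ((S.q x₀ y₀ e0 * S.q x₀ y₀ e1 * S.q x₀ y₀ e2 : ℝ) : ℂ) := by
      have h : (((-(S.q x₀ y₀ e3) : ℝ) : ℂ) -
        ((S.q x₀ y₀ e0 * S.q x₀ y₀ e1 * S.q x₀ y₀ e2 : ℝ) : ℂ)) • v = 0 := by
        rw [sub_smul, e, sub_self]
      exact sub_eq_zero.1 ((smul_eq_zero.1 h).resolve_right hv)
    have e3' : -(S.q x₀ y₀ e3) = S.q x₀ y₀ e0 * S.q x₀ y₀ e1 * S.q x₀ y₀ e2 := by
      exact_mod_cast e2'
    have : 0 < S.q x₀ y₀ e0 * S.q x₀ y₀ e1 * S.q x₀ y₀ e2 :=
      mul_pos_of_neg_of_neg (mul_neg_of_pos_of_neg hq0 hq1) hq2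
    linarith
  right; right
  have o03 : B e0 e3 = 0 := S.polar_zero h1 a03
  have o13 : B e1 e3 = 0 := S.polar_zero h1 a13
  have o23 : B e2 e3 = 0 := S.polar_zero h1 a23
  refine finrank_frame B ![e0, e1, e2, e3] ?_ ?_ ?_
  · intro i j hij
    fin_cases i <;> fin_cases j
    · exact absurd rfl hij
    · exact he1
    · exact he2
    · exact o03
    · exact (hsymm _ _).trans he1
    · exact absurd rfl hij
    · exact he12
    · exact o13
    · exact (hsymm _ _).trans he2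
    · exact (hsymm _ _).trans he12
    · exact absurd rfl hij
    · exact o23
    · exact (hsymm _ _).trans o03
    · exact (hsymm _ _).trans o13
    · exact (hsymm _ _).trans o23
    · exact absurd rfl hij
  · intro i
    fin_cases i
    · change B e0 e0 ≠ 0
      rw [hBd]
      positivity
    · change B e1 e1 ≠ 0
      rw [hBd]
      exact (by linarith : 2 * S.q x₀ y₀ e1 < 0).ne
    · change B e2 e2 ≠ 0
      rw [hBd]
      exact (by linarith : 2 * S.q x₀ y₀ e2 < 0).ne
    · change B e3 e3 ≠ 0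
      rw [hBd]
      exact (by linarith : 2 * S.q x₀ y₀ e3 < 0).ne
  · intro x hx
    have x0 : B x e0 = 0 := (hsymm _ _).trans (hx 0)
    have x1 : B x e1 = 0 := (hsymm _ _).trans (hx 1)
    have x2 : B x e2 = 0 := (hsymm _ _).trans (hx 2)
    have x3 : B x e3 = 0 := (hsymm _ _).trans (hx 3)
    have hc := hcomm x (S.anti h1 x0) (S.anti h1 x1) (S.anti h1 x2)
    have ha := S.anti h1 x3
    apply S.eq_zero_of_J
    intro v
    have e : S.J e3 (S.J x v) = 0 := by
      have h2 := hc v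
      rw [ha v] at h2
      have h3 : (2 : ℂ) • S.J e3 (S.J x v) = 0 := by
        rw [two_smul]
        nth_rewrite 1 [← h2]
        exact neg_add_cancel _
      exact (smul_eq_zero.1 h3).resolve_left two_ne_zero
    have e' := hsq (S.J x v)
    rw [e, S.J_zero] at e'
    refine (smul_eq_zero.1 e'.symm).resolve_left ?_
    have : 0 < S.q x₀ y₀ e0 * S.q x₀ y₀ e1 * S.q x₀ y₀ e2 :=
      mul_pos_of_neg_of_neg (mul_neg_of_pos_of_neg hq0 hq1) hq2
    exact_mod_cast this.ne'

end Rk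

end Pool.Agent.R189.SY
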